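import Pool.Agent.H48.AP.Defs

/-!
Algebra: composition of vertices, contents, and the edge lemma.
-/

set_option autoImplicit false

namespace Pool.Agent.H48.AP

open Pool.Agent.H41.Per (PM)

variable {g : ℕ → ℤ} {m : ℤ}

/-- composition: `w * conj w'` -/
lemma F_mul (m x y x' y' : ℤ) :
    F m (x * x' + 3 * m * x * y' + 3 * m ^ 2 * y * y') (y * x' - x * y') =
      F m x y * F m x' y' := by
  unfold F; ring

/-- composition: `w * w'` -/
lemma F_mul' (m x y x' y' : ℤ) :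
    F m (x * x' - 3 * m ^ 2 * y * y') (x * y' + y * x' + 3 * m * y * y') =
      F m x y * F m x' y' := by
  unfold F; ring

lemma F_smul (m c x y : ℤ) : F m (c * x) (c * y) = c ^ 2 * F m x y := by
  unfold F; ring

lemma F_neg (m x y : ℤ) : F m (-x) (-y) = F m x y := by
  unfold F; ring

lemma F_four (m x y : ℤ) : 4 * F m x y = (2 * x + 3 * m * y) ^ 2 + 3 * m ^ 2 * y ^ 2 := by
  unfold F; ring

lemma F_nonneg (m x y : ℤ) : 0 ≤ F m x y := by
  have := F_four m x y
  nlinarith [sq_nonneg (2 * x + 3 * m * y), sq_nonneg (m * y)]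

lemma F_pos {m x y : ℤ} (hm : 0 < m) (h : x ≠ 0 ∨ y ≠ 0) : 0 < F m x y := by
  have h4 := F_four m x y
  by_cases hy : y = 0
  · have hx : x ≠ 0 := by
      rcases h with h | h
      · exact h
      · exact absurd hy h
    subst hy
    have : F m x 0 = x ^ 2 := by unfold F; ring
    rw [this]; positivity
  · have : 0 < m ^ 2 * y ^ 2 := by positivity
    nlinarith [sq_nonneg (2 * x + 3 * m * y)]

lemma Vx.ne {x y : ℤ} (h : Vx m x y) : x ≠ 0 := by
  rintro rfl
  have := h.2.2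
  omega

lemma Vx.F_pos {x y : ℤ} (hm : 0 < m) (h : Vx m x y) : 0 < F m x y :=
  AP.F_pos hm (Or.inl h.ne)

lemma H_val (hg : PM g) {x y : ℤ} (h : F m x y ≠ 0) : H g m x y = 1 ∨ H g m x y = -1 :=
  hg.val _ (Int.natAbs_ne_zero.2 h)

lemma PM.one (hg : PM g) : g 1 = 1 := by
  have h := hg.mul 1 1 one_ne_zero one_ne_zero
  rcases hg.val 1 one_ne_zero with h1 | h1
  · exact h1
  · rw [mul_one, h1] at h; norm_num at h

lemma g_mul (hg : PM g) {a b : ℤ} (ha : a ≠ 0) (hb : b ≠ 0) :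
    g (a * b).natAbs = g a.natAbs * g b.natAbs := by
  rw [Int.natAbs_mul]
  exact hg.mul _ _ (Int.natAbs_ne_zero.2 ha) (Int.natAbs_ne_zero.2 hb)

lemma g_sq (hg : PM g) {a : ℤ} (ha : a ≠ 0) : g (a ^ 2).natAbs = 1 := by
  rw [pow_two, g_mul hg ha ha]
  exact hg.sq (Int.natAbs_ne_zero.2 ha)

lemma H_mul (hg : PM g) {x y x' y' : ℤ} (h : F m x y ≠ 0) (h' : F m x' y' ≠ 0) :
    H g m (x * x' + 3 * m * x * y' + 3 * m ^ 2 * y * y') (y * x' - x * y') =
      H g m x y * H g m x' y' := by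
  unfold H; rw [F_mul, g_mul hg h h']

lemma H_mul' (hg : PM g) {x y x' y' : ℤ} (h : F m x y ≠ 0) (h' : F m x' y' ≠ 0) :
    H g m (x * x' - 3 * m ^ 2 * y * y') (x * y' + y * x' + 3 * m * y * y') =
      H g m x y * H g m x' y' := by
  unfold H; rw [F_mul', g_mul hg h h']

lemma H_smul (hg : PM g) {c x y : ℤ} (hc : c ≠ 0) (h : F m x y ≠ 0) :
    H g m (c * x) (c * y) = H g m x y := by
  unfold H
  rw [F_smul, g_mul hg (pow_ne_zero 2 hc) h, g_sq hg hc, one_mul]

lemma H_neg (x y : ℤ) : H g m (-x) (-y) = H g m x y := by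
  unfold H; rw [F_neg]

lemma H_self (hg : PM g) {x y : ℤ} (h : F m x y ≠ 0) : H g m x y * H g m x y = 1 :=
  hg.sq (Int.natAbs_ne_zero.2 h)

/-! ### primes dividing a primitive value -/

/-- a prime dividing `x² + 3mxy + 3m²y²` with `x, y` coprime and `x` prime to `3m` is
`1` modulo `3` -/
lemma prime_mod_three {x y : ℤ} {p : ℕ} (hp : p.Prime) (hxy : IsCoprime x y)
    (hxm : IsCoprime x m) (hx3 : ¬ (3 : ℤ) ∣ x) (h : (p : ℤ) ∣ F m x y) : p % 3 = 1 := by
  have := Fact.mk hp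
  have hpI : Prime (p : ℤ) := Nat.prime_iff_prime_int.1 hp
  have hpx : ¬ (p : ℤ) ∣ x := by
    intro hx
    have h1 : (p : ℤ) ∣ 3 * m ^ 2 * y ^ 2 := by
      have e : 3 * m ^ 2 * y ^ 2 = F m x y - x * (x + 3 * m * y) := by unfold F; ring
      rw [e]; exact dvd_sub h (hx.mul_right _)
    rcases hpI.dvd_or_dvd h1 with h2 | h2
    · rcases hpI.dvd_or_dvd h2 with h3 | h3
      · have h4 : (p : ℤ) = 3 := by
          have h5 : p ∣ 3 := by exact_mod_cast h3
          have := (Nat.prime_dvd_prime_iff_eq hp Nat.prime_three).1 h5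
          exact_mod_cast this
        rw [h4] at hx
        exact hx3 hx
      · have := hpI.dvd_of_dvd_pow h3
        exact hpI.not_isUnit (hxm.isUnit_of_dvd' hx this)
    · have := hpI.dvd_of_dvd_pow h2
      exact hpI.not_isUnit (hxy.isUnit_of_dvd' hx this)
  have hpmy : ¬ (p : ℤ) ∣ m * y := by
    intro hmy
    apply hpx
    have h1 : (p : ℤ) ∣ x ^ 2 := by
      have e : x ^ 2 = F m x y - m * y * (3 * x + 3 * (m * y)) := by unfold F; ring
      rw [e]; exact dvd_sub h (hmy.mul_right _)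
    exact hpI.dvd_of_dvd_pow h1
  -- work in `ZMod p`
  have hx0 : (x : ZMod p) ≠ 0 := by
    rw [Ne, ZMod.intCast_zmod_eq_zero_iff_dvd]; exact hpx
  have hmy0 : ((m * y : ℤ) : ZMod p) ≠ 0 := by
    rw [Ne, ZMod.intCast_zmod_eq_zero_iff_dvd]; exact hpmy
  have hF0 : ((F m x y : ℤ) : ZMod p) = 0 := by
    rw [ZMod.intCast_zmod_eq_zero_iff_dvd]; exact h
  set t : ZMod p := (x : ZMod p) / ((m * y : ℤ) : ZMod p) with ht
  have hxt : (x : ZMod p) = t * ((m * y : ℤ) : ZMod p) := by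
    rw [ht]; field_simp
  set z : ZMod p := t + 1 with hz
  have hquad : z ^ 2 + z + 1 = 0 := by
    have h1 : ((F m x y : ℤ) : ZMod p) = (((m * y : ℤ) : ZMod p)) ^ 2 * (z ^ 2 + z + 1) := by
      unfold F
      push_cast
      push_cast at hxt
      rw [hxt, hz]; ring
    rw [hF0] at h1
    rcases mul_eq_zero.1 h1.symm with h2 | h2
    · exact absurd (pow_eq_zero_iff (two_ne_zero) |>.1 h2) hmy0
    · exact h2
  have hz3 : z ^ 3 = 1 := by linear_combination (z - 1) * hquad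
  by_cases hz1 : z = 1
  · -- then `3 = 0` and `t = 0`
    exfalso
    have : t = 0 := by rw [hz] at hz1; linear_combination hz1
    rw [this, zero_mul] at hxt
    exact hx0 hxt
  · have hord : orderOf z = 3 := orderOf_eq_prime hz3 hz1
    have hz0 : z ≠ 0 := by
      rintro h0
      rw [h0] at hz3; norm_num at hz3
    have h1 : orderOf z ∣ p - 1 := ZMod.orderOf_dvd_card_sub_one hz0
    rw [hord] at h1
    have := hp.two_le
    omega

lemma mod_three_of_primes {c : ℕ} (hc : 0 < c) (h : ∀ p : ℕ, p.Prime → p ∣ c → p % 3 = 1) :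
    c % 3 = 1 := by
  induction c using induction_on_primes with
  | zero => omega
  | one => rfl
  | prime_mul p a hp ih =>
    have ha : 0 < a := Nat.pos_of_mul_pos_left hc
    have h1 := ih ha (fun q hq hqa => h q hq (hqa.mul_left p))
    have h2 := h p hp (dvd_mul_right p a)
    rw [Nat.mul_mod, h1, h2]

/-- a pair of vertices is reduced to one vertex in the row `y = b`, `b ∣ det` -/
lemma pair_vertex (hg : PM g) (hm : 0 < m) {x y x' y' : ℤ} (h : Vx m x y) (h' : Vx m x' y')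
    (hδ : 0 < y * x' - x * y') :
    ∃ c a b : ℤ, 0 < c ∧ 0 < b ∧ x * x' + 3 * m * x * y' + 3 * m ^ 2 * y * y' = c * a ∧
      y * x' - x * y' = c * b ∧ Vx m a b ∧ H g m a b = H g m x y * H g m x' y' := by
  set A := x * x' + 3 * m * x * y' + 3 * m ^ 2 * y * y' with hA
  set B := y * x' - x * y' with hB
  have hFm : F m A B = F m x y * F m x' y' := F_mul m x y x' y'
  have hF1 := h.F_pos hm
  have hF2 := h'.F_pos hm
  have hA3 : A % 3 = 1 := by
    have e : A = x * x' + 3 * (m * x * y' + m ^ 2 * y * y') := by rw [hA]; ring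
    have h1 := h.2.2
    have h2 := h'.2.2
    have h3 : (x * x') % 3 = 1 := by rw [Int.mul_emod, h1, h2]; norm_num
    rw [e]; omega
  have hAm : IsCoprime A m := by
    have h1 : IsCoprime (x * x') m := h.2.1.mul_left h'.2.1
    have e : A = x * x' + m * (3 * x * y' + 3 * m * y * y') := by rw [hA]; ring
    rw [e]
    exact IsCoprime.add_mul_left_left h1 _
  -- content
  set c : ℕ := Int.gcd A B with hc
  have hc0 : 0 < c := Int.gcd_pos_of_ne_zero_right _ hδ.ne'
  obtain ⟨a, ha⟩ := Int.gcd_dvd_left A B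
  obtain ⟨b, hb⟩ := Int.gcd_dvd_right A B
  rw [← hc] at ha hb
  have hcZ : (0 : ℤ) < c := by exact_mod_cast hc0
  have hb0 : 0 < b := by
    have : 0 < (c : ℤ) * b := by rw [← hb]; exact hδ
    exact (mul_pos_iff_of_pos_left hcZ).1 this
  have hcop : IsCoprime a b := by
    rw [Int.isCoprime_iff_gcd_eq_one]
    have h1 : Int.gcd ((c : ℤ) * a) (c * b) = c * Int.gcd a b := by
      rw [Int.gcd_mul_left]; simp
    rw [← ha, ← hb, ← hc] at h1
    exact Nat.eq_of_mul_eq_mul_left hc0 (by omega)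
  have hcm : IsCoprime (c : ℤ) m := by
    rw [ha] at hAm; exact IsCoprime.of_mul_left_left hAm
  have ham : IsCoprime a m := by
    rw [ha] at hAm; exact IsCoprime.of_mul_left_right hAm
  have hc3 : c % 3 = 1 := by
    apply mod_three_of_primes hc0
    intro p hp hpc
    have hpI : Prime (p : ℤ) := Nat.prime_iff_prime_int.1 hp
    have hpc' : (p : ℤ) ∣ c := by exact_mod_cast hpc
    have h1 : (p : ℤ) ∣ F m A B := by
      rw [ha, hb, F_smul]
      exact (hpc'.trans (dvd_pow_self _ two_ne_zero)).mul_right _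
    rw [hFm] at h1
    have hx3 : ∀ {z : ℤ}, z % 3 = 1 → ¬ (3 : ℤ) ∣ z := fun hz hd => by omega
    rcases hpI.dvd_or_dvd h1 with h2 | h2
    · exact prime_mod_three hp h.1 h.2.1 (hx3 h.2.2) h2
    · exact prime_mod_three hp h'.1 h'.2.1 (hx3 h'.2.2) h2
  have ha3 : a % 3 = 1 := by
    have h1 : (c : ℤ) % 3 = 1 := by omega
    have h2 : ((c : ℤ) * a) % 3 = 1 := by rw [← ha]; exact hA3
    have h3 : a % 3 = 0 ∨ a % 3 = 1 ∨ a % 3 = 2 := by omega
    rw [Int.mul_emod, h1] at h2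
    rcases h3 with h | h | h <;> rw [h] at h2 <;> omega
  have hV : Vx m a b := ⟨hcop, ham, ha3⟩
  refine ⟨c, a, b, hcZ, hb0, ha, hb, hV, ?_⟩
  have hFab : F m a b ≠ 0 := (hV.F_pos hm).ne'
  rw [← H_smul hg (ne_of_gt hcZ) hFab, ← ha, ← hb]
  exact H_mul hg hF1.ne' hF2.ne'

/-- edge lemma -/
lemma edge (hg : PM g) (hm : 0 < m) {r K ε : ℤ}
    (hc : ∀ k : ℤ, K ≤ k → m ∣ k - r → g (3 * k ^ 2 + 3 * k + 1).natAbs = ε)
    {a b d : ℤ} (ha : 0 < a) (hb : 0 < b) (hcop : IsCoprime a (3 * m * b)) (hd : 0 < d)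
    (hdF : d ∣ F m a b) (hdm : 3 * m ^ 2 * b ∣ d - (a - 3 * m * b * r))
    (h1 : K * (3 * m * b) ≤ a - d) (h2 : (K * (3 * m * b) + a + 3 * m * b) * d ≤ F m a b) :
    H g m a b = 1 := by
  obtain ⟨s, hs⟩ := hdm
  obtain ⟨e, he⟩ := hdF
  have hmb : 0 < 3 * m * b := by positivity
  -- `R1 = r - m s`
  set R1 : ℤ := r - m * s with hR1
  have hd1 : a - d = 3 * m * b * R1 := by rw [hR1]; linear_combination -hs
  have hR1K : K ≤ R1 := by
    rw [hd1] at h1
    have : (3 * m * b) * K ≤ (3 * m * b) * R1 := by linarith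
    exact le_of_mul_le_mul_left this hmb
  -- `d` is prime to `3 m b`
  have hdcop : IsCoprime d (3 * m ^ 2 * b) := by
    have h3 : IsCoprime d (3 * m * b) := by
      have e1 : d = a + (3 * m * b) * (-R1) := by linarith
      rw [e1]
      exact IsCoprime.add_mul_left_left hcop _
    have h4 : IsCoprime d m := by
      have : IsCoprime d (m * (3 * b)) := by
        have e2 : 3 * m * b = m * (3 * b) := by ring
        rwa [e2] at h3
      exact IsCoprime.of_mul_right_left this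
    have e3 : 3 * m ^ 2 * b = (3 * m * b) * m := by ring
    rw [e3]; exact h3.mul_right h4
  -- `e ≡ a + 3mb + 3mbr (mod 3m²b)`
  have hkey : 3 * m ^ 2 * b ∣ e - (a + 3 * m * b + 3 * m * b * r) := by
    have h3 : 3 * m ^ 2 * b ∣ d * (e - (a + 3 * m * b + 3 * m * b * r)) := by
      refine ⟨b * (3 * r ^ 2 + 3 * r + 1) - s * (a + 3 * m * b + 3 * m * b * r), ?_⟩
      have e1 : d = a - 3 * m * b * r + 3 * m ^ 2 * b * s := by linarith
      have e2 : d * e = F m a b := he.symm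
      calc d * (e - (a + 3 * m * b + 3 * m * b * r))
          = F m a b - d * (a + 3 * m * b + 3 * m * b * r) := by rw [mul_sub, e2]
        _ = _ := by rw [e1]; unfold F; ring
    exact hdcop.symm.dvd_of_dvd_mul_left h3
  obtain ⟨u, hu⟩ := hkey
  set R2 : ℤ := r + m * u with hR2
  have he1 : e = a + 3 * m * b + 3 * m * b * R2 := by rw [hR2]; linear_combination hu
  have hR2K : K ≤ R2 := by
    rw [he] at h2
    have h3 : (K * (3 * m * b) + a + 3 * m * b) * d ≤ e * d := by linarith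
    have h4 := le_of_mul_le_mul_right h3 hd
    rw [he1] at h4
    have : (3 * m * b) * K ≤ (3 * m * b) * R2 := by linarith
    exact le_of_mul_le_mul_left this hmb
  have hg1 := hc R1 hR1K ⟨-s, by rw [hR1]; ring⟩
  have hg2 := hc R2 hR2K ⟨u, by rw [hR2]; ring⟩
  -- the identity
  have hid : F m a b * (3 * R1 ^ 2 + 3 * R1 + 1) = d ^ 2 * (3 * R2 ^ 2 + 3 * R2 + 1) := by
    -- `(a + mbθ)(1 + R1 θ) = d (1 + R2 θ)`; second coordinate: a R1 + b m (1 + 3 R1) = d R2
    have h5 : a * R1 + b * m * (1 + 3 * R1) = d * R2 := by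
      have h6 : (3 * m * b) * (a * R1 + b * m * (1 + 3 * R1)) = (3 * m * b) * (d * R2) := by
        have e1 : 3 * m * b * R1 = a - d := hd1.symm
        have e2 : 3 * m * b * R2 = e - a - 3 * m * b := by linarith
        calc (3 * m * b) * (a * R1 + b * m * (1 + 3 * R1))
            = a * (3 * m * b * R1) + 3 * m ^ 2 * b ^ 2 + 3 * b * m * (3 * m * b * R1) := by ring
          _ = a * (a - d) + 3 * m ^ 2 * b ^ 2 + 3 * b * m * (a - d) := by rw [e1]
          _ = F m a b - d * (a + 3 * m * b) := by unfold F; ring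
          _ = d * (3 * m * b * R2) := by rw [e2, he]; ring
          _ = _ := by ring
      exact mul_left_cancel₀ hmb.ne' h6
    have h7 : a - 3 * b * m * R1 = d := by linarith
    have e3 : F m a b * (3 * R1 ^ 2 + 3 * R1 + 1) =
        (a - 3 * b * m * R1) ^ 2 + 3 * (a - 3 * b * m * R1) * (a * R1 + b * m * (1 + 3 * R1)) +
          3 * (a * R1 + b * m * (1 + 3 * R1)) ^ 2 := by unfold F; ring
    rw [e3, h5, h7]; ring
  have hFpos : 0 < F m a b := F_pos hm (Or.inl ha.ne')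
  have hf1 : (3 * R1 ^ 2 + 3 * R1 + 1 : ℤ) ≠ 0 := by
    have : 0 < 4 * (3 * R1 ^ 2 + 3 * R1 + 1) := by nlinarith [sq_nonneg (2 * R1 + 1)]
    omega
  have hf2 : (3 * R2 ^ 2 + 3 * R2 + 1 : ℤ) ≠ 0 := by
    have : 0 < 4 * (3 * R2 ^ 2 + 3 * R2 + 1) := by nlinarith [sq_nonneg (2 * R2 + 1)]
    omega
  have h8 : g (F m a b * (3 * R1 ^ 2 + 3 * R1 + 1)).natAbs =
      g (d ^ 2 * (3 * R2 ^ 2 + 3 * R2 + 1)).natAbs := by rw [hid]
  rw [g_mul hg hFpos.ne' hf1, g_mul hg (pow_ne_zero 2 hd.ne') hf2, g_sq hg hd.ne', one_mul,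
    hg1, hg2] at h8
  have hε : ε ≠ 0 := by
    rw [← hg1]
    rcases hg.val _ (Int.natAbs_ne_zero.2 hf1) with h | h <;> rw [h] <;> norm_num
  unfold H
  exact mul_right_cancel₀ hε (by rw [h8, one_mul])

end Pool.Agent.H48.AP
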