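import Mathlib

/-!
Stern-Brocot chains of real numbers in `[a₀, a₀ + 1)`.
-/

set_option autoImplicit false

namespace Pool.Agent.H48.AP

/-- A Farey interval `[xu/yu, xv/yv)`. -/
structure Node where
  xu : ℤ
  yu : ℤ
  xv : ℤ
  yv : ℤ

namespace Node

/-- size -/
def sz (J : Node) : ℤ := J.yu + J.yv

/-- left child -/
def left (J : Node) : Node := ⟨J.xu, J.yu, J.xu + J.xv, J.yu + J.yv⟩

/-- right child -/
def right (J : Node) : Node := ⟨J.xu + J.xv, J.yu + J.yv, J.xv, J.yv⟩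

/-- a Farey interval inside `[a₀, a₀ + 1)` -/
structure Ok (a0 : ℤ) (J : Node) : Prop where
  det : J.xv * J.yu - J.xu * J.yv = 1
  hu : 1 ≤ J.yu
  hv : 1 ≤ J.yv
  lo : a0 * J.yu ≤ J.xu
  lo' : a0 * J.yv ≤ J.xv
  hi : J.xu ≤ (a0 + 1) * J.yu
  hi' : J.xv ≤ (a0 + 1) * J.yv

/-- membership -/
def Mem (J : Node) (X : ℝ) : Prop := (J.xu : ℝ) ≤ X * J.yu ∧ X * J.yv < J.xv

lemma Ok.left {a0 : ℤ} {J : Node} (h : J.Ok a0) : J.left.Ok a0 where
  det := by have := h.det; simp only [Node.left]; linarith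
  hu := h.hu
  hv := by have := h.hu; have := h.hv; simp only [Node.left]; omega
  lo := h.lo
  lo' := by have := h.lo; have := h.lo'; simp only [Node.left]; linarith
  hi := h.hi
  hi' := by have := h.hi; have := h.hi'; simp only [Node.left]; linarith

lemma Ok.right {a0 : ℤ} {J : Node} (h : J.Ok a0) : J.right.Ok a0 where
  det := by have := h.det; simp only [Node.right]; linarith
  hu := by have := h.hu; have := h.hv; simp only [Node.right]; omega
  hv := h.hv
  lo := by have := h.lo; have := h.lo'; simp only [Node.right]; linarith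
  lo' := h.lo'
  hi := by have := h.hi; have := h.hi'; simp only [Node.right]; linarith
  hi' := h.hi'

lemma Ok.root (a0 : ℤ) : (⟨a0, 1, a0 + 1, 1⟩ : Node).Ok a0 where
  det := by simp
  hu := le_refl _
  hv := le_refl _
  lo := by simp
  lo' := by simp
  hi := by simp
  hi' := by simp

lemma mem_of_left {J : Node} {X : ℝ} {a0 : ℤ} (h : J.Ok a0) (hX : J.left.Mem X) : J.Mem X := by
  obtain ⟨h1, h2⟩ := hX
  simp only [Node.left] at h1 h2
  refine ⟨h1, ?_⟩
  push_cast at h2
  linarith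

lemma mem_of_right {J : Node} {X : ℝ} {a0 : ℤ} (h : J.Ok a0) (hX : J.right.Mem X) : J.Mem X := by
  obtain ⟨h1, h2⟩ := hX
  simp only [Node.right] at h1 h2
  refine ⟨?_, h2⟩
  push_cast at h1
  linarith

/-- two points of a Farey interval (closed) are at distance at most `1 / (yu yv)` -/
lemma dist_le {a0 : ℤ} {J : Node} (h : J.Ok a0) {X Z : ℝ}
    (hX1 : (J.xu : ℝ) ≤ X * J.yu) (hX2 : X * J.yv ≤ J.xv)
    (hZ1 : (J.xu : ℝ) ≤ Z * J.yu) (hZ2 : Z * J.yv ≤ J.xv) :
    |X - Z| ≤ 1 / ((J.yu : ℝ) * J.yv) := by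
  have hu : (0 : ℝ) < J.yu := by exact_mod_cast (by have := h.hu; omega : 0 < J.yu)
  have hv : (0 : ℝ) < J.yv := by exact_mod_cast (by have := h.hv; omega : 0 < J.yv)
  have hdet : (J.xv : ℝ) * J.yu - J.xu * J.yv = 1 := by exact_mod_cast h.det
  rw [abs_le, neg_le_iff_add_nonneg]
  have huv : (0 : ℝ) < (J.yu : ℝ) * J.yv := mul_pos hu hv
  constructor
  · rw [← sub_nonneg]
    have h1 : 0 ≤ (X - Z) * ((J.yu : ℝ) * J.yv) + 1 := by
      have e1 : X * J.yu * J.yv ≥ J.xu * J.yv := mul_le_mul_of_nonneg_right hX1 hv.le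
      have e2 : Z * J.yv * J.yu ≤ J.xv * J.yu := mul_le_mul_of_nonneg_right hZ2 hu.le
      nlinarith
    have h2 : X - Z + 1 / ((J.yu : ℝ) * J.yv) =
        ((X - Z) * ((J.yu : ℝ) * J.yv) + 1) / ((J.yu : ℝ) * J.yv) := by
      field_simp
    rw [sub_zero, h2]
    positivity
  · rw [le_div_iff₀ huv]
    have e1 : X * J.yv * J.yu ≤ J.xv * J.yu := mul_le_mul_of_nonneg_right hX2 hu.le
    have e2 : Z * J.yu * J.yv ≥ J.xu * J.yv := mul_le_mul_of_nonneg_right hZ1 hv.le
    nlinarith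

end Node

open Classical in
/-- the Stern-Brocot chain of `X` -/
noncomputable def chain (a0 : ℤ) (X : ℝ) : ℕ → Node
  | 0 => ⟨a0, 1, a0 + 1, 1⟩
  | k + 1 => if X * ((chain a0 X k).yu + (chain a0 X k).yv) <
      (chain a0 X k).xu + (chain a0 X k).xv then (chain a0 X k).left else (chain a0 X k).right

variable {a0 : ℤ} {X : ℝ}

lemma chain_succ (a0 : ℤ) (X : ℝ) (k : ℕ) :
    (chain a0 X (k + 1) = (chain a0 X k).left ∧ X * ((chain a0 X k).yu + (chain a0 X k).yv) <
      (chain a0 X k).xu + (chain a0 X k).xv) ∨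
    (chain a0 X (k + 1) = (chain a0 X k).right ∧
      ((chain a0 X k).xu : ℝ) + (chain a0 X k).xv ≤
        X * ((chain a0 X k).yu + (chain a0 X k).yv)) := by
  by_cases h : X * ((chain a0 X k).yu + (chain a0 X k).yv) <
      (chain a0 X k).xu + (chain a0 X k).xv
  · left
    refine ⟨?_, h⟩
    rw [chain, if_pos h]
  · right
    refine ⟨?_, not_lt.1 h⟩
    rw [chain, if_neg h]

lemma chain_ok (a0 : ℤ) (X : ℝ) (k : ℕ) : (chain a0 X k).Ok a0 := by
  induction k with
  | zero => exact Node.Ok.root a0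
  | succ k ih =>
    rcases chain_succ a0 X k with ⟨h, -⟩ | ⟨h, -⟩ <;> rw [h]
    · exact ih.left
    · exact ih.right

lemma chain_mem (h0 : (a0 : ℝ) ≤ X) (h1 : X < a0 + 1) (k : ℕ) : (chain a0 X k).Mem X := by
  induction k with
  | zero => exact ⟨by simpa [chain] using h0, by simpa [chain] using h1⟩
  | succ k ih =>
    rcases chain_succ a0 X k with ⟨h, h2⟩ | ⟨h, h2⟩ <;> rw [h]
    · exact ⟨ih.1, by simp only [Node.left]; push_cast; exact h2⟩
    · exact ⟨by simp only [Node.right]; push_cast; exact h2, ih.2⟩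

lemma sz_succ (a0 : ℤ) (X : ℝ) (k : ℕ) :
    (chain a0 X k).sz < (chain a0 X (k + 1)).sz ∧
      (chain a0 X (k + 1)).sz < 2 * (chain a0 X k).sz := by
  have hok := chain_ok a0 X k
  have hu := hok.hu
  have hv := hok.hv
  rcases chain_succ a0 X k with ⟨h, -⟩ | ⟨h, -⟩ <;> rw [h] <;>
    simp only [Node.left, Node.right, Node.sz] <;> omega

lemma sz_ge (a0 : ℤ) (X : ℝ) (k : ℕ) : (k : ℤ) + 2 ≤ (chain a0 X k).sz := by
  induction k with
  | zero => simp [chain, Node.sz]
  | succ k ih =>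
    have := (sz_succ a0 X k).1
    push_cast
    omega

lemma sz_mono (a0 : ℤ) (X : ℝ) {k l : ℕ} (h : k ≤ l) :
    (chain a0 X k).sz ≤ (chain a0 X l).sz := by
  induction h with
  | refl => exact le_refl _
  | step _ ih => exact ih.trans (sz_succ a0 X _).1.le

lemma mem_of_succ {Z : ℝ} {k : ℕ} (h : (chain a0 X (k + 1)).Mem Z) : (chain a0 X k).Mem Z := by
  rcases chain_succ a0 X k with ⟨h', -⟩ | ⟨h', -⟩ <;> rw [h'] at h
  · exact Node.mem_of_left (chain_ok a0 X k) h
  · exact Node.mem_of_right (chain_ok a0 X k) h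

/-- the chain of a point `Z` of the `k`-th interval of `X` agrees up to `k` -/
lemma chain_congr {Z : ℝ} {k : ℕ} (h : (chain a0 X k).Mem Z) {l : ℕ} (hl : l ≤ k) :
    chain a0 Z l = chain a0 X l := by
  induction k generalizing l with
  | zero =>
    obtain rfl : l = 0 := by omega
    rfl
  | succ k ih =>
    have hk := mem_of_succ h
    rcases Nat.lt_or_ge l (k + 1) with hlt | hge
    · exact ih hk (by omega)
    · obtain rfl : l = k + 1 := by omega
      have e := ih hk (le_refl k)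
      rcases chain_succ a0 X k with ⟨h', h2⟩ | ⟨h', h2⟩
      · rw [h'] at h ⊢
        rw [chain, e, if_pos]
        have := h.2
        simp only [Node.left] at this
        push_cast at this
        exact this
      · rw [h'] at h ⊢
        rw [chain, e, if_neg]
        have := h.1
        simp only [Node.right] at this
        push_cast at this
        exact not_lt.2 this

lemma exists_scale (a0 : ℤ) (X : ℝ) (Y : ℤ) : ∃ k, Y ≤ (chain a0 X k).sz := by
  refine ⟨Y.toNat, ?_⟩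
  have := sz_ge a0 X Y.toNat
  have := Int.self_le_toNat Y
  omega

open Classical in
/-- the first index at which the size is at least `Y` -/
noncomputable def lvl (a0 : ℤ) (X : ℝ) (Y : ℤ) : ℕ := Nat.find (exists_scale a0 X Y)

/-- the Farey interval of `X` at scale `Y` -/
noncomputable def nodeAt (a0 : ℤ) (X : ℝ) (Y : ℤ) : Node := chain a0 X (lvl a0 X Y)

lemma nodeAt_ge (a0 : ℤ) (X : ℝ) (Y : ℤ) : Y ≤ (nodeAt a0 X Y).sz := by
  classical
  exact Nat.find_spec (exists_scale a0 X Y)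

lemma lvl_min (a0 : ℤ) (X : ℝ) (Y : ℤ) {k : ℕ} (h : k < lvl a0 X Y) :
    (chain a0 X k).sz < Y := by
  classical
  exact not_le.1 (Nat.find_min (exists_scale a0 X Y) h)

lemma lvl_le {Y : ℤ} {k : ℕ} (h : Y ≤ (chain a0 X k).sz) : lvl a0 X Y ≤ k := by
  classical
  exact Nat.find_min' (exists_scale a0 X Y) h

lemma nodeAt_lt (a0 : ℤ) (X : ℝ) {Y : ℤ} (hY : 2 ≤ Y) : (nodeAt a0 X Y).sz < 2 * Y := by
  unfold nodeAt
  rcases Nat.eq_zero_or_pos (lvl a0 X Y) with h | h
  · rw [h]; simp only [chain, Node.sz]; omega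
  · obtain ⟨k, hk⟩ : ∃ k, lvl a0 X Y = k + 1 := ⟨lvl a0 X Y - 1, by omega⟩
    rw [hk]
    have h1 := lvl_min a0 X Y (k := k) (by omega)
    have h2 := (sz_succ a0 X k).2
    omega

lemma lvl_mono {Y Y' : ℤ} (h : Y ≤ Y') : lvl a0 X Y ≤ lvl a0 X Y' :=
  lvl_le (h.trans (nodeAt_ge a0 X Y'))

/-- points in the same interval at scale `Y` -/
lemma nodeAt_congr {Z : ℝ} {Y : ℤ} (h : (nodeAt a0 X Y).Mem Z) :
    nodeAt a0 Z Y = nodeAt a0 X Y := by
  unfold nodeAt at h ⊢
  have h1 : chain a0 Z (lvl a0 X Y) = chain a0 X (lvl a0 X Y) := chain_congr h (le_refl _)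
  have h2 : lvl a0 Z Y = lvl a0 X Y := by
    apply le_antisymm
    · apply lvl_le
      rw [h1]
      exact nodeAt_ge a0 X Y
    · by_contra hlt
      push Not at hlt
      have h3 := chain_congr h hlt.le
      have h4 := nodeAt_ge a0 Z Y
      unfold nodeAt at h4
      rw [h3] at h4
      have h5 := lvl_min a0 X Y hlt
      omega
  rw [h2, h1]

end Pool.Agent.H48.AP
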