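import Pool.Agent.H48.AP.Exc

/-!
The contradiction: an odd vertex close to the real axis is impossible.
-/

set_option autoImplicit false

namespace Pool.Agent.H48.AP

open Pool.Agent.H41.Per (PM)
open MeasureTheory

variable {g : ℕ → ℤ} {m : ℤ}

/-- removing the content of a product of two vertices -/
lemma reduce (hg : PM g) (hm : 0 < m) {x y x' y' A B : ℤ} (h : Vx m x y) (h' : Vx m x' y')
    (hA3 : A % 3 = 1) (hAm : IsCoprime A m) (hFm : F m A B = F m x y * F m x' y') :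
    ∃ c a b : ℤ, 0 < c ∧ A = c * a ∧ B = c * b ∧ Vx m a b ∧
      H g m a b = H g m x y * H g m x' y' := by
  have hF1 := h.F_pos hm
  have hF2 := h'.F_pos hm
  have hA0 : A ≠ 0 := by rintro rfl; omega
  set c : ℕ := Int.gcd A B with hc
  have hc0 : 0 < c := Int.gcd_pos_of_ne_zero_left _ hA0
  obtain ⟨a, ha⟩ := Int.gcd_dvd_left A B
  obtain ⟨b, hb⟩ := Int.gcd_dvd_right A B
  rw [← hc] at ha hb
  have hcZ : (0 : ℤ) < c := by exact_mod_cast hc0
  have hcop : IsCoprime a b := by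
    rw [Int.isCoprime_iff_gcd_eq_one]
    have h1 : Int.gcd ((c : ℤ) * a) (c * b) = c * Int.gcd a b := by
      rw [Int.gcd_mul_left]; simp
    rw [← ha, ← hb, ← hc] at h1
    exact Nat.eq_of_mul_eq_mul_left hc0 (by omega)
  have ham : IsCoprime a m := by
    rw [ha] at hAm; exact IsCoprime.of_mul_left_right hAm
  have hc3 : c % 3 = 1 := by
    apply mod_three_of_primes hc0
    intro p hp hpc
    have hpI : Prime (p : ℤ) := Nat.prime_iff_prime_int.1 hp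
    have hpc' : (p : ℤ) ∣ c := by exact_mod_cast hpc
    have h1 : (p : ℤ) ∣ F m A B := by
      rw [ha, hb, F_smul]
      exact (hpc'.trans (dvd_pow_self _ two_ne_zero)).mul_right _
    rw [hFm] at h1
    have hx3 : ∀ {z : ℤ}, z % 3 = 1 → ¬ (3 : ℤ) ∣ z := fun hz hd => by omega
    rcases hpI.dvd_or_dvd h1 with h2 | h2
    · exact prime_mod_three hp h.1 h.2.1 (hx3 h.2.2) h2
    · exact prime_mod_three hp h'.1 h'.2.1 (hx3 h'.2.2) h2
  have ha3 : a % 3 = 1 := by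
    have h1 : (c : ℤ) % 3 = 1 := by omega
    have h2 : ((c : ℤ) * a) % 3 = 1 := by rw [← ha]; exact hA3
    have h3 : a % 3 = 0 ∨ a % 3 = 1 ∨ a % 3 = 2 := by omega
    rw [Int.mul_emod, h1] at h2
    rcases h3 with h | h | h <;> rw [h] at h2 <;> omega
  have hV : Vx m a b := ⟨hcop, ham, ha3⟩
  refine ⟨c, a, b, hcZ, ha, hb, hV, ?_⟩
  have hFab : F m a b ≠ 0 := (hV.F_pos hm).ne'
  rw [← H_smul hg (ne_of_gt hcZ) hFab, ← ha, ← hb]
  unfold H
  rw [hFm, g_mul hg hF1.ne' hF2.ne']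

lemma prod_vertex (hg : PM g) (hm : 0 < m) {x y x' y' : ℤ} (h : Vx m x y) (h' : Vx m x' y') :
    ∃ c a b : ℤ, 0 < c ∧ x * x' - 3 * m ^ 2 * y * y' = c * a ∧
      x * y' + y * x' + 3 * m * y * y' = c * b ∧ Vx m a b ∧
        H g m a b = H g m x y * H g m x' y' := by
  refine reduce hg hm h h' ?_ ?_ (F_mul' m x y x' y')
  · have e : x * x' - 3 * m ^ 2 * y * y' = x * x' + 3 * (-(m ^ 2 * y * y')) := by ring
    have h1 := h.2.2
    have h2 := h'.2.2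
    have h3 : (x * x') % 3 = 1 := by rw [Int.mul_emod, h1, h2]; norm_num
    rw [e]; omega
  · have h1 : IsCoprime (x * x') m := h.2.1.mul_left h'.2.1
    have e : x * x' - 3 * m ^ 2 * y * y' = x * x' + m * (-(3 * m * y * y')) := by ring
    rw [e]
    exact IsCoprime.add_mul_left_left h1 _

/-- the action of `a + m b θ` on directions -/
noncomputable def Mo (m a b : ℤ) (X : ℝ) : ℝ :=
  ((a : ℝ) * X - 3 * (m : ℝ) ^ 2 * b) / (b * X + a + 3 * m * b)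

section Mo

variable {a b : ℤ}

lemma Mo_den (hm : 0 < m) (ha : 0 < a) (hb : 0 < b) {X : ℝ} (hX : 0 ≤ X) :
    (0 : ℝ) < b * X + a + 3 * m * b := by
  have h1 : (0 : ℝ) < m := by exact_mod_cast hm
  have h2 : (0 : ℝ) < a := by exact_mod_cast ha
  have h3 : (0 : ℝ) < b := by exact_mod_cast hb
  positivity

lemma Mo_sub (hm : 0 < m) (ha : 0 < a) (hb : 0 < b) {X Z : ℝ} (hX : 0 ≤ X) (hZ : 0 ≤ Z) :
    Mo m a b X - Mo m a b Z = ((a : ℝ) ^ 2 + 3 * m * a * b + 3 * m ^ 2 * b ^ 2) * (X - Z) /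
      ((b * X + a + 3 * m * b) * (b * Z + a + 3 * m * b)) := by
  have h1 := (Mo_den hm ha hb hX).ne'
  have h2 := (Mo_den hm ha hb hZ).ne'
  unfold Mo
  rw [div_sub_div _ _ h1 h2]
  congr 1
  ring

/-- contraction -/
lemma Mo_lip (hm : 0 < m) (ha : 0 < a) (hb : 0 < b) {X Z : ℝ} (hX : 0 ≤ X) (hZ : 0 ≤ Z) :
    |Mo m a b X - Mo m a b Z| ≤ |X - Z| := by
  have h1 := Mo_den hm ha hb hX
  have h2 := Mo_den hm ha hb hZ
  have hm' : (0 : ℝ) < m := by exact_mod_cast hm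
  have ha' : (0 : ℝ) < a := by exact_mod_cast ha
  have hb' : (0 : ℝ) < b := by exact_mod_cast hb
  rw [Mo_sub hm ha hb hX hZ, abs_div, abs_mul, abs_of_pos (mul_pos h1 h2),
    abs_of_pos (by positivity), div_le_iff₀ (mul_pos h1 h2), mul_comm]
  refine mul_le_mul_of_nonneg_left ?_ (abs_nonneg _)
  have e1 : (a : ℝ) + 3 * m * b ≤ b * X + a + 3 * m * b := by
    have := mul_nonneg hb'.le hX; linarith
  have e2 : (a : ℝ) + 3 * m * b ≤ b * Z + a + 3 * m * b := by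
    have := mul_nonneg hb'.le hZ; linarith
  have e3 : (0 : ℝ) ≤ (a : ℝ) + 3 * m * b := by positivity
  have e4 := mul_le_mul e1 e2 e3 h1.le
  have e5 : (a : ℝ) ^ 2 + 3 * m * a * b + 3 * m ^ 2 * b ^ 2 ≤
      ((a : ℝ) + 3 * m * b) * (a + 3 * m * b) := by
    have : (0 : ℝ) ≤ m * a * b := by positivity
    have : (0 : ℝ) ≤ (m : ℝ) ^ 2 * b ^ 2 := by positivity
    nlinarith
  linarith

/-- expansion by at most 2 of the inverse -/
lemma Mo_anti (hm : 0 < m) (ha : 0 < a) (hb : 0 < b) {L : ℤ}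
    (hab : 3 * (3 * m + L) * b ≤ a) {X Z : ℝ} (hX : 0 ≤ X) (hZ : 0 ≤ Z)
    (hXL : X ≤ L) (hZL : Z ≤ L) :
    |X - Z| ≤ 2 * |Mo m a b X - Mo m a b Z| := by
  have h1 := Mo_den hm ha hb hX
  have h2 := Mo_den hm ha hb hZ
  have hm' : (0 : ℝ) < m := by exact_mod_cast hm
  have ha' : (0 : ℝ) < a := by exact_mod_cast ha
  have hb' : (0 : ℝ) < b := by exact_mod_cast hb
  have habR : 3 * (3 * (m : ℝ) + L) * b ≤ a := by exact_mod_cast hab
  rw [Mo_sub hm ha hb hX hZ, abs_div, abs_mul, abs_of_pos (mul_pos h1 h2),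
    abs_of_pos (by positivity : (0 : ℝ) < (a : ℝ) ^ 2 + 3 * m * a * b + 3 * m ^ 2 * b ^ 2),
    ← mul_div_assoc, le_div_iff₀ (mul_pos h1 h2)]
  have e0 : (b * X + a + 3 * m * b) * (b * Z + a + 3 * m * b) ≤
      2 * ((a : ℝ) ^ 2 + 3 * m * a * b + 3 * m ^ 2 * b ^ 2) := by
    have e1 : b * X + a + 3 * m * b ≤ (4 / 3 : ℝ) * a := by
      have : (b : ℝ) * X ≤ b * L := mul_le_mul_of_nonneg_left hXL hb'.le
      nlinarith
    have e2 : b * Z + a + 3 * m * b ≤ (4 / 3 : ℝ) * a := by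
      have : (b : ℝ) * Z ≤ b * L := mul_le_mul_of_nonneg_left hZL hb'.le
      nlinarith
    have e3 := mul_le_mul e1 e2 h2.le (by positivity)
    have : (0 : ℝ) ≤ m * a * b := by positivity
    have : (0 : ℝ) ≤ (m : ℝ) ^ 2 * b ^ 2 := by positivity
    nlinarith
  have := mul_le_mul_of_nonneg_left e0 (abs_nonneg (X - Z))
  linarith

/-- displacement -/
lemma Mo_disp (hm : 0 < m) (ha : 0 < a) (hb : 0 < b) {L : ℤ} {X : ℝ} (hX : 0 ≤ X)
    (hXL : X ≤ L) :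
    Mo m a b X ≤ X ∧ X - Mo m a b X ≤
      b * ((L : ℝ) ^ 2 + 3 * m * L + 3 * m ^ 2) / a := by
  have h1 := Mo_den hm ha hb hX
  have hm' : (0 : ℝ) < m := by exact_mod_cast hm
  have ha' : (0 : ℝ) < a := by exact_mod_cast ha
  have hb' : (0 : ℝ) < b := by exact_mod_cast hb
  have e : X - Mo m a b X = b * (X ^ 2 + 3 * m * X + 3 * m ^ 2) / (b * X + a + 3 * m * b) := by
    unfold Mo
    rw [eq_div_iff h1.ne', sub_mul, div_mul_cancel₀ _ h1.ne']
    ring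
  have hnn : 0 ≤ b * (X ^ 2 + 3 * m * X + 3 * m ^ 2) / (b * X + a + 3 * m * b) := by positivity
  refine ⟨by linarith, ?_⟩
  rw [e]
  have hXX : X ^ 2 ≤ (L : ℝ) ^ 2 := by apply pow_le_pow_left₀ hX hXL
  have hmX : (m : ℝ) * X ≤ m * L := mul_le_mul_of_nonneg_left hXL hm'.le
  have hL0 : (0 : ℝ) ≤ L := hX.trans hXL
  have hnum : b * (X ^ 2 + 3 * m * X + 3 * m ^ 2) ≤
      b * ((L : ℝ) ^ 2 + 3 * m * L + 3 * m ^ 2) := by
    apply mul_le_mul_of_nonneg_left _ hb'.le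
    linarith
  have hden : (a : ℝ) ≤ b * X + a + 3 * m * b := by
    have h2 := mul_nonneg hb'.le hX
    have h3 : (0 : ℝ) ≤ 3 * m * b := by positivity
    linarith
  exact div_le_div₀ (by positivity) hnum ha' hden

lemma Mo_rat (hm : 0 < m) (ha : 0 < a) (hb : 0 < b) {x y : ℤ} (hx : 0 ≤ x) (hy : 0 < y)
    {c p q : ℤ} (hc : 0 < c) (h1 : a * x - 3 * m ^ 2 * b * y = c * p)
    (h2 : a * y + b * x + 3 * m * b * y = c * q) :
    0 < q ∧ Mo m a b ((x : ℝ) / y) = (p : ℝ) / q := by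
  have hq0 : 0 < c * q := by
    rw [← h2]
    have e1 : 0 < a * y := mul_pos ha hy
    have e2 : 0 ≤ b * x := mul_nonneg hb.le hx
    have e3 : 0 ≤ 3 * m * b * y := by positivity
    linarith
  have hq : 0 < q := (mul_pos_iff_of_pos_left hc).1 hq0
  refine ⟨hq, ?_⟩
  have hyR : (y : ℝ) ≠ 0 := by exact_mod_cast hy.ne'
  have hqR : (q : ℝ) ≠ 0 := by exact_mod_cast hq.ne'
  have hcR : (c : ℝ) ≠ 0 := by exact_mod_cast hc.ne'
  have h1R : (a : ℝ) * x - 3 * m ^ 2 * b * y = c * p := by exact_mod_cast h1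
  have h2R : (a : ℝ) * y + b * x + 3 * m * b * y = c * q := by exact_mod_cast h2
  have hxy : (0 : ℝ) ≤ (x : ℝ) / y := by
    have : (0 : ℝ) ≤ x := by exact_mod_cast hx
    have : (0 : ℝ) < y := by exact_mod_cast hy
    positivity
  have hden := (Mo_den hm ha hb hxy).ne'
  unfold Mo
  rw [div_eq_div_iff hden hqR]
  have e1 : ((a : ℝ) * (x / y) - 3 * m ^ 2 * b) * y = c * p := by
    rw [← h1R]; field_simp
  have e2 : ((b : ℝ) * (x / y) + a + 3 * m * b) * y = c * q := by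
    rw [← h2R]; field_simp; ring
  have e3 : (c : ℝ) * y ≠ 0 := mul_ne_zero hcR hyR
  have e4 : (((a : ℝ) * (x / y) - 3 * m ^ 2 * b) * q) * (c * y) =
      (p * ((b : ℝ) * (x / y) + a + 3 * m * b)) * (c * y) := by
    linear_combination (c : ℝ) * q * e1 - (c : ℝ) * p * e2
  exact mul_right_cancel₀ e3 e4

/-- preimages of small sets are small -/
lemma vol_pre (hm : 0 < m) (ha : 0 < a) (hb : 0 < b) {L : ℤ}
    (hab : 3 * (3 * m + L) * b ≤ a) (S : Set ℝ) :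
    volume {X : ℝ | 0 ≤ X ∧ X ≤ L ∧ Mo m a b X ∈ S} ≤ 2 * volume S := by
  set T : Set ℝ := {X : ℝ | 0 ≤ X ∧ X ≤ L ∧ Mo m a b X ∈ S} with hT
  have hinj : Set.InjOn (Mo m a b) T := by
    intro X hX Z hZ h
    have h1 := Mo_anti hm ha hb hab hX.1 hZ.1 hX.2.1 hZ.2.1
    rw [h, sub_self, abs_zero, mul_zero] at h1
    have := abs_nonneg (X - Z)
    exact sub_eq_zero.1 (abs_eq_zero.1 (le_antisymm h1 this))
  set f := Function.invFunOn (Mo m a b) T with hf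
  have hfl : ∀ X ∈ T, f (Mo m a b X) = X := fun X hX => hinj.leftInvOn_invFunOn hX
  have hlip : LipschitzOnWith 2 f (Mo m a b '' T) := by
    apply LipschitzOnWith.of_dist_le_mul
    rintro _ ⟨X, hX, rfl⟩ _ ⟨Z, hZ, rfl⟩
    rw [hfl X hX, hfl Z hZ, Real.dist_eq, Real.dist_eq]
    simpa using Mo_anti hm ha hb hab hX.1 hZ.1 hX.2.1 hZ.2.1
  have h1 := hlip.hausdorffMeasure_image_le (d := 1) zero_le_one
  rw [hausdorffMeasure_real] at h1
  have h2 : T ⊆ f '' (Mo m a b '' T) := by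
    intro X hX
    exact ⟨Mo m a b X, ⟨X, hX, rfl⟩, hfl X hX⟩
  have h3 : Mo m a b '' T ⊆ S := by
    rintro _ ⟨X, hX, rfl⟩
    exact hX.2.2
  calc volume T ≤ volume (f '' (Mo m a b '' T)) := measure_mono h2
    _ ≤ _ := h1
    _ ≤ 2 * volume S := by
      rw [ENNReal.rpow_one]
      exact mul_le_mul' (le_refl _) (measure_mono h3)

end Mo

/-! ### the nodes at a fixed scale have comparable endpoints -/

/-- points whose node at scale `Y` is unbalanced -/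
noncomputable def Rt (a0 Y D : ℤ) : Set ℝ :=
  nearRat a0 (Finset.Icc 1 (Y / D)) (fun y => 2 / ((y : ℝ) * Y))

lemma vol_Rt (a0 : ℤ) {Y D : ℤ} (hY : 1 ≤ Y) (hD : 1 ≤ D) :
    volume (Rt a0 Y D) ≤ ENNReal.ofReal (8 / D) := by
  have hYR : (1 : ℝ) ≤ Y := by exact_mod_cast hY
  have hDR : (1 : ℝ) ≤ D := by exact_mod_cast hD
  refine (vol_near a0 _ _ (fun y hy => (Finset.mem_Icc.1 hy).1) (fun y hy => ?_)).trans
    (ENNReal.ofReal_le_ofReal ?_)
  · have h1 : (1 : ℝ) ≤ y := by exact_mod_cast (Finset.mem_Icc.1 hy).1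
    positivity
  · have h1 : ∀ y ∈ Finset.Icc (1 : ℤ) (Y / D),
        ((y : ℝ) + 1) * (2 * (2 / ((y : ℝ) * Y))) ≤ 8 / Y := by
      intro y hy
      have h1 : (1 : ℝ) ≤ y := by exact_mod_cast (Finset.mem_Icc.1 hy).1
      have e : ((y : ℝ) + 1) * (2 * (2 / ((y : ℝ) * Y))) = (4 * ((y : ℝ) + 1)) / (y * Y) := by ring
      rw [e, div_le_div_iff₀ (by positivity) (by positivity)]
      nlinarith
    refine (Finset.sum_le_sum h1).trans ?_
    rw [Finset.sum_const, Int.card_Icc, nsmul_eq_mul]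
    have h2 : 0 ≤ Y / D := Int.ediv_nonneg (by omega) (by omega)
    have h3 : ((((Y / D + 1 - 1).toNat : ℕ)) : ℝ) = ((Y / D : ℤ) : ℝ) := by
      have h4 : (((Y / D + 1 - 1).toNat : ℕ) : ℤ) = Y / D := by
        rw [Int.toNat_of_nonneg (by omega)]; ring
      exact_mod_cast h4
    have h5 : ((Y / D : ℤ) : ℝ) * D ≤ Y := by
      exact_mod_cast Int.ediv_mul_le Y (by omega : D ≠ 0)
    rw [h3, mul_div_assoc', div_le_div_iff₀ (by positivity) (by positivity)]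
    nlinarith

lemma ratio_good {a0 Y D : ℤ} {X : ℝ} (hY : 1 ≤ Y) (hD : 2 ≤ D) (h0 : (a0 : ℝ) ≤ X)
    (h1 : X < a0 + 1) (hR : X ∉ Rt a0 Y D) :
    Y ≤ D * (nodeAt a0 X Y).yu ∧ Y ≤ D * (nodeAt a0 X Y).yv := by
  set J := nodeAt a0 X Y with hJ
  have hok : J.Ok a0 := chain_ok a0 X _
  have hmem : J.Mem X := chain_mem h0 h1 _
  have hu := hok.hu
  have hv := hok.hv
  have hsz : Y ≤ J.yu + J.yv := nodeAt_ge a0 X Y
  have huR : (1 : ℝ) ≤ J.yu := by exact_mod_cast hu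
  have hvR : (1 : ℝ) ≤ J.yv := by exact_mod_cast hv
  have hYR : (1 : ℝ) ≤ Y := by exact_mod_cast hY
  have hszR : (Y : ℝ) ≤ J.yu + J.yv := by exact_mod_cast hsz
  have hdet : (J.xv : ℝ) * J.yu - J.xu * J.yv = 1 := by exact_mod_cast hok.det
  constructor
  · by_contra hlt
    push Not at hlt
    apply hR
    have hmemS : J.yu ∈ Finset.Icc (1 : ℤ) (Y / D) := by
      rw [Finset.mem_Icc]
      refine ⟨hu, ?_⟩
      rw [Int.le_ediv_iff_mul_le (by omega)]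
      linarith
    have h2u : 2 * (J.yu : ℝ) ≤ Y := by
      have : 2 * J.yu ≤ D * J.yu := mul_le_mul_of_nonneg_right hD (by omega)
      exact_mod_cast (by linarith : 2 * J.yu ≤ Y)
    refine mem_nearRat hmemS hok.lo hok.hi ?_
    have hdu : |X - (J.xu : ℝ) / J.yu| ≤ 1 / ((J.yu : ℝ) * J.yv) := by
      refine Node.dist_le hok hmem.1 hmem.2.le ?_ ?_
      · rw [div_mul_cancel₀ _ (by linarith)]
      · rw [div_mul_eq_mul_div, div_le_iff₀ (by linarith)]; linarith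
    refine hdu.trans ?_
    rw [div_le_div_iff₀ (by positivity) (by positivity)]
    nlinarith
  · by_contra hlt
    push Not at hlt
    apply hR
    have hmemS : J.yv ∈ Finset.Icc (1 : ℤ) (Y / D) := by
      rw [Finset.mem_Icc]
      refine ⟨hv, ?_⟩
      rw [Int.le_ediv_iff_mul_le (by omega)]
      linarith
    have h2u : 2 * (J.yv : ℝ) ≤ Y := by
      have : 2 * J.yv ≤ D * J.yv := mul_le_mul_of_nonneg_right hD (by omega)
      exact_mod_cast (by linarith : 2 * J.yv ≤ Y)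
    refine mem_nearRat hmemS hok.lo' hok.hi' ?_
    have hdv : |X - (J.xv : ℝ) / J.yv| ≤ 1 / ((J.yu : ℝ) * J.yv) := by
      refine Node.dist_le hok hmem.1 hmem.2.le ?_ ?_
      · rw [div_mul_eq_mul_div, le_div_iff₀ (by linarith)]; linarith
      · rw [div_mul_cancel₀ _ (by linarith)]
    refine hdv.trans ?_
    rw [div_le_div_iff₀ (by positivity) (by positivity)]
    nlinarith

/-- width of the node at scale `Y` -/
lemma width_at {a0 Y D : ℤ} {X : ℝ} (hY : 1 ≤ Y) (hD : 2 ≤ D) (h0 : (a0 : ℝ) ≤ X)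
    (h1 : X < a0 + 1) (hR : X ∉ Rt a0 Y D) :
    1 / (((nodeAt a0 X Y).yu : ℝ) * (nodeAt a0 X Y).yv) ≤ (D : ℝ) ^ 2 / (Y : ℝ) ^ 2 := by
  obtain ⟨h2, h3⟩ := ratio_good hY hD h0 h1 hR
  have hok : (nodeAt a0 X Y).Ok a0 := chain_ok a0 X _
  have hu := hok.hu
  have hv := hok.hv
  have huR : (1 : ℝ) ≤ (nodeAt a0 X Y).yu := by exact_mod_cast hu
  have hvR : (1 : ℝ) ≤ (nodeAt a0 X Y).yv := by exact_mod_cast hv
  have hYR : (1 : ℝ) ≤ Y := by exact_mod_cast hY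
  have h2R : (Y : ℝ) ≤ D * (nodeAt a0 X Y).yu := by exact_mod_cast h2
  have h3R : (Y : ℝ) ≤ D * (nodeAt a0 X Y).yv := by exact_mod_cast h3
  rw [div_le_div_iff₀ (by positivity) (by positivity), one_mul]
  calc (Y : ℝ) ^ 2 = Y * Y := by ring
    _ ≤ (D * (nodeAt a0 X Y).yu) * (D * (nodeAt a0 X Y).yv) :=
        mul_le_mul h2R h3R (by linarith) (by linarith)
    _ = _ := by ring

/-! ### the theorem -/

lemma exists_level (n2 : ℤ) (T : ℝ) (D : ℤ) (k : ℕ) : ∃ i : ℕ, 1 ≤ i ∧ n2 ≤ 2 ^ i ∧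
    (2 * (D : ℝ) ^ 2) ≤ ((2 : ℝ) ^ i) ^ 2 ∧ T ≤ ((i + k : ℕ) : ℝ) := by
  obtain ⟨N, hN⟩ : ∃ N : ℕ, N = n2.toNat + ⌈T⌉₊ + (2 * D ^ 2).toNat + 1 := ⟨_, rfl⟩
  have h1 : N < 2 ^ N := Nat.lt_two_pow_self
  have h1Z : (N : ℤ) < 2 ^ N := by exact_mod_cast h1
  refine ⟨N, by omega, ?_, ?_, ?_⟩
  · have := Int.self_le_toNat n2
    omega
  · have h2 := Int.self_le_toNat (2 * D ^ 2)
    have h3 : 2 * D ^ 2 ≤ (2 : ℤ) ^ N := by omega
    have h3R : 2 * (D : ℝ) ^ 2 ≤ (2 : ℝ) ^ N := by exact_mod_cast h3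
    have h4 : (1 : ℝ) ≤ 2 ^ N := one_le_pow₀ (by norm_num)
    calc 2 * (D : ℝ) ^ 2 ≤ 2 ^ N := h3R
      _ = 2 ^ N * 1 := by ring
      _ ≤ 2 ^ N * 2 ^ N := mul_le_mul_of_nonneg_left h4 (by positivity)
      _ = _ := by ring
  · have h2 := Nat.le_ceil T
    have h3 : ((⌈T⌉₊ : ℕ) : ℝ) ≤ ((N + k : ℕ) : ℝ) := by exact_mod_cast (by omega)
    linarith

lemma choose_point {a0 : ℝ} {A1 A2 A3 A4 A5 A6 : Set ℝ}
    (h1 : volume A1 ≤ ENNReal.ofReal (1 / 100)) (h2 : volume A2 ≤ ENNReal.ofReal (2 / 100))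
    (h3 : volume A3 ≤ ENNReal.ofReal (1 / 100)) (h4 : volume A4 ≤ ENNReal.ofReal (1 / 100))
    (h5 : volume A5 ≤ ENNReal.ofReal (2 / 100)) (h6 : volume A6 ≤ ENNReal.ofReal (2 / 100)) :
    ∃ X, a0 ≤ X ∧ X < a0 + 1 ∧ X ∉ A1 ∧ X ∉ A2 ∧ X ∉ A3 ∧ X ∉ A4 ∧ X ∉ A5 ∧ X ∉ A6 := by
  by_contra hcon
  push Not at hcon
  have hsub : Set.Ico (a0 : ℝ) (a0 + 1) ⊆ (A1 ∪ A2) ∪ (A3 ∪ A4) ∪ (A5 ∪ A6) := by
    intro X hX
    by_contra hXU
    simp only [Set.mem_union, not_or] at hXU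
    obtain ⟨⟨⟨x1, x2⟩, x3, x4⟩, x5, x6⟩ := hXU
    exact x6 (hcon X hX.1 hX.2 x1 x2 x3 x4 x5)
  have h7 : volume (Set.Ico (a0 : ℝ) (a0 + 1)) ≤
      volume ((A1 ∪ A2) ∪ (A3 ∪ A4) ∪ (A5 ∪ A6)) := measure_mono hsub
  rw [Real.volume_Ico, show (a0 : ℝ) + 1 - a0 = 1 by ring] at h7
  have h8 : volume ((A1 ∪ A2) ∪ (A3 ∪ A4) ∪ (A5 ∪ A6)) ≤
      ((ENNReal.ofReal (1 / 100) + ENNReal.ofReal (2 / 100)) +
        (ENNReal.ofReal (1 / 100) + ENNReal.ofReal (1 / 100))) +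
        (ENNReal.ofReal (2 / 100) + ENNReal.ofReal (2 / 100)) := by
    refine (measure_union_le _ _).trans (add_le_add ((measure_union_le _ _).trans
      (add_le_add ((measure_union_le _ _).trans (add_le_add h1 h2))
        ((measure_union_le _ _).trans (add_le_add h3 h4))))
      ((measure_union_le _ _).trans (add_le_add h5 h6)))
  have h9 := h7.trans h8
  rw [← ENNReal.ofReal_add (by norm_num) (by norm_num),
    ← ENNReal.ofReal_add (by norm_num) (by norm_num),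
    ← ENNReal.ofReal_add (by norm_num) (by norm_num),
    ← ENNReal.ofReal_add (by norm_num) (by norm_num),
    ← ENNReal.ofReal_add (by norm_num) (by norm_num),
    ENNReal.ofReal_le_ofReal_iff (by norm_num)] at h9
  norm_num at h9

lemma vol_N4 (a0 : ℤ) {n2 : ℤ} (hn2 : 2 ≤ n2) {δ : ℝ}
    (hδ : δ = 1 / (100 * (2 * ((2 * n2) * (2 * n2 + 1))))) :
    volume (nearRat a0 (Finset.Icc 1 (2 * n2)) (fun _ => δ)) ≤ ENNReal.ofReal (1 / 100) := by
  have hn2R : (2 : ℝ) ≤ n2 := by exact_mod_cast hn2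
  have hδ0 : 0 < δ := by rw [hδ]; positivity
  refine (vol_near a0 _ _ (fun y hy => (Finset.mem_Icc.1 hy).1) (fun _ _ => hδ0.le)).trans
    (ENNReal.ofReal_le_ofReal ?_)
  have h1 : ∀ y ∈ Finset.Icc (1 : ℤ) (2 * n2), ((y : ℝ) + 1) * (2 * δ) ≤
      (2 * n2 + 1) * (2 * δ) := by
    intro y hy
    have h3 := (Finset.mem_Icc.1 hy).2
    have h4 : (y : ℝ) ≤ 2 * n2 := by exact_mod_cast h3
    exact mul_le_mul_of_nonneg_right (by linarith) (by positivity)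
  refine (Finset.sum_le_sum h1).trans ?_
  rw [Finset.sum_const, Int.card_Icc, nsmul_eq_mul]
  have h9 : ((((2 * n2 + 1 - 1).toNat : ℕ)) : ℝ) = 2 * n2 := by
    have h10 : (((2 * n2 + 1 - 1).toNat : ℕ) : ℤ) = 2 * n2 := by
      rw [Int.toNat_of_nonneg (by omega)]; ring
    exact_mod_cast h10
  rw [h9, hδ]
  apply le_of_eq
  field_simp

/-- the key step: no odd vertex close to the real axis -/
lemma no_odd (hg : PM g) (hm : 0 < m) (hb : BadDirs g m) {a0 L n2 : ℤ} (ha0 : a0 = 2 * m + 1)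
    (hL : L = 2 * m + 2) (hn2 : 2 ≤ n2) {E : Set ℝ} (hE : volume E ≤ ENNReal.ofReal (1 / 100))
    (hconst : ∀ X : ℝ, (a0 : ℝ) ≤ X → X < (a0 : ℝ) + 1 → X ∉ E → ∀ Y : ℤ, n2 ≤ Y →
      sg g m (nodeAt a0 X Y) = sg g m (nodeAt a0 X n2))
    {δ : ℝ} (hδ : δ = 1 / (100 * (2 * ((2 * n2) * (2 * n2 + 1)))))
    {a b : ℤ} (hb0 : 0 < b) (ha0' : 0 < a) (hV : Vx m a b)
    (hab1 : 3 * (3 * m + L) * b ≤ a)
    (hab2 : b * ((L : ℝ) ^ 2 + 3 * m * L + 3 * m ^ 2) / a ≤ δ) (hodd : H g m a b = -1) :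
    False := by
  have hmR : (0 : ℝ) < m := by exact_mod_cast hm
  have ha0R : (a0 : ℝ) = 2 * m + 1 := by rw [ha0]; push_cast; ring
  have hLR : (L : ℝ) = 2 * m + 2 := by rw [hL]; push_cast; ring
  have hn2R : (2 : ℝ) ≤ n2 := by exact_mod_cast hn2
  have hδ0 : 0 < δ := by rw [hδ]; positivity
  have hvol4 := vol_N4 a0 hn2 hδ
  have hbR : (0 : ℝ) < b := by exact_mod_cast hb0
  have haR : (0 : ℝ) < a := by exact_mod_cast ha0'
  obtain ⟨B, hB⟩ : ∃ B : ℤ, B = (Bm m : ℤ) := ⟨_, rfl⟩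
  have hB1 : 1 ≤ B := by have := Bm_pos hm; rw [hB]; exact_mod_cast this
  have hK0 : 1 ≤ a + b * L + 3 * m * b := by
    have h1 : 0 < b * L := mul_pos hb0 (by omega)
    have h2 : 0 < 3 * m * b := by positivity
    omega
  obtain ⟨K0, hK0d⟩ : ∃ K0 : ℤ, K0 = a + b * L + 3 * m * b := ⟨_, rfl⟩
  rw [← hK0d] at hK0
  obtain ⟨K1, hK1⟩ : ∃ K1 : ℤ, K1 = K0 * (2 * B) := ⟨_, rfl⟩
  have hK1p : 2 * B ≤ K1 := by rw [hK1]; exact le_mul_of_one_le_left (by omega) hK0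
  obtain ⟨k1, hk1K⟩ : ∃ k1 : ℕ, K1 ≤ 2 ^ k1 := by
    refine ⟨K1.toNat, ?_⟩
    have h1 := Int.self_le_toNat K1
    have h2 : K1.toNat < 2 ^ K1.toNat := Nat.lt_two_pow_self
    have h3 : ((K1.toNat : ℕ) : ℤ) < 2 ^ K1.toNat := by exact_mod_cast h2
    omega
  obtain ⟨Q, hQ⟩ : ∃ Q : ℤ, Q = 2400 := ⟨_, rfl⟩
  have hQ2 : 2 ≤ Q := by rw [hQ]; norm_num
  obtain ⟨C, hC, hD⟩ := hb (2 * m + 3).toNat (4 * B * K1 * Q ^ 2) 1
  have hLc : (((2 * m + 3).toNat : ℕ) : ℤ) = 2 * m + 3 := Int.toNat_of_nonneg (by omega)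
  -- the scale
  obtain ⟨i, hi1, hYn2, hYbig, hiT⟩ := exists_level n2 (200 * C * 4 ^ k1 * (Q : ℝ) ^ 2) Q k1
  obtain ⟨D, hDc, hDp⟩ := hD (i + k1) (by omega)
  obtain ⟨Y, hY⟩ : ∃ Y : ℤ, Y = 2 ^ i := ⟨_, rfl⟩
  rw [← hY] at hYn2
  have hY2 : 2 ≤ Y := hn2.trans hYn2
  have hY1 : 1 ≤ Y := by omega
  have hYR : (0 : ℝ) < Y := by exact_mod_cast (by omega : 0 < Y)
  have hYi : (Y : ℝ) = 2 ^ i := by rw [hY]; push_cast; rfl
  have hYR2 : (Y : ℝ) ^ 2 = 4 ^ i := by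
    rw [hYi, ← pow_mul, mul_comm, pow_mul]; norm_num
  rw [← hYi] at hYbig
  have hi0 : (0 : ℝ) < ((i + k1 : ℕ) : ℝ) := by exact_mod_cast (by omega : 0 < i + k1)
  obtain ⟨w, hw⟩ : ∃ w : ℝ, w = (Q : ℝ) ^ 2 / (Y : ℝ) ^ 2 := ⟨_, rfl⟩
  have hvolW : volume (nearSet D w) ≤ ENNReal.ofReal (1 / 100) := by
    refine (vol_nearSet _ _).trans (ENNReal.ofReal_le_ofReal ?_)
    rw [pow_one] at hDc
    refine (mul_le_mul_of_nonneg_right hDc (by rw [hw]; positivity)).trans ?_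
    have h2 : C * 4 ^ (i + k1) / ((i + k1 : ℕ) : ℝ) * (2 * w) =
        (2 * C * 4 ^ k1 * (Q : ℝ) ^ 2) / ((i + k1 : ℕ) : ℝ) := by
      rw [hw, hYR2, pow_add]
      field_simp
    rw [h2, div_le_iff₀ hi0]
    linarith only [hiT]
  have hvolR : volume (Rt a0 Y Q) ≤ ENNReal.ofReal (1 / 100) := by
    refine (vol_Rt a0 hY1 (by omega)).trans (ENNReal.ofReal_le_ofReal ?_)
    rw [hQ]
    norm_num
  -- preimages
  have hvT : ∀ S : Set ℝ, volume S ≤ ENNReal.ofReal (1 / 100) →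
      volume {X : ℝ | 0 ≤ X ∧ X ≤ L ∧ Mo m a b X ∈ S} ≤ ENNReal.ofReal (2 / 100) := by
    intro S hS
    refine (vol_pre hm ha0' hb0 hab1 S).trans ?_
    refine (mul_le_mul' (le_refl _) hS).trans (le_of_eq ?_)
    rw [show (2 : ENNReal) = ENNReal.ofReal 2 by simp, ← ENNReal.ofReal_mul (by norm_num)]
    norm_num
  -- choose `X`
  obtain ⟨X, hX0, hX1, hXE, hXTE, hXN4, hXR, hXTR, hXTW⟩ :=
    choose_point (a0 := a0) hE (hvT E hE) hvol4 hvolR (hvT _ hvolR) (hvT _ hvolW)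
  have hXnn : 0 ≤ X := by rw [ha0R] at hX0; linarith only [hX0, hmR]
  have hXL : X ≤ L := by rw [hLR]; rw [ha0R] at hX1; linarith only [hX1]
  obtain ⟨X', hX'⟩ : ∃ X' : ℝ, X' = Mo m a b X := ⟨_, rfl⟩
  have hX'E : X' ∉ E := fun h => hXTE ⟨hXnn, hXL, by rwa [← hX']⟩
  have hX'R : X' ∉ Rt a0 Y Q := fun h => hXTR ⟨hXnn, hXL, by rwa [← hX']⟩
  have hX'W : X' ∉ nearSet D w := fun h => hXTW ⟨hXnn, hXL, by rwa [← hX']⟩
  obtain ⟨hdisp1, hdisp2⟩ := Mo_disp hm ha0' hb0 hXnn hXL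
  rw [← hX'] at hdisp1 hdisp2
  have hdisp3 : X - X' ≤ δ := hdisp2.trans hab2
  clear hXTE hXTR hXTW hvT hvolR hvolW hvol4 hE
  -- `X'` is in the interval
  have hXa : (a0 : ℝ) + δ < X := by
    by_contra hlt
    push Not at hlt
    apply hXN4
    refine mem_nearRat (x := a0) (y := 1) (Finset.mem_Icc.2 ⟨le_refl _, by omega⟩) (by simp)
      (by simp) ?_
    rw [abs_le]
    constructor
    · push_cast; rw [div_one]; linarith only [hX0, hδ0]
    · push_cast; rw [div_one]; linarith only [hlt]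
  have hX'0 : (a0 : ℝ) ≤ X' := by linarith only [hXa, hdisp3]
  have hX'1 : X' < a0 + 1 := by linarith only [hX1, hdisp1]
  -- same node at scale `n2`
  have hsame : nodeAt a0 X' n2 = nodeAt a0 X n2 := by
    apply nodeAt_congr
    have hok : (nodeAt a0 X n2).Ok a0 := chain_ok a0 X _
    have hmem : (nodeAt a0 X n2).Mem X := chain_mem hX0 hX1 _
    have hu := hok.hu
    have hv := hok.hv
    have huR : (1 : ℝ) ≤ (nodeAt a0 X n2).yu := by exact_mod_cast hu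
    have hvR : (1 : ℝ) ≤ (nodeAt a0 X n2).yv := by exact_mod_cast hv
    constructor
    · by_contra hlt
      push Not at hlt
      apply hXN4
      have hlt' := nodeAt_lt a0 X hn2
      have hszd : (nodeAt a0 X n2).sz = (nodeAt a0 X n2).yu + (nodeAt a0 X n2).yv := rfl
      refine mem_nearRat (Finset.mem_Icc.2 ⟨hu, by omega⟩) hok.lo hok.hi ?_
      have h1 : ((nodeAt a0 X n2).xu : ℝ) / (nodeAt a0 X n2).yu ≤ X := by
        rw [div_le_iff₀ (by linarith only [huR])]; exact hmem.1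
      have h2 : X' ≤ ((nodeAt a0 X n2).xu : ℝ) / (nodeAt a0 X n2).yu := by
        rw [le_div_iff₀ (by linarith only [huR])]; exact hlt.le
      rw [abs_of_nonneg (by linarith only [h1])]
      linarith only [h2, hdisp3]
    · have h1 := hmem.2
      have h2 : X' * (nodeAt a0 X n2).yv ≤ X * (nodeAt a0 X n2).yv :=
        mul_le_mul_of_nonneg_right hdisp1 (by linarith only [hvR])
      linarith only [h1, h2]
  -- signs
  obtain ⟨J, hJ⟩ : ∃ J, J = nodeAt a0 X Y := ⟨_, rfl⟩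
  obtain ⟨J', hJ'⟩ : ∃ J', J' = nodeAt a0 X' Y := ⟨_, rfl⟩
  have hs1 : sg g m J = sg g m (nodeAt a0 X n2) := by
    rw [hJ]; exact hconst X hX0 hX1 hXE Y hYn2
  have hs2 : sg g m J' = sg g m (nodeAt a0 X' n2) := by
    rw [hJ']; exact hconst X' hX'0 hX'1 hX'E Y hYn2
  have hs : sg g m J' = sg g m J := by rw [hs1, hs2, hsame]
  have hok : J.Ok a0 := by rw [hJ]; exact chain_ok a0 X _
  have hok' : J'.Ok a0 := by rw [hJ']; exact chain_ok a0 X' _
  have hmem : J.Mem X := by rw [hJ]; exact chain_mem hX0 hX1 _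
  have hmem' : J'.Mem X' := by rw [hJ']; exact chain_mem hX'0 hX'1 _
  have hw1 := width_at hY1 hQ2 hX0 hX1 hXR
  have hw2 := width_at hY1 hQ2 hX'0 hX'1 hX'R
  rw [← hJ, ← hw] at hw1
  rw [← hJ', ← hw] at hw2
  have hsz : J.sz < 2 * Y := by rw [hJ]; exact nodeAt_lt a0 X hY2
  have hsz' : J'.sz < 2 * Y := by rw [hJ']; exact nodeAt_lt a0 X' hY2
  clear hconst hsame hs1 hs2
  -- the vertices
  have hok2 : J.Ok (2 * m + 1) := by rw [← ha0]; exact hok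
  have hok2' : J'.Ok (2 * m + 1) := by rw [← ha0]; exact hok'
  have hvr := r_vx hm hok
  have hvr' := r_vx hm hok'
  have hry := ry_pos (m := m) hok
  have hry' := ry_pos (m := m) hok'
  have hryR : (0 : ℝ) < ry m J := by exact_mod_cast (by omega : 0 < ry m J)
  have hryR' : (0 : ℝ) < ry m J' := by exact_mod_cast (by omega : 0 < ry m J')
  have hcone := cone (m := m) hok2
  have hcone' := cone (m := m) hok2'
  have hrx0 : 0 ≤ rx m J := by
    have : 0 ≤ 2 * m * ry m J := mul_nonneg (by omega) (by omega)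
    linarith only [this, hcone.1]
  obtain ⟨c, p, q, hc, e1, e2, hVpq, hHpq⟩ := prod_vertex hg hm hV hvr
  have e2' : a * ry m J + b * rx m J + 3 * m * b * ry m J = c * q := e2
  obtain ⟨hq, hrat⟩ := Mo_rat hm ha0' hb0 hrx0 (by omega : 0 < ry m J) hc e1 e2'
  have hqR : (0 : ℝ) < q := by exact_mod_cast hq
  -- sizes
  have hryle : ry m J ≤ 2 * B * Y := by
    have h1 := ry_le hm hok
    rw [← hB] at h1
    have h2 : B * J.sz ≤ B * (2 * Y) := mul_le_mul_of_nonneg_left hsz.le (by omega)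
    linarith only [h1, h2]
  have hryle' : ry m J' ≤ 2 * B * Y := by
    have h1 := ry_le hm hok'
    rw [← hB] at h1
    have h2 : B * J'.sz ≤ B * (2 * Y) := mul_le_mul_of_nonneg_left hsz'.le (by omega)
    linarith only [h1, h2]
  have hqle : q ≤ K1 * Y := by
    have h1 : q ≤ c * q := le_mul_of_one_le_left hq.le (by omega)
    have h2 : c * q ≤ K0 * ry m J := by
      rw [← e2', hK0d, hL]
      have : b * rx m J ≤ b * ((2 * m + 2) * ry m J) :=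
        mul_le_mul_of_nonneg_left hcone.2 hb0.le
      linarith only [this]
    have h3 : K0 * ry m J ≤ K0 * (2 * B * Y) :=
      mul_le_mul_of_nonneg_left hryle (by omega)
    have h4 : K0 * (2 * B * Y) = K1 * Y := by rw [hK1]; ring
    linarith only [h1, h2, h3, h4]
  have h2ik : (2 : ℤ) ^ (i + k1) = Y * 2 ^ k1 := by rw [hY, pow_add]
  have hK1Y : K1 * Y ≤ 2 ^ (i + k1) := by
    rw [h2ik]
    have : K1 * Y ≤ 2 ^ k1 * Y := mul_le_mul_of_nonneg_right hk1K (by omega)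
    linarith only [this]
  have hqle2 : q ≤ 2 ^ (i + k1) := hqle.trans hK1Y
  have hryle2 : ry m J' ≤ 2 ^ (i + k1) := by
    have h1 : 2 * B * Y ≤ K1 * Y := mul_le_mul_of_nonneg_right hK1p (by omega)
    exact hryle'.trans (h1.trans hK1Y)
  -- distances
  have hd1 : |X - (rx m J : ℝ) / ry m J| ≤ w := (r_near hok hmem).trans hw1
  have hd2 : |X' - (rx m J' : ℝ) / ry m J'| ≤ w := (r_near hok' hmem').trans hw2
  have hxyn : (0 : ℝ) ≤ (rx m J : ℝ) / ry m J := by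
    have : (0 : ℝ) ≤ rx m J := by exact_mod_cast hrx0
    exact div_nonneg this hryR.le
  have hd3 : |X' - (p : ℝ) / q| ≤ w := by
    rw [← hrat, hX']
    exact (Mo_lip hm ha0' hb0 hXnn hxyn).trans hd1
  have hhalf : w ≤ 1 / 2 := by
    rw [hw, div_le_div_iff₀ (by positivity) (by norm_num)]
    linarith only [hYbig]
  have hpq1 : 2 * m * q ≤ p := by
    have h1 := (abs_le.1 hd3).2
    have h2 : (2 * m : ℝ) ≤ (p : ℝ) / q := by
      rw [ha0R] at hX'0; linarith only [hX'0, h1, hhalf]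
    rw [le_div_iff₀ hqR] at h2
    exact_mod_cast h2
  have hpq2 : p ≤ (2 * m + 3) * q := by
    have h1 := (abs_le.1 hd3).1
    have h2 : (p : ℝ) / q ≤ 2 * m + 3 := by
      rw [ha0R] at hX'1; linarith only [hX'1, h1, hhalf]
    rw [div_le_iff₀ hqR] at h2
    exact_mod_cast h2
  have hcone3 : rx m J' ≤ (2 * m + 3) * ry m J' := by
    have := hcone'.2
    linarith only [this, hry']
  -- the determinant
  have hdet : |q * rx m J' - p * ry m J'| ≤ 4 * B * K1 * Q ^ 2 := by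
    have h1 : |(rx m J' : ℝ) / ry m J' - (p : ℝ) / q| ≤ 2 * w := by
      have h3 : (rx m J' : ℝ) / ry m J' - (p : ℝ) / q =
          (X' - (p : ℝ) / q) - (X' - (rx m J' : ℝ) / ry m J') := by ring
      rw [h3]
      refine (abs_sub _ _).trans ?_
      linarith only [hd2, hd3]
    have h2 : ((q * rx m J' - p * ry m J' : ℤ) : ℝ) =
        (q * ry m J') * ((rx m J' : ℝ) / ry m J' - (p : ℝ) / q) := by
      push_cast
      field_simp
    have h4 : |((q * rx m J' - p * ry m J' : ℤ) : ℝ)| ≤ 4 * B * K1 * Q ^ 2 := by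
      rw [h2, abs_mul, abs_of_pos (mul_pos hqR hryR')]
      have h5 : (q : ℝ) ≤ K1 * Y := by exact_mod_cast hqle
      have h6 : (ry m J' : ℝ) ≤ 2 * B * Y := by exact_mod_cast hryle'
      have h7 : (q : ℝ) * ry m J' ≤ (K1 * Y) * (2 * B * Y) :=
        mul_le_mul h5 h6 hryR'.le (hqR.le.trans h5)
      calc (q : ℝ) * ry m J' * |(rx m J' : ℝ) / ry m J' - (p : ℝ) / q|
          ≤ (K1 * Y) * (2 * B * Y) * (2 * w) :=
            mul_le_mul h7 h1 (abs_nonneg _) ((mul_pos hqR hryR').le.trans h7)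
        _ = 4 * B * K1 * Q ^ 2 := by rw [hw]; field_simp; ring
    exact_mod_cast h4
  -- equality of signs
  have hHeq : H g m p q = H g m (rx m J') (ry m J') := by
    by_contra hne
    have hdisj := hDp p q (rx m J') (ry m J') hq hqle2 hpq1
      (by rw [hLc]; exact hpq2) (by omega) hryle2 hcone'.1 (by rw [hLc]; exact hcone3)
      hVpq hvr' hdet hne
    rcases hdisj with h | h
    · exact hX'W (mem_nearSet h hd3)
    · exact hX'W (mem_nearSet h hd2)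
  have hs' : H g m (rx m J') (ry m J') = H g m (rx m J) (ry m J) := hs
  rw [hHpq, hodd, hs'] at hHeq
  rcases H_val hg (hvr.F_pos hm).ne' with h | h <;> rw [h] at hHeq <;> norm_num at hHeq

theorem even_near_of_badDirs (hg : PM g) (hm : 0 < m) (hb : BadDirs g m) :
    ∃ C : ℤ, 0 < C ∧ ∀ a b : ℤ, 0 < b → C * b ≤ a → Vx m a b → H g m a b = 1 := by
  obtain ⟨a0, ha0⟩ : ∃ a0 : ℤ, a0 = 2 * m + 1 := ⟨_, rfl⟩
  obtain ⟨L, hL⟩ : ∃ L : ℤ, L = 2 * m + 2 := ⟨_, rfl⟩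
  have hmR : (0 : ℝ) < m := by exact_mod_cast hm
  have hLR : (L : ℝ) = 2 * m + 2 := by rw [hL]; push_cast; ring
  obtain ⟨n2, hn2, E, hE, hconst⟩ := exc' hm hb (ε := 1 / 100) (by norm_num)
  rw [← ha0] at hconst
  have hn2R : (2 : ℝ) ≤ n2 := by exact_mod_cast hn2
  obtain ⟨δ, hδ⟩ : ∃ δ : ℝ, δ = 1 / (100 * (2 * ((2 * n2) * (2 * n2 + 1)))) := ⟨_, rfl⟩
  have hδ0 : 0 < δ := by rw [hδ]; positivity
  -- the constant
  obtain ⟨κ0, hκ0⟩ : ∃ κ0 : ℝ, κ0 = (L : ℝ) ^ 2 + 3 * m * L + 3 * m ^ 2 := ⟨_, rfl⟩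
  have hκ0p : 0 < κ0 := by rw [hκ0, hLR]; positivity
  obtain ⟨C0, hC0⟩ : ∃ C0 : ℤ, C0 = 3 * (3 * m + L) + ⌈κ0 / δ⌉ := ⟨_, rfl⟩
  have hceil : 0 ≤ ⌈κ0 / δ⌉ := Int.ceil_nonneg (by positivity)
  have hC0p : 0 < C0 := by rw [hC0]; omega
  refine ⟨C0, hC0p, fun a b hb0 hab hV => ?_⟩
  have hbR : (0 : ℝ) < b := by exact_mod_cast hb0
  have ha0' : 0 < a := lt_of_lt_of_le (mul_pos hC0p hb0) hab
  have haR : (0 : ℝ) < a := by exact_mod_cast ha0'
  have hab1 : 3 * (3 * m + L) * b ≤ a := by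
    have : 3 * (3 * m + L) * b ≤ C0 * b := by
      apply mul_le_mul_of_nonneg_right _ hb0.le
      rw [hC0]; omega
    linarith
  have hab2 : b * κ0 / a ≤ δ := by
    rw [div_le_iff₀ haR]
    have h1 : κ0 / δ ≤ C0 := by
      have h2 := Int.le_ceil (κ0 / δ)
      have h3 : ((⌈κ0 / δ⌉ : ℤ) : ℝ) ≤ C0 := by
        have : ⌈κ0 / δ⌉ ≤ C0 := by rw [hC0]; omega
        exact_mod_cast this
      linarith
    have h4 : κ0 ≤ C0 * δ := by rwa [div_le_iff₀ hδ0] at h1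
    have h5 : (C0 : ℝ) * b ≤ a := by exact_mod_cast hab
    calc b * κ0 ≤ b * (C0 * δ) := mul_le_mul_of_nonneg_left h4 hbR.le
      _ = δ * (C0 * b) := by ring
      _ ≤ δ * a := mul_le_mul_of_nonneg_left h5 hδ0.le
  rcases H_val hg (hV.F_pos hm).ne' with hodd | hodd
  · exact hodd
  · rw [hκ0] at hab2
    exact (no_odd hg hm hb ha0 hL hn2 hE hconst hδ hb0 ha0' hV hab1 hab2 hodd).elim

end Pool.Agent.H48.AP
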