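import Mathlib
import Pool.Agent.H41.Per.Basic

/-!
# `g(3k²+3k+1)` on one residue class: the interface

`g` is completely multiplicative with values `±1` (`PM g`), and `g(3k²+3k+1)` is constant for all
large `k ≡ r (mod m)`.  `F m x y = x² + 3mxy + 3m²y²` is the norm of `x + m y θ`
(`θ² = 3θ - 3`), `Vx m x y` are the vertices, `H g m x y = g (F m x y)`.

* Part A: the odd vertices `(a, b)` with `b` fixed are sparse (`Sparse g m`).
* Part B: `Sparse g m` implies `H g m = 1` on all vertices.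
-/

set_option autoImplicit false

namespace Pool.Agent.H48.AP

open Pool.Agent.H41.Per (PM)

/-- The norm form `x² + 3 m x y + 3 m² y²`. -/
def F (m x y : ℤ) : ℤ := x ^ 2 + 3 * m * x * y + 3 * m ^ 2 * y ^ 2

/-- `H = g ∘ F`. -/
def H (g : ℕ → ℤ) (m x y : ℤ) : ℤ := g (F m x y).natAbs

/-- Vertices. -/
def Vx (m x y : ℤ) : Prop := IsCoprime x y ∧ IsCoprime x m ∧ x % 3 = 1

open Classical in
/-- The number of odd vertices `(a, b)` with `1 ≤ a ≤ A`. -/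
noncomputable def oddCount (g : ℕ → ℤ) (m b : ℤ) (A : ℕ) : ℕ :=
  ((Finset.Icc 1 A).filter (fun a : ℕ => Vx m a b ∧ H g m a b = -1)).card

/-- The odd vertices in each row `y = b` are sparse: `O(A / (log A)^κ)` for every `κ`. -/
def Sparse (g : ℕ → ℤ) (m : ℤ) : Prop :=
  ∀ b : ℕ, 0 < b → ∀ κ : ℕ, ∃ C : ℝ, 0 < C ∧ ∀ j : ℕ, 1 ≤ j →
    (oddCount g m b (2 ^ j) : ℝ) ≤ C * 2 ^ j / (j : ℝ) ^ κ

/-- `g (3k²+3k+1)` is constant for large `k ≡ r (mod m)`. -/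
def ConstOn (g : ℕ → ℤ) (m : ℤ) (r : ℤ) : Prop :=
  ∃ ε : ℤ, ∃ K : ℤ, ∀ k : ℤ, K ≤ k → m ∣ k - r → g (3 * k ^ 2 + 3 * k + 1).natAbs = ε

end Pool.Agent.H48.AP
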