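import Pool.Agent.H48.AP.Sel

/-!
Exceptional sets: for all real `X` outside a small set the sign of the vertices along the
Stern-Brocot chain of `X` is eventually constant, with a uniform starting level.
-/

set_option autoImplicit false

namespace Pool.Agent.H48.AP

open Pool.Agent.H41.Per (PM)
open MeasureTheory

variable {g : ℕ → ℤ} {m : ℤ}

/-! ### small sets -/

/-- neighbourhoods of the rationals `x / y ∈ [a₀, a₀ + 1]`, `y ∈ S` -/
def nearRat (a0 : ℤ) (S : Finset ℤ) (w : ℤ → ℝ) : Set ℝ :=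
  ⋃ y ∈ S, ⋃ x ∈ Finset.Icc (a0 * y) ((a0 + 1) * y), Set.Icc ((x : ℝ) / y - w y) ((x : ℝ) / y + w y)

lemma mem_nearRat {a0 : ℤ} {S : Finset ℤ} {w : ℤ → ℝ} {X : ℝ} {x y : ℤ} (hy : y ∈ S)
    (h1 : a0 * y ≤ x) (h2 : x ≤ (a0 + 1) * y) (h : |X - (x : ℝ) / y| ≤ w y) :
    X ∈ nearRat a0 S w := by
  unfold nearRat
  simp only [Set.mem_iUnion]
  refine ⟨y, hy, x, Finset.mem_Icc.2 ⟨h1, h2⟩, ?_⟩
  rw [abs_le] at h
  exact ⟨by linarith [h.1], by linarith [h.2]⟩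

lemma vol_near (a0 : ℤ) (S : Finset ℤ) (w : ℤ → ℝ) (hS : ∀ y ∈ S, 1 ≤ y)
    (hw : ∀ y ∈ S, 0 ≤ w y) :
    volume (nearRat a0 S w) ≤ ENNReal.ofReal (∑ y ∈ S, ((y : ℝ) + 1) * (2 * w y)) := by
  have hy0 : ∀ y ∈ S, (0 : ℝ) ≤ (y : ℝ) + 1 := by
    intro y hy
    have h1 : (1 : ℝ) ≤ y := by exact_mod_cast hS y hy
    linarith
  unfold nearRat
  rw [ENNReal.ofReal_sum_of_nonneg (fun y hy => mul_nonneg (hy0 y hy) (by linarith [hw y hy]))]
  refine (measure_biUnion_finset_le S _).trans (Finset.sum_le_sum fun y hy => ?_)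
  refine (measure_biUnion_finset_le _ _).trans ?_
  have h1 : ∀ x ∈ Finset.Icc (a0 * y) ((a0 + 1) * y),
      volume (Set.Icc ((x : ℝ) / y - w y) ((x : ℝ) / y + w y)) = ENNReal.ofReal (2 * w y) := by
    intro x _
    rw [Real.volume_Icc]
    congr 1
    ring
  rw [Finset.sum_congr rfl h1, Finset.sum_const, Int.card_Icc, nsmul_eq_mul,
    ENNReal.ofReal_mul (hy0 y hy)]
  refine mul_le_mul' (le_of_eq ?_) (le_refl _)
  have h2 : (a0 + 1) * y + 1 - a0 * y = y + 1 := by ring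
  have h3 : (((y + 1).toNat : ℕ) : ℝ) = (y : ℝ) + 1 := by
    have h4 : (((y + 1).toNat : ℕ) : ℤ) = y + 1 := Int.toNat_of_nonneg (by have := hS y hy; omega)
    exact_mod_cast h4
  rw [h2, ← h3, ENNReal.ofReal_natCast]

/-- neighbourhood of a finite set -/
def nearSet (D : Finset ℝ) (w : ℝ) : Set ℝ := ⋃ d ∈ D, Set.Icc (d - w) (d + w)

lemma mem_nearSet {D : Finset ℝ} {w X d : ℝ} (hd : d ∈ D) (h : |X - d| ≤ w) :
    X ∈ nearSet D w := by
  unfold nearSet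
  simp only [Set.mem_iUnion]
  rw [abs_le] at h
  exact ⟨d, hd, by linarith [h.1], by linarith [h.2]⟩

lemma vol_nearSet (D : Finset ℝ) (w : ℝ) :
    volume (nearSet D w) ≤ ENNReal.ofReal (D.card * (2 * w)) := by
  unfold nearSet
  refine (measure_biUnion_finset_le D _).trans ?_
  have h1 : ∀ d ∈ D, volume (Set.Icc (d - w) (d + w)) = ENNReal.ofReal (2 * w) := by
    intro d _
    rw [Real.volume_Icc]
    congr 1
    ring
  rw [Finset.sum_congr rfl h1, Finset.sum_const, nsmul_eq_mul,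
    ENNReal.ofReal_mul (Nat.cast_nonneg _), ENNReal.ofReal_natCast]

lemma tail (C ε : ℝ) (hC : 0 ≤ C) (hε : 0 < ε) : ∃ i1 : ℕ, ∀ S : ℕ → Set ℝ,
    (∀ i, volume (S i) ≤ ENNReal.ofReal (C / ((i : ℝ) + 1) ^ 2)) →
      volume (⋃ i, ⋃ (_ : i1 ≤ i), S i) ≤ ENNReal.ofReal ε := by
  have hs : Summable (fun i : ℕ => C / ((i : ℝ) + 1) ^ 2) := by
    have h1 : Summable (fun i : ℕ => 1 / ((i : ℝ)) ^ 2) :=
      Real.summable_one_div_nat_pow.2 (by norm_num)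
    have h2 := (summable_nat_add_iff 1).2 h1
    have h3 := h2.mul_left C
    refine h3.congr fun i => ?_
    push_cast
    ring
  have ht := tendsto_sum_nat_add (fun i : ℕ => C / ((i : ℝ) + 1) ^ 2)
  obtain ⟨i1, hi1⟩ := (ht.eventually (gt_mem_nhds hε)).exists
  refine ⟨i1, fun S hS => ?_⟩
  have hsub : (⋃ i, ⋃ (_ : i1 ≤ i), S i) ⊆ ⋃ k, S (k + i1) := by
    intro x hx
    simp only [Set.mem_iUnion] at hx ⊢
    obtain ⟨i, hi, hx⟩ := hx
    exact ⟨i - i1, by rwa [Nat.sub_add_cancel hi]⟩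
  refine (measure_mono hsub).trans ((measure_iUnion_le _).trans ?_)
  refine (ENNReal.tsum_le_tsum fun k => hS (k + i1)).trans ?_
  rw [← ENNReal.ofReal_tsum_of_nonneg (fun k => by positivity)
    ((summable_nat_add_iff i1).2 hs)]
  exact ENNReal.ofReal_le_ofReal hi1.le

/-! ### the main statement -/

/-- the conclusion of the module `Pairs` -/
def BadDirs (g : ℕ → ℤ) (m : ℤ) : Prop :=
  ∀ (L : ℕ) (Bd : ℤ) (κ : ℕ), ∃ C : ℝ, 0 < C ∧ ∀ j : ℕ, 1 ≤ j →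
    ∃ D : Finset ℝ, (D.card : ℝ) ≤ C * 4 ^ j / (j : ℝ) ^ κ ∧
      ∀ x y x' y' : ℤ, 0 < y → y ≤ 2 ^ j → 2 * m * y ≤ x → x ≤ L * y → 0 < y' → y' ≤ 2 ^ j →
        2 * m * y' ≤ x' → x' ≤ L * y' → Vx m x y → Vx m x' y' → |y * x' - x * y'| ≤ Bd →
        H g m x y ≠ H g m x' y' → ((x : ℝ) / y ∈ D ∨ (x' : ℝ) / y' ∈ D)

/-- the sign at a node -/
noncomputable def sg (g : ℕ → ℤ) (m : ℤ) (J : Node) : ℤ := H g m (rx m J) (ry m J)

/-- width at scale `2^i` -/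
noncomputable def wd (i : ℕ) : ℝ := 4 * ((i : ℝ) + 1) ^ 2 / 4 ^ i

/-- the sets `E1 i`: well approximable points -/
noncomputable def E1 (a0 : ℤ) (i : ℕ) : Set ℝ :=
  nearRat a0 (Finset.Ico (2 ^ i) (2 ^ (i + 1))) (fun y => 1 / ((y : ℝ) ^ 2 * ((i : ℝ) + 1) ^ 2))

lemma vol_E1 (a0 : ℤ) (i : ℕ) : volume (E1 a0 i) ≤ ENNReal.ofReal (4 / ((i : ℝ) + 1) ^ 2) := by
  have h2i : (1 : ℤ) ≤ 2 ^ i := one_le_pow₀ (by norm_num)
  refine (vol_near a0 _ _ (fun y hy => ?_) (fun y hy => by positivity)).trans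
    (ENNReal.ofReal_le_ofReal ?_)
  · have := (Finset.mem_Ico.1 hy).1
    omega
  · have hi : (0 : ℝ) < ((i : ℝ) + 1) ^ 2 := by positivity
    have h1 : ∀ y ∈ Finset.Ico ((2 : ℤ) ^ i) (2 ^ (i + 1)),
        ((y : ℝ) + 1) * (2 * (1 / ((y : ℝ) ^ 2 * ((i : ℝ) + 1) ^ 2))) ≤
          4 / (2 ^ i * ((i : ℝ) + 1) ^ 2) := by
      intro y hy
      have h3 := (Finset.mem_Ico.1 hy).1
      have h4 : (2 : ℝ) ^ i ≤ y := by exact_mod_cast h3
      have h5 : (1 : ℝ) ≤ 2 ^ i := one_le_pow₀ (by norm_num)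
      have h6 : (0 : ℝ) < y := by linarith
      have h7 : ((y : ℝ) + 1) * (2 * (1 / ((y : ℝ) ^ 2 * ((i : ℝ) + 1) ^ 2))) =
          (2 * ((y : ℝ) + 1)) / ((y : ℝ) ^ 2 * ((i : ℝ) + 1) ^ 2) := by ring
      rw [h7, div_le_div_iff₀ (by positivity) (by positivity)]
      have h8 : 2 * ((y : ℝ) + 1) * 2 ^ i ≤ 4 * (y : ℝ) ^ 2 := by nlinarith
      nlinarith
    refine (Finset.sum_le_sum h1).trans ?_
    rw [Finset.sum_const, Int.card_Ico, nsmul_eq_mul]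
    have h9 : (((((2 : ℤ) ^ (i + 1) - 2 ^ i).toNat : ℕ)) : ℝ) = 2 ^ i := by
      have e : (2 : ℤ) ^ (i + 1) - 2 ^ i = 2 ^ i := by ring
      rw [e]
      have h10 : ((((2 : ℤ) ^ i).toNat : ℕ) : ℤ) = 2 ^ i := Int.toNat_of_nonneg (by positivity)
      exact_mod_cast h10
    rw [h9]
    apply le_of_eq
    field_simp

lemma good_side {a0 : ℤ} {i1 i : ℕ} {η X : ℝ} {x y y' n2 : ℤ} (hη : 0 < η)
    (hx : a0 * y ≤ x) (hx' : x ≤ (a0 + 1) * y) (hy : 1 ≤ y) (hy' : 1 ≤ y')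
    (hn : n2 ≤ y + y') (hn2 : (2 : ℝ) ^ i1 + 1 / η ≤ n2) (hsz : y + y' < 2 ^ (i + 1))
    (hd : |X - (x : ℝ) / y| ≤ 1 / ((y : ℝ) * y'))
    (hX0 : X ∉ nearRat a0 (Finset.Ico 1 (2 ^ i1)) (fun _ => η))
    (hX1 : ∀ i', i1 ≤ i' → X ∉ E1 a0 i') : (y' : ℝ) ≤ y * ((i : ℝ) + 1) ^ 2 := by
  have hyR : (1 : ℝ) ≤ y := by exact_mod_cast hy
  have hyR' : (1 : ℝ) ≤ y' := by exact_mod_cast hy'
  have hbig : (2 : ℤ) ^ i1 ≤ y := by
    by_contra hlt
    push Not at hlt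
    apply hX0
    refine mem_nearRat (Finset.mem_Ico.2 ⟨hy, hlt⟩) hx hx' (hd.trans ?_)
    have h1 : (n2 : ℝ) ≤ y + y' := by exact_mod_cast hn
    have h2 : (y : ℝ) < 2 ^ i1 := by exact_mod_cast hlt
    have h3 : 1 / η ≤ y' := by linarith
    have h4 : 1 ≤ η * y' := by
      rw [div_le_iff₀ hη] at h3; linarith
    rw [div_le_iff₀ (by positivity)]
    nlinarith [mul_pos hη (by linarith : (0 : ℝ) < y')]
  set i' : ℕ := Nat.log 2 y.toNat with hi'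
  have hyN : ((y.toNat : ℕ) : ℤ) = y := Int.toNat_of_nonneg (by omega)
  have hy0 : y.toNat ≠ 0 := by omega
  have hlo : (2 : ℤ) ^ i' ≤ y := by
    have := Nat.pow_log_le_self 2 hy0
    rw [← hyN]; exact_mod_cast this
  have hhi : y < (2 : ℤ) ^ (i' + 1) := by
    have := Nat.lt_pow_succ_log_self (by norm_num : 1 < 2) y.toNat
    rw [← hyN]; exact_mod_cast this
  have h1i : i1 ≤ i' := by
    have h1 : (2 : ℤ) ^ i1 < 2 ^ (i' + 1) := lt_of_le_of_lt hbig hhi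
    have h2 : i1 < i' + 1 := (pow_lt_pow_iff_right₀ (by norm_num : (1 : ℤ) < 2)).1 h1
    omega
  have hi'i : i' ≤ i := by
    have h1 : (2 : ℤ) ^ i' < 2 ^ (i + 1) := lt_of_le_of_lt hlo (by omega)
    have h2 : i' < i + 1 := (pow_lt_pow_iff_right₀ (by norm_num : (1 : ℤ) < 2)).1 h1
    omega
  by_contra hlt
  push Not at hlt
  apply hX1 i' h1i
  refine mem_nearRat (Finset.mem_Ico.2 ⟨hlo, hhi⟩) hx hx' (hd.trans ?_)
  have h3 : (i' : ℝ) ≤ i := by exact_mod_cast hi'i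
  have h3' : (0 : ℝ) ≤ i' := Nat.cast_nonneg _
  rw [div_le_div_iff₀ (by positivity) (by positivity), one_mul, one_mul]
  have h4 : ((i' : ℝ) + 1) ^ 2 ≤ ((i : ℝ) + 1) ^ 2 := by
    apply pow_le_pow_left₀ <;> linarith
  have h5 : (y : ℝ) * ((i' : ℝ) + 1) ^ 2 ≤ y' := by nlinarith
  nlinarith

lemma log_sandwich {n : ℤ} (hn : 1 ≤ n) : ∃ i : ℕ, (2 : ℤ) ^ i ≤ n ∧ n < 2 ^ (i + 1) := by
  refine ⟨Nat.log 2 n.toNat, ?_, ?_⟩
  · have hyN : ((n.toNat : ℕ) : ℤ) = n := Int.toNat_of_nonneg (by omega)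
    have hy0 : n.toNat ≠ 0 := by omega
    have := Nat.pow_log_le_self 2 hy0
    rw [← hyN]; exact_mod_cast this
  · have hyN : ((n.toNat : ℕ) : ℤ) = n := Int.toNat_of_nonneg (by omega)
    have := Nat.lt_pow_succ_log_self (by norm_num : 1 < 2) n.toNat
    rw [← hyN]; exact_mod_cast this

/-- `2^i ≤ sz`, and neither endpoint is much larger than the other: the interval is short -/
lemma width_le {i : ℕ} {yu yv : ℤ} (hu : 1 ≤ yu) (hv : 1 ≤ yv) (h : (2 : ℤ) ^ i ≤ yu + yv)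
    (h1 : (yv : ℝ) ≤ yu * ((i : ℝ) + 1) ^ 2) (h2 : (yu : ℝ) ≤ yv * ((i : ℝ) + 1) ^ 2) :
    1 / ((yu : ℝ) * yv) ≤ wd i := by
  have huR : (1 : ℝ) ≤ yu := by exact_mod_cast hu
  have hvR : (1 : ℝ) ≤ yv := by exact_mod_cast hv
  have hR : (2 : ℝ) ^ i ≤ yu + yv := by exact_mod_cast h
  have h4 : (4 : ℝ) ^ i = 2 ^ i * 2 ^ i := by rw [← mul_pow]; norm_num
  unfold wd
  rw [div_le_div_iff₀ (by positivity) (by positivity), one_mul, h4]
  have h5 : (2 : ℝ) ^ i * 2 ^ i ≤ (yu + yv) * (yu + yv) :=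
    mul_le_mul hR hR (by positivity) (by positivity)
  rcases le_total yu yv with hle | hle
  · have hleR : (yu : ℝ) ≤ yv := by exact_mod_cast hle
    have h6 : ((yu : ℝ) + yv) * (yu + yv) ≤ 4 * (yv * yv) := by nlinarith
    have h7 : (yv : ℝ) * yv ≤ (yu * ((i : ℝ) + 1) ^ 2) * yv :=
      mul_le_mul_of_nonneg_right h1 (by linarith)
    nlinarith
  · have hleR : (yv : ℝ) ≤ yu := by exact_mod_cast hle
    have h6 : ((yu : ℝ) + yv) * (yu + yv) ≤ 4 * (yu * yu) := by nlinarith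
    have h7 : (yu : ℝ) * yu ≤ (yv * ((i : ℝ) + 1) ^ 2) * yu :=
      mul_le_mul_of_nonneg_right h2 (by linarith)
    nlinarith

/-- the cone: `a₀ = 2m + 1` -/
lemma cone {J : Node} (h : J.Ok (2 * m + 1)) :
    2 * m * ry m J ≤ rx m J ∧ rx m J ≤ (2 * m + 2) * ry m J := by
  have h1 := r_lo (m := m) h
  have h2 := r_hi (m := m) h
  have h3 := ry_pos (m := m) h
  constructor <;> nlinarith

theorem exc (hm : 0 < m) (hb : BadDirs g m) {ε : ℝ} (hε : 0 < ε) :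
    ∃ n2 : ℤ, 2 ≤ n2 ∧ ∃ E : Set ℝ, volume E ≤ ENNReal.ofReal ε ∧
      ∀ X : ℝ, ((2 * m + 1 : ℤ) : ℝ) ≤ X → X < ((2 * m + 1 : ℤ) : ℝ) + 1 → X ∉ E →
        ∀ k : ℕ, n2 ≤ (chain (2 * m + 1) X k).sz →
          sg g m (chain (2 * m + 1) X (k + 1)) = sg g m (chain (2 * m + 1) X k) := by
  set a0 : ℤ := 2 * m + 1 with ha0
  set B : ℕ := Bm m with hB
  have hB1 : 1 ≤ B := Bm_pos hm
  set i0 : ℕ := 4 * B with hi0
  have hi0B : 4 * B ≤ 2 ^ i0 := Nat.lt_two_pow_self.le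
  obtain ⟨C, hC, hD⟩ := hb (2 * m + 2).toNat (4 * (B : ℤ) ^ 2) 4
  have hLc : (((2 * m + 2).toNat : ℕ) : ℤ) = 2 * m + 2 := Int.toNat_of_nonneg (by omega)
  choose! D hDc hDp using hD
  -- the sets E2
  set E2 : ℕ → Set ℝ := fun i => nearSet (D (i + i0)) (wd i) with hE2
  have hvol2 : ∀ i, volume (E2 i) ≤ ENNReal.ofReal (8 * C * 4 ^ i0 / ((i : ℝ) + 1) ^ 2) := by
    intro i
    refine (vol_nearSet _ _).trans (ENNReal.ofReal_le_ofReal ?_)
    have hwd : 0 ≤ 2 * wd i := by unfold wd; positivity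
    have h1 := hDc (i + i0) (by omega)
    have hle : ((i : ℝ) + 1) ^ 4 ≤ (((i + i0 : ℕ)) : ℝ) ^ 4 := by
      apply pow_le_pow_left₀ (by positivity)
      push_cast
      have : (1 : ℝ) ≤ i0 := by exact_mod_cast (by omega : 1 ≤ i0)
      linarith
    have h2 : C * 4 ^ (i + i0) / (((i + i0 : ℕ)) : ℝ) ^ 4 ≤ C * 4 ^ (i + i0) / ((i : ℝ) + 1) ^ 4 :=
      div_le_div_of_nonneg_left (by positivity) (by positivity) hle
    refine (mul_le_mul_of_nonneg_right (h1.trans h2) hwd).trans (le_of_eq ?_)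
    unfold wd
    rw [pow_add]
    field_simp
    ring
  set C' : ℝ := 4 + 8 * C * 4 ^ i0 with hC'
  have hC'0 : 0 ≤ C' := by positivity
  obtain ⟨i1, hi1⟩ := tail C' (ε / 2) hC'0 (by linarith)
  set S : ℕ → Set ℝ := fun i => E1 a0 i ∪ E2 i with hS
  have hvolS : ∀ i, volume (S i) ≤ ENNReal.ofReal (C' / ((i : ℝ) + 1) ^ 2) := by
    intro i
    refine (measure_union_le _ _).trans ((add_le_add (vol_E1 a0 i) (hvol2 i)).trans ?_)
    rw [← ENNReal.ofReal_add (by positivity) (by positivity)]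
    apply ENNReal.ofReal_le_ofReal
    rw [hC', add_div]
  have htail := hi1 S hvolS
  set η : ℝ := ε / (4 * 4 ^ i1) with hη
  have hη0 : 0 < η := by positivity
  set E0 : Set ℝ := nearRat a0 (Finset.Ico 1 (2 ^ i1)) (fun _ => η) with hE0
  have hvol0 : volume E0 ≤ ENNReal.ofReal (ε / 2) := by
    refine (vol_near a0 _ _ (fun y hy => (Finset.mem_Ico.1 hy).1) (fun _ _ => hη0.le)).trans
      (ENNReal.ofReal_le_ofReal ?_)
    have h1 : ∀ y ∈ Finset.Ico (1 : ℤ) (2 ^ i1), ((y : ℝ) + 1) * (2 * η) ≤ 2 ^ i1 * (2 * η) := by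
      intro y hy
      have h3 := (Finset.mem_Ico.1 hy).2
      have h4 : (y : ℝ) + 1 ≤ 2 ^ i1 := by exact_mod_cast (by omega : y + 1 ≤ 2 ^ i1)
      exact mul_le_mul_of_nonneg_right h4 (by positivity)
    refine (Finset.sum_le_sum h1).trans ?_
    rw [Finset.sum_const, Int.card_Ico, nsmul_eq_mul]
    have h9 : (((((2 : ℤ) ^ i1 - 1).toNat : ℕ)) : ℝ) ≤ 2 ^ i1 := by
      have h10 : ((((2 : ℤ) ^ i1 - 1).toNat : ℕ) : ℤ) = 2 ^ i1 - 1 :=
        Int.toNat_of_nonneg (by have : (1 : ℤ) ≤ 2 ^ i1 := one_le_pow₀ (by norm_num); omega)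
      have h11 : (((((2 : ℤ) ^ i1 - 1).toNat : ℕ)) : ℝ) = 2 ^ i1 - 1 := by exact_mod_cast h10
      rw [h11]; linarith
    refine (mul_le_mul_of_nonneg_right h9 (by positivity)).trans (le_of_eq ?_)
    have h4 : (4 : ℝ) ^ i1 = 2 ^ i1 * 2 ^ i1 := by rw [← mul_pow]; norm_num
    rw [hη, h4]
    field_simp
    norm_num
  -- the level
  set n2 : ℤ := ⌈(2 : ℝ) ^ i1 + 1 / η⌉ + 2 with hn2
  have hn2R : (2 : ℝ) ^ i1 + 1 / η ≤ n2 := by
    have := Int.le_ceil ((2 : ℝ) ^ i1 + 1 / η)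
    rw [hn2]; push_cast; linarith
  have hn2' : 2 ≤ n2 := by
    have h1 : (0 : ℝ) ≤ (2 : ℝ) ^ i1 + 1 / η := by positivity
    have := Int.ceil_nonneg h1
    omega
  have hn2'' : (2 : ℤ) ^ i1 ≤ n2 := by
    have h1 : (2 : ℝ) ^ i1 ≤ n2 := by
      have : 0 < 1 / η := by positivity
      linarith
    exact_mod_cast h1
  refine ⟨n2, hn2', E0 ∪ ⋃ i, ⋃ (_ : i1 ≤ i), S i, ?_, ?_⟩
  · refine (measure_union_le _ _).trans ((add_le_add hvol0 htail).trans ?_)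
    rw [← ENNReal.ofReal_add (by linarith) (by linarith)]
    apply ENNReal.ofReal_le_ofReal
    linarith
  · intro X hX0 hX1 hXE k hk
    rw [Set.mem_union, not_or] at hXE
    obtain ⟨hXE0, hXS⟩ := hXE
    simp only [Set.mem_iUnion, not_exists] at hXS
    have hXE1 : ∀ i', i1 ≤ i' → X ∉ E1 a0 i' := fun i' hi' h => hXS i' hi' (Or.inl h)
    have hXE2 : ∀ i', i1 ≤ i' → X ∉ E2 i' := fun i' hi' h => hXS i' hi' (Or.inr h)
    set J := chain a0 X k with hJ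
    set J' := chain a0 X (k + 1) with hJ'
    have hok : J.Ok a0 := chain_ok a0 X k
    have hok' : J'.Ok a0 := chain_ok a0 X (k + 1)
    have hmem : J.Mem X := chain_mem hX0 hX1 k
    have hmem' : J'.Mem X := chain_mem hX0 hX1 (k + 1)
    have hu := hok.hu
    have hv := hok.hv
    have huR : (0 : ℝ) < J.yu := by exact_mod_cast (by omega : 0 < J.yu)
    have hvR : (0 : ℝ) < J.yv := by exact_mod_cast (by omega : 0 < J.yv)
    obtain ⟨i, hilo, hihi⟩ := log_sandwich (n := J.sz) (by omega)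
    have hi1i : i1 ≤ i := by
      have h1 : (2 : ℤ) ^ i1 < 2 ^ (i + 1) := lt_of_le_of_lt (hn2''.trans hk) hihi
      have h2 : i1 < i + 1 := (pow_lt_pow_iff_right₀ (by norm_num : (1 : ℤ) < 2)).1 h1
      omega
    have hdet : (J.xv : ℝ) * J.yu - J.xu * J.yv = 1 := by exact_mod_cast hok.det
    -- both sides are good
    have hdu : |X - (J.xu : ℝ) / J.yu| ≤ 1 / ((J.yu : ℝ) * J.yv) := by
      refine Node.dist_le hok hmem.1 hmem.2.le ?_ ?_
      · rw [div_mul_cancel₀ _ huR.ne']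
      · rw [div_mul_eq_mul_div, div_le_iff₀ huR]; linarith
    have hdv : |X - (J.xv : ℝ) / J.yv| ≤ 1 / ((J.yv : ℝ) * J.yu) := by
      rw [mul_comm (J.yv : ℝ)]
      refine Node.dist_le hok hmem.1 hmem.2.le ?_ ?_
      · rw [div_mul_eq_mul_div, le_div_iff₀ hvR]; linarith
      · rw [div_mul_cancel₀ _ hvR.ne']
    have hg1 : (J.yv : ℝ) ≤ J.yu * ((i : ℝ) + 1) ^ 2 :=
      good_side hη0 hok.lo hok.hi hu hv hk hn2R hihi hdu hXE0 hXE1
    have hg2 : (J.yu : ℝ) ≤ J.yv * ((i : ℝ) + 1) ^ 2 :=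
      good_side hη0 hok.lo' hok.hi' hv hu (by unfold Node.sz at hk; omega) hn2R
        (by unfold Node.sz at hihi; omega) hdv hXE0 hXE1
    have hwd : 1 / ((J.yu : ℝ) * J.yv) ≤ wd i := width_le hu hv hilo hg1 hg2
    have hnear : |X - (rx m J : ℝ) / ry m J| ≤ wd i := (r_near hok hmem).trans hwd
    have hchild : J' = J.left ∨ J' = J.right := by
      rcases chain_succ a0 X k with ⟨h, -⟩ | ⟨h, -⟩
      · exact Or.inl h
      · exact Or.inr h
    have hyy : J.yu * J.yv ≤ J'.yu * J'.yv := by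
      rcases hchild with h | h <;> rw [h] <;> simp only [Node.left, Node.right] <;> nlinarith
    have hnear' : |X - (rx m J' : ℝ) / ry m J'| ≤ wd i := by
      refine (r_near hok' hmem').trans (le_trans ?_ hwd)
      apply one_div_le_one_div_of_le (mul_pos huR hvR)
      exact_mod_cast hyy
    have hj : 1 ≤ i + i0 := by omega
    by_contra hne
    have hBi : (B : ℤ) * 2 ^ (i + 1) ≤ 2 ^ (i + i0) := by
      have h1 : ((4 * B : ℕ) : ℤ) ≤ 2 ^ i0 := by exact_mod_cast hi0B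
      have h2 : (2 : ℤ) ^ (i + i0) = 2 ^ i * 2 ^ i0 := pow_add _ _ _
      have h3 : (2 : ℤ) ^ (i + 1) = 2 ^ i * 2 := pow_succ _ _
      have h4 : (0 : ℤ) < 2 ^ i := by positivity
      rw [h2, h3]
      push_cast at h1
      nlinarith
    have hry : ry m J ≤ 2 ^ (i + i0) := by
      have h1 := ry_le hm hok
      have h2 : (B : ℤ) * J.sz ≤ B * 2 ^ (i + 1) :=
        mul_le_mul_of_nonneg_left hihi.le (by positivity)
      linarith
    have hry' : ry m J' ≤ 2 ^ (i + i0) := by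
      have h1 := ry_le hm hok'
      have h2 := (sz_succ a0 X k).2
      rw [← hJ, ← hJ'] at h2
      have h1' : ((4 * B : ℕ) : ℤ) ≤ 2 ^ i0 := by exact_mod_cast hi0B
      have h4 : (0 : ℤ) < 2 ^ i := by positivity
      have h5 : (2 : ℤ) ^ (i + i0) = 2 ^ i * 2 ^ i0 := pow_add _ _ _
      have h6 : (2 : ℤ) ^ (i + 1) = 2 ^ i * 2 := pow_succ _ _
      have h7 : (B : ℤ) * J'.sz ≤ B * (4 * 2 ^ i) :=
        mul_le_mul_of_nonneg_left (by omega) (by positivity)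
      rw [h5]
      push_cast at h1'
      nlinarith
    have hc1 := cone (m := m) hok
    have hc2 := cone (m := m) hok'
    have hdetr := r_det hm hok hchild
    have := hDp (i + i0) hj (rx m J) (ry m J) (rx m J') (ry m J')
      (by have := ry_pos (m := m) hok; omega) hry hc1.1 (by rw [hLc]; exact hc1.2)
      (by have := ry_pos (m := m) hok'; omega) hry' hc2.1 (by rw [hLc]; exact hc2.2)
      (r_vx hm hok) (r_vx hm hok') hdetr (fun h => hne h.symm)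
    rcases this with h | h
    · exact hXE2 i hi1i (mem_nearSet h hnear)
    · exact hXE2 i hi1i (mem_nearSet h hnear')

/-- consequence for the nodes at different scales -/
theorem exc' (hm : 0 < m) (hb : BadDirs g m) {ε : ℝ} (hε : 0 < ε) :
    ∃ n2 : ℤ, 2 ≤ n2 ∧ ∃ E : Set ℝ, volume E ≤ ENNReal.ofReal ε ∧
      ∀ X : ℝ, ((2 * m + 1 : ℤ) : ℝ) ≤ X → X < ((2 * m + 1 : ℤ) : ℝ) + 1 → X ∉ E →
        ∀ Y : ℤ, n2 ≤ Y →
          sg g m (nodeAt (2 * m + 1) X Y) = sg g m (nodeAt (2 * m + 1) X n2) := by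
  obtain ⟨n2, h2, E, hE, h⟩ := exc hm hb hε
  refine ⟨n2, h2, E, hE, fun X hX0 hX1 hXE Y hY => ?_⟩
  have hl := lvl_mono (a0 := 2 * m + 1) (X := X) hY
  unfold nodeAt
  obtain ⟨d, hd⟩ := Nat.exists_eq_add_of_le hl
  rw [hd]
  clear hd
  induction d with
  | zero => rfl
  | succ d ih =>
    rw [← ih, ← add_assoc]
    apply h X hX0 hX1 hXE
    exact (nodeAt_ge (2 * m + 1) X n2).trans (sz_mono _ _ (by omega))

end Pool.Agent.H48.AP
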