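import Pool.Agent.H24.KS.AbSieve

/-! Helper24's sieve of dimension `D` for events periodic modulo `p`. -/

set_option autoImplicit false

namespace Pool.Agent.H48.AP

open Finset Classical
open Pool.Agent.H95.Gol

lemma card_range_mul {p : ℕ} {E : ℕ → Prop} (hE : ∀ j, E j ↔ E (j % p)) (k : ℕ) :
    ((range (k * p)).filter E).card = k * ((range p).filter E).card := by
  have hper : Function.Periodic E p := fun j => by
    rw [propext (hE (j + p)), propext (hE j), Nat.add_mod_right]
  induction k with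
  | zero => simp
  | succ k ih =>
    have h1 : range ((k + 1) * p) = range (k * p) ∪ Ico (k * p) (k * p + p) := by
      ext j
      simp only [mem_range, mem_union, mem_Ico]
      have : (k + 1) * p = k * p + p := by ring
      omega
    have h2 : Disjoint ((range (k * p)).filter E) ((Ico (k * p) (k * p + p)).filter E) := by
      apply disjoint_filter_filter
      rw [disjoint_left]
      intro j hj hj'
      rw [mem_range] at hj
      rw [mem_Ico] at hj'
      omega
    rw [h1, filter_union, card_union_of_disjoint h2, ih, Nat.filter_Ico_card_eq_of_periodic _ _ _ hper,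
      Nat.count_eq_card_filter_range]
    ring

theorem sieveD (D : ℕ) : ∃ (A : ℕ) (C : ℝ), 0 < C ∧ ∀ (P : Finset ℕ) (K J : ℕ) (E : ℕ → ℕ → Prop)
    (w : ℕ → ℕ), (bb K) ^ A ≤ J → (∀ p ∈ P, p.Prime ∧ 2 < p ∧ D ≤ p ∧ p ≤ bb K) →
    (∀ p ∈ P, ∀ j, E p j ↔ E p (j % p)) →
    (∀ p ∈ P, ((range p).filter (E p)).card = w p) →
    (∀ p ∈ P, w p ≤ D) →
    (((range J).filter (fun j => ∀ p ∈ P, ¬ E p j)).card : ℝ) ≤
      C * J * Real.exp (- ∑ p ∈ P, (w p : ℝ) / p) := by
  obtain ⟨C, hC, h⟩ := Pool.Agent.H24.KS.sieveD D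
  refine ⟨32 + D, C, hC, ?_⟩
  intro P K J E w hJ hP hE hw hwD
  have h1 := h P K J E (fun p => p * w p) hJ (fun p hp => ⟨(hP p hp).1, (hP p hp).2.1,
    (hP p hp).2.2.2⟩)
    (fun p hp j => by
      rw [hE p hp j, hE p hp (j % p ^ 2), Nat.mod_mod_of_dvd _ (dvd_pow_self p two_ne_zero)])
    (fun p hp => by
      rw [sq, card_range_mul (hE p hp), hw p hp])
    (fun p hp => by
      rw [mul_comm]
      exact Nat.mul_le_mul_right _ (hwD p hp))
  refine h1.trans (le_of_eq ?_)
  congr 3
  refine sum_congr rfl fun p hp => ?_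
  have hp0 : (p : ℝ) ≠ 0 := by exact_mod_cast (hP p hp).1.ne_zero
  push_cast
  field_simp

end Pool.Agent.H48.AP
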