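import Pool.Agent.H48.AP.Defs
import Pool.Agent.H48.AP.SieveD
import Pool.Agent.H61.AP.A2_Blk

/-! The fan of one-dimensional sieves. -/

set_option autoImplicit false

namespace Pool.Agent.H48.AP

open Finset
open Pool.Agent.H95.Gol (bb PB bb_pos two_le_bb bb_mono mem_PB)

/-- a square root of `-3` modulo `p ≡ 1 (mod 3)` -/
lemma exists_rho {p : ℕ} [Fact p.Prime] (h3 : p % 3 = 1) : ∃ ρ : ZMod p, ρ ^ 2 = -3 := by
  classical
  have hp : p.Prime := Fact.out
  have hcard : 3 ∣ Fintype.card (ZMod p)ˣ := by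
    rw [ZMod.card_units_eq_totient, Nat.totient_prime hp]
    omega
  obtain ⟨u, hu⟩ := exists_prime_orderOf_dvd_card 3 hcard
  have hu3 : u ^ 3 = 1 := by rw [← hu]; exact pow_orderOf_eq_one u
  have hu1 : u ≠ 1 := by
    intro h
    rw [h, orderOf_one] at hu
    omega
  have h1 : ((u : ZMod p) - 1) * ((u : ZMod p) ^ 2 + u + 1) = 0 := by
    have : (u : ZMod p) ^ 3 = 1 := by
      have := congrArg (Units.val) hu3
      simpa using this
    linear_combination this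
  have h2 : (u : ZMod p) - 1 ≠ 0 := by
    intro h
    exact hu1 (Units.ext (by simpa using sub_eq_zero.mp h))
  have h4 : (u : ZMod p) ^ 2 + u + 1 = 0 := (mul_eq_zero.mp h1).resolve_left h2
  exact ⟨2 * u + 1, by linear_combination 4 * h4⟩

/-- The residues `u` with `p ∣ F m (1+3m(u+i)) 1` for some `i ∈ S`: exactly `2 |S|`. -/
lemma card_roots {m N p : ℕ} (hm : 0 < m) (hp : p.Prime) (h3 : p % 3 = 1)
    (hpm : 3 * m < p) (hpN : 9 * N ^ 2 + 3 < p) (S : Finset ℕ) (hS : S ⊆ Icc 1 N) :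
    ((range p).filter (fun j : ℕ => ∃ i ∈ S, (p : ℤ) ∣ F m (1 + 3 * m * (j + i)) 1)).card =
      2 * S.card := by
  classical
  have : Fact p.Prime := ⟨hp⟩
  obtain ⟨ρ, hρ⟩ := exists_rho h3
  have hp5 : 5 ≤ p := by
    by_contra h
    have h4 : p = 4 := by omega
    rw [h4] at hp
    exact absurd hp (by norm_num)
  have hcast : ∀ n : ℕ, 0 < n → n < p → (n : ZMod p) ≠ 0 := by
    intro n h0 h1 h
    rw [ZMod.natCast_eq_zero_iff] at h
    exact absurd (Nat.le_of_dvd h0 h) (by omega)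
  have hm0 : (m : ZMod p) ≠ 0 := hcast m hm (by omega)
  have h20 : (2 : ZMod p) ≠ 0 := by exact_mod_cast hcast 2 (by omega) (by omega)
  have h30 : (3 : ZMod p) ≠ 0 := by exact_mod_cast hcast 3 (by omega) (by omega)
  have h6m : (6 * m : ZMod p) ≠ 0 := by
    rw [show (6 : ZMod p) = 2 * 3 by norm_num]
    exact mul_ne_zero (mul_ne_zero h20 h30) hm0
  set rt : ℕ × Bool → ZMod p := fun z =>
    (-2 - 3 * m + (if z.2 then m * ρ else - (m * ρ))) / (6 * m) - z.1 with hrt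
  have hroot : ∀ x : ZMod p, ∀ i : ℕ, ((1 + 3 * m * (x + i)) ^ 2 + 3 * m * (1 + 3 * m * (x + i)) +
      3 * m ^ 2 = 0 ↔ x = rt (i, true) ∨ x = rt (i, false)) := by
    intro x i
    simp only [hrt, if_true, Bool.false_eq_true, if_false]
    rw [eq_sub_iff_add_eq, eq_sub_iff_add_eq, eq_div_iff h6m, eq_div_iff h6m]
    have h4 : (4 : ZMod p) ≠ 0 := by
      rw [show (4 : ZMod p) = 2 * 2 by norm_num]; exact mul_ne_zero h20 h20
    constructor
    · intro h
      have : ((x + i) * (6 * m) - (-2 - 3 * m + m * ρ)) * ((x + i) * (6 * m) -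
          (-2 - 3 * m + - (m * ρ))) = 0 := by
        linear_combination 4 * h - m ^ 2 * hρ
      rcases mul_eq_zero.mp this with h | h
      · left; exact sub_eq_zero.mp h
      · right; exact sub_eq_zero.mp h
    · intro h
      have h5 : ((x + i) * (6 * m) - (-2 - 3 * m + m * ρ)) * ((x + i) * (6 * m) -
          (-2 - 3 * m + - (m * ρ))) = 0 := by
        rcases h with h | h
        · rw [sub_eq_zero.mpr h, zero_mul]
        · rw [sub_eq_zero.mpr h, mul_zero]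
      have h6 : 4 * ((1 + 3 * m * (x + i)) ^ 2 + 3 * m * (1 + 3 * m * (x + i)) +
          3 * m ^ 2) = 0 := by linear_combination h5 + m ^ 2 * hρ
      exact (mul_eq_zero.mp h6).resolve_left h4
  have hdvd : ∀ (j i : ℕ), ((p : ℤ) ∣ F m (1 + 3 * m * (j + i)) 1 ↔
      ((j : ZMod p) = rt (i, true) ∨ (j : ZMod p) = rt (i, false))) := by
    intro j i
    rw [← hroot, ← ZMod.intCast_zmod_eq_zero_iff_dvd _ p]
    unfold F
    push_cast
    constructor <;> intro h <;> linear_combination h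
  -- injectivity
  have hinj : Set.InjOn rt ((S ×ˢ (univ : Finset Bool) : Finset (ℕ × Bool)) : Set (ℕ × Bool)) := by
    rintro ⟨i, e⟩ hi ⟨i', e'⟩ hi' h
    simp only [coe_product, coe_univ, Set.mem_prod, mem_coe, Set.mem_univ, and_true] at hi hi'
    have hi1 := mem_Icc.mp (hS hi)
    have hi2 := mem_Icc.mp (hS hi')
    simp only [hrt] at h
    have hdiff : ∀ a b : ZMod p, a / (6 * m) - (i : ZMod p) = b / (6 * m) - i' →
        a - b = 6 * m * ((i : ZMod p) - i') := by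
      intro a b hab
      have ha : a / (6 * m) * (6 * m) = a := div_mul_cancel₀ _ h6m
      have hb : b / (6 * m) * (6 * m) = b := div_mul_cancel₀ _ h6m
      linear_combination (6 * m : ZMod p) * hab - ha + hb
    have h' := hdiff _ _ h
    have hsmall : ∀ n : ℤ, (n : ZMod p) = 0 → |n| < p → n = 0 := by
      intro n hn hlt
      rw [ZMod.intCast_zmod_eq_zero_iff_dvd] at hn
      by_contra h0
      have := Int.le_of_dvd (abs_pos.mpr h0) ((dvd_abs _ _).mpr hn)
      omega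
    have hNp : N < p := by nlinarith
    have same : (i : ZMod p) = i' → i = i' := by
      intro hii
      have := hsmall ((i : ℤ) - i') (by push_cast; rw [hii, sub_self]) (by
        rw [abs_lt]; constructor <;> omega)
      omega
    have diffr : ∀ s : ℤ, ρ = 3 * (s : ZMod p) → |s| ≤ N → False := by
      intro s hs hsN
      have e : ((9 * s ^ 2 + 3 : ℤ) : ZMod p) = 0 := by
        push_cast
        rw [hs] at hρ
        linear_combination hρ
      have h0 := hsmall (9 * s ^ 2 + 3) e (by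
        rw [abs_of_nonneg (by positivity)]
        have : s ^ 2 ≤ (N : ℤ) ^ 2 := sq_le_sq' (by linarith [(abs_le.mp hsN).1])
          (abs_le.mp hsN).2
        have h9 : ((9 * N ^ 2 + 3 : ℕ) : ℤ) < p := by exact_mod_cast hpN
        push_cast at h9
        linarith)
      nlinarith [sq_nonneg s]
    have h2m : (2 * m : ZMod p) ≠ 0 := mul_ne_zero h20 hm0
    cases e <;> cases e'
    · simp only [Bool.false_eq_true, if_false] at h'
      have : (6 * m : ZMod p) * ((i : ZMod p) - i') = 0 := by linear_combination -h'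
      rcases mul_eq_zero.mp this with h0 | h0
      · exact absurd h0 h6m
      · rw [same (sub_eq_zero.mp h0)]
    · simp only [Bool.false_eq_true, if_false, if_true] at h'
      exfalso
      refine diffr ((i' : ℤ) - i) ?_ (by rw [abs_le]; constructor <;> omega)
      push_cast
      apply mul_left_cancel₀ h2m
      linear_combination -h'
    · simp only [Bool.false_eq_true, if_false, if_true] at h'
      exfalso
      refine diffr ((i : ℤ) - i') ?_ (by rw [abs_le]; constructor <;> omega)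
      push_cast
      apply mul_left_cancel₀ h2m
      linear_combination h'
    · simp only [if_true] at h'
      have : (6 * m : ZMod p) * ((i : ZMod p) - i') = 0 := by linear_combination -h'
      rcases mul_eq_zero.mp this with h0 | h0
      · exact absurd h0 h6m
      · rw [same (sub_eq_zero.mp h0)]
  -- bijection with the image
  have hcard : ((range p).filter (fun j : ℕ => ∃ i ∈ S, (p : ℤ) ∣ F m (1 + 3 * m * (j + i)) 1)).card =
      ((S ×ˢ (univ : Finset Bool)).image rt).card := by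
    refine card_bij (fun j _ => (j : ZMod p)) ?_ ?_ ?_
    · intro j hj
      rw [mem_filter] at hj
      obtain ⟨_, i, hi, hd⟩ := hj
      rw [mem_image]
      rcases (hdvd j i).mp hd with h | h
      · exact ⟨(i, true), by simp [hi], h.symm⟩
      · exact ⟨(i, false), by simp [hi], h.symm⟩
    · intro j hj j' hj' h
      rw [mem_filter, mem_range] at hj hj'
      have := congrArg ZMod.val h
      rwa [ZMod.val_cast_of_lt hj.1, ZMod.val_cast_of_lt hj'.1] at this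
    · intro x hx
      rw [mem_image] at hx
      obtain ⟨⟨i, e⟩, hi, he⟩ := hx
      rw [mem_product] at hi
      refine ⟨x.val, ?_, ZMod.natCast_zmod_val x⟩
      rw [mem_filter, mem_range]
      refine ⟨ZMod.val_lt x, i, hi.1, (hdvd _ _).mpr ?_⟩
      rw [ZMod.natCast_zmod_val]
      cases e
      · right; exact he.symm
      · left; exact he.symm
  rw [hcard, card_image_of_injOn hinj, card_product, card_univ, Fintype.card_bool, mul_comm]

/-- a valid type: for every `i ≤ N` a modulus `q ≤ Q i` divisible by `3` and a reduced class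
`≡ 1 (mod 3)` modulo `q` -/
def TV (N Q : ℕ) (τ : ℕ → ℕ × ℕ) : Prop :=
  ∀ i ∈ Icc 1 N, 0 < (τ i).1 ∧ (τ i).1 ≤ Q * i ∧ 3 ∣ (τ i).1 ∧ (τ i).2 % 3 = 1 ∧
    (τ i).2.Coprime (τ i).1

/-- Mertens in blocks for one class -/
lemma class_sum {q s : ℕ} (hq : 0 < q) (hs : s.Coprime q) : ∃ C : ℝ, 0 < C ∧ ∀ k0 K : ℕ,
    k0 ≤ K → Real.log 2 * ((K : ℝ) - k0) / q - C ≤
      ∑ p ∈ ((Ioc (bb k0) (bb K)).filter (fun p : ℕ => p.Prime ∧ p ≡ s [MOD q])), (1 : ℝ) / p := by
  classical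
  have : NeZero q := ⟨by omega⟩
  obtain ⟨C, hC, hb⟩ := Pool.Agent.H61.AP.blkAP q (s : ZMod q) ((ZMod.isUnit_iff_coprime s q).mpr hs)
  refine ⟨2 * C, by positivity, ?_⟩
  intro k0 K hk
  have hsub : (Ico k0 K).biUnion (fun k => (PB k).filter (fun l : ℕ => (l : ZMod q) = s)) ⊆
      (Ioc (bb k0) (bb K)).filter (fun p : ℕ => p.Prime ∧ p ≡ s [MOD q]) := by
    intro p hp
    rw [mem_biUnion] at hp
    obtain ⟨k, hk, hp⟩ := hp
    rw [mem_filter, mem_PB] at hp
    rw [mem_Ico] at hk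
    rw [mem_filter, mem_Ioc]
    refine ⟨⟨lt_of_le_of_lt (bb_mono hk.1) hp.1.1.1, hp.1.1.2.trans (bb_mono (by omega))⟩,
      hp.1.2, ?_⟩
    exact (ZMod.natCast_eq_natCast_iff p s q).mp hp.2
  have h1 : ∑ k ∈ Ico k0 K, ∑ l ∈ (PB k).filter (fun l : ℕ => (l : ZMod q) = s), (1 : ℝ) / l ≤
      ∑ p ∈ ((Ioc (bb k0) (bb K)).filter (fun p : ℕ => p.Prime ∧ p ≡ s [MOD q])), (1 : ℝ) / p := by
    rw [← sum_biUnion]
    · exact sum_le_sum_of_subset_of_nonneg hsub fun p _ _ => by positivity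
    · intro a _ b _ hab
      exact (Pool.Agent.H95.Gol.PB_disjoint hab).mono (filter_subset _ _) (filter_subset _ _)
  refine le_trans ?_ h1
  have h2 : ∀ k ∈ Ico k0 K, Real.log 2 / q - C * (1 / 2 ^ k) ≤
      ∑ l ∈ (PB k).filter (fun l : ℕ => (l : ZMod q) = s), (1 : ℝ) / l := by
    intro k _
    have h3 := (abs_le.mp (hb k)).1
    have h4 : Real.log 2 / q ≤ Real.log 2 / (q.totient : ℝ) := by
      apply div_le_div_of_nonneg_left (Real.log_nonneg (by norm_num))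
      · exact_mod_cast Nat.totient_pos.mpr hq
      · exact_mod_cast Nat.totient_le q
    rw [mul_one_div]
    linarith
  refine le_trans ?_ (sum_le_sum h2)
  rw [sum_sub_distrib, ← mul_sum, sum_const, Nat.card_Ico, nsmul_eq_mul, Nat.cast_sub hk]
  have h5 := Pool.Agent.H95.Gol.geom_half' k0 K
  have h6 : (2 : ℝ) / 2 ^ k0 ≤ 2 := div_le_self (by norm_num) (one_le_pow₀ (by norm_num))
  have h7 : C * ∑ k ∈ Ico k0 K, (1 : ℝ) / 2 ^ k ≤ C * 2 :=
    mul_le_mul_of_nonneg_left (h5.trans h6) hC.le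
  have h8 : Real.log 2 * ((K : ℝ) - k0) / q = ((K : ℝ) - k0) * (Real.log 2 / q) := by ring
  rw [h8]
  linarith

open Classical in
/-- the exponent of the fan sieve -/
lemma fan_exponent {N κ Q : ℕ} (hN : (κ : ℝ) ≤ ∑ i ∈ Icc 1 N, 1 / ((Q : ℝ) * i))
    {τ : ℕ → ℕ × ℕ} (hτ : TV N Q τ) {Ci : ℕ → ℝ} (hCi : ∀ i, 0 < Ci i)
    (hcls : ∀ i ∈ Icc 1 N, ∀ k0 K : ℕ,
      k0 ≤ K → Real.log 2 * ((K : ℝ) - k0) / (τ i).1 - Ci i ≤
      ∑ p ∈ ((Ioc (bb k0) (bb K)).filter (fun p : ℕ => p.Prime ∧ p ≡ (τ i).2 [MOD (τ i).1])),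
        (1 : ℝ) / p) (k0 K : ℕ) :
    κ * Real.log 2 * ((K : ℝ) - k0) - 2 * ∑ i ∈ Icc 1 N, Ci i ≤
      ∑ p ∈ (Ioc (bb k0) (bb K)).filter (fun p : ℕ => p.Prime ∧ p % 3 = 1),
        ((2 * ((Icc 1 N).filter (fun i => p ≡ (τ i).2 [MOD (τ i).1])).card : ℕ) : ℝ) / p := by
  have hC0 : 0 ≤ ∑ i ∈ Icc 1 N, Ci i := sum_nonneg (fun i _ => (hCi i).le)
  set P : Finset ℕ := (Ioc (bb k0) (bb K)).filter (fun p : ℕ => p.Prime ∧ p % 3 = 1) with hP
  rcases le_or_gt k0 K with hK | hK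
  · have e1 : ∑ p ∈ P, ((2 * ((Icc 1 N).filter (fun i => p ≡ (τ i).2 [MOD (τ i).1])).card : ℕ) : ℝ) / p =
        2 * ∑ i ∈ Icc 1 N, ∑ p ∈ P.filter (fun p => p ≡ (τ i).2 [MOD (τ i).1]), (1 : ℝ) / p := by
      have : ∀ p ∈ P, ((2 * ((Icc 1 N).filter (fun i => p ≡ (τ i).2 [MOD (τ i).1])).card : ℕ) : ℝ) / p =
          2 * ∑ i ∈ Icc 1 N, if p ≡ (τ i).2 [MOD (τ i).1] then (1 : ℝ) / p else 0 := by
        intro p _
        rw [← sum_filter, sum_const, nsmul_eq_mul]
        push_cast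
        ring
      rw [sum_congr rfl this, ← mul_sum, sum_comm]
      congr 1
      refine sum_congr rfl fun i _ => ?_
      exact (sum_filter _ _).symm
    rw [e1]
    have h10 : 0 ≤ Real.log 2 * ((K : ℝ) - k0) :=
      mul_nonneg (Real.log_nonneg (by norm_num)) (by
        have : (k0 : ℝ) ≤ K := by exact_mod_cast hK
        linarith)
    have e2 : ∀ i ∈ Icc 1 N, Real.log 2 * ((K : ℝ) - k0) * (1 / ((Q : ℝ) * i)) - Ci i ≤
        ∑ p ∈ P.filter (fun p => p ≡ (τ i).2 [MOD (τ i).1]), (1 : ℝ) / p := by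
      intro i hi
      obtain ⟨h1, h2, h3, h4, h5⟩ := hτ i hi
      have h6 := hcls i hi k0 K hK
      have h7 : P.filter (fun p => p ≡ (τ i).2 [MOD (τ i).1]) =
          (Ioc (bb k0) (bb K)).filter (fun p : ℕ => p.Prime ∧ p ≡ (τ i).2 [MOD (τ i).1]) := by
        ext p
        simp only [hP, mem_filter]
        constructor
        · rintro ⟨⟨h8, h9, _⟩, h10⟩
          exact ⟨h8, h9, h10⟩
        · rintro ⟨h8, h9, h10⟩
          refine ⟨⟨h8, h9, ?_⟩, h10⟩
          have := (h10.of_dvd h3)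
          unfold Nat.ModEq at this
          omega
      rw [h7]
      refine le_trans ?_ h6
      have h8 : (0 : ℝ) < (τ i).1 := by exact_mod_cast h1
      have h9 : ((τ i).1 : ℝ) ≤ (Q : ℝ) * i := by exact_mod_cast h2
      have h11 : Real.log 2 * ((K : ℝ) - k0) * (1 / ((Q : ℝ) * i)) ≤
          Real.log 2 * ((K : ℝ) - k0) / (τ i).1 := by
        rw [mul_one_div]
        exact div_le_div_of_nonneg_left h10 h8 h9
      linarith
    have e3 := sum_le_sum e2
    rw [sum_sub_distrib, ← mul_sum] at e3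
    have e4 := mul_le_mul_of_nonneg_left hN h10
    have hκ : 0 ≤ (κ : ℝ) := Nat.cast_nonneg _
    have e5 := mul_nonneg h10 hκ
    linarith
  · have h1 : (K : ℝ) - k0 ≤ 0 := by
      have : (K : ℝ) < k0 := by exact_mod_cast hK
      linarith
    have h2 : κ * Real.log 2 * ((K : ℝ) - k0) ≤ 0 :=
      mul_nonpos_of_nonneg_of_nonpos (mul_nonneg (Nat.cast_nonneg _)
        (Real.log_nonneg (by norm_num))) h1
    have h3 : 0 ≤ ∑ p ∈ P,
        ((2 * ((Icc 1 N).filter (fun i => p ≡ (τ i).2 [MOD (τ i).1])).card : ℕ) : ℝ) / p :=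
      sum_nonneg fun p _ => by positivity
    linarith

lemma card_filter_le_imp {s : Finset ℕ} {p q : ℕ → Prop} (_i1 : DecidablePred p)
    (_i2 : DecidablePred q) (h : ∀ x ∈ s, p x → q x) :
    (s.filter p).card ≤ (s.filter q).card := by
  apply card_le_card
  intro x hx
  rw [mem_filter] at hx ⊢
  exact ⟨hx.1, h x hx.1 hx.2⟩

open Classical in
/-- The fan of one-dimensional sieves. -/
theorem fan_sieve (m : ℕ) (hm : 0 < m) (N κ Q Z : ℕ)
    (hN : (κ : ℝ) ≤ ∑ i ∈ Icc 1 N, 1 / ((Q : ℝ) * i)) :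
    ∃ A : ℕ, ∀ τ : ℕ → ℕ × ℕ, TV N Q τ → ∃ C : ℝ, 0 < C ∧ ∀ K J : ℕ, (bb K) ^ A ≤ J →
      (((range J).filter (fun u : ℕ => ∀ i ∈ Icc 1 N, ∀ p : ℕ, p.Prime → Z < p → p ≤ bb K →
        p ≡ (τ i).2 [MOD (τ i).1] → ¬ (p : ℤ) ∣ F m (1 + 3 * m * (u + i)) 1)).card : ℝ) ≤
      C * J / 2 ^ (κ * K) := by
  obtain ⟨A, C0, hC0, hsieve⟩ := sieveD (2 * N)
  refine ⟨A, fun τ hτ => ?_⟩
  set k0 : ℕ := Z + 9 * N ^ 2 + 3 * m + 2 * N + 4 with hk0
  have hbk0 : k0 < bb k0 := by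
    have h1 := Pool.Agent.H95.Gol.four_pow_le_bb k0
    have h2 : k0 < 4 ^ k0 := Nat.lt_pow_self (by norm_num)
    omega
  have hcl : ∀ i : ℕ, ∃ C : ℝ, 0 < C ∧ (i ∈ Icc 1 N → ∀ k0 K : ℕ,
      k0 ≤ K → Real.log 2 * ((K : ℝ) - k0) / (τ i).1 - C ≤
      ∑ p ∈ ((Ioc (bb k0) (bb K)).filter (fun p : ℕ => p.Prime ∧ p ≡ (τ i).2 [MOD (τ i).1])),
        (1 : ℝ) / p) := by
    intro i
    by_cases hi : i ∈ Icc 1 N
    · obtain ⟨h1, h2, h3, h4, h5⟩ := hτ i hi
      obtain ⟨C, hC, h⟩ := class_sum h1 h5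
      exact ⟨C, hC, fun _ => h⟩
    · exact ⟨1, one_pos, fun h => absurd h hi⟩
  choose Ci hCi hcls using hcl
  set C' : ℝ := 2 * ∑ i ∈ Icc 1 N, Ci i with hC'
  refine ⟨C0 * (Real.exp C' * 2 ^ (κ * k0)), by positivity, ?_⟩
  intro K J hJ
  have hexpo := fan_exponent hN hτ hCi hcls k0 K
  have hPm : ∀ p ∈ (Ioc (bb k0) (bb K)).filter (fun p : ℕ => p.Prime ∧ p % 3 = 1),
      p.Prime ∧ p % 3 = 1 ∧ bb k0 < p ∧ p ≤ bb K := by
    intro p hp
    rw [mem_filter, mem_Ioc] at hp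
    exact ⟨hp.2.1, hp.2.2, hp.1.1, hp.1.2⟩
  have hs := hsieve ((Ioc (bb k0) (bb K)).filter (fun p : ℕ => p.Prime ∧ p % 3 = 1)) K J
    (fun p j => ∃ i ∈ (Icc 1 N).filter (fun i => p ≡ (τ i).2 [MOD (τ i).1]),
      (p : ℤ) ∣ F m (1 + 3 * m * (j + i)) 1)
    (fun p => 2 * ((Icc 1 N).filter (fun i => p ≡ (τ i).2 [MOD (τ i).1])).card) hJ
    (fun p hp => by
      obtain ⟨h1, h2, h3, h4⟩ := hPm p hp
      refine ⟨h1, ?_, ?_, h4⟩ <;> omega)
    (fun p hp j => by
      have key : ∀ i : ℕ, ((p : ℤ) ∣ F m (1 + 3 * m * (j + i)) 1 ↔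
          (p : ℤ) ∣ F m (1 + 3 * m * ((j % p : ℕ) + i)) 1) := by
        intro i
        rw [← ZMod.intCast_zmod_eq_zero_iff_dvd _ p, ← ZMod.intCast_zmod_eq_zero_iff_dvd _ p]
        unfold F
        push_cast
        exact Iff.rfl
      constructor
      · rintro ⟨i, hi, hd⟩
        exact ⟨i, hi, (key i).mp hd⟩
      · rintro ⟨i, hi, hd⟩
        exact ⟨i, hi, (key i).mpr hd⟩)
    (fun p hp => by
      obtain ⟨h1, h2, h3, h4⟩ := hPm p hp
      have := card_roots (N := N) hm h1 h2 (by omega) (by omega)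
        ((Icc 1 N).filter (fun i => p ≡ (τ i).2 [MOD (τ i).1])) (filter_subset _ _)
      rw [← this]
      congr 1
      ext j
      simp only [mem_filter])
    (fun p hp => by
      have := card_le_card (filter_subset (fun i => p ≡ (τ i).2 [MOD (τ i).1]) (Icc 1 N))
      rw [Nat.card_Icc] at this
      omega)
  have hcard : (((range J).filter (fun u : ℕ => ∀ i ∈ Icc 1 N, ∀ p : ℕ, p.Prime → Z < p →
      p ≤ bb K → p ≡ (τ i).2 [MOD (τ i).1] →
        ¬ (p : ℤ) ∣ F m (1 + 3 * m * (u + i)) 1)).card : ℝ) ≤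
      C0 * J * Real.exp (- ∑ p ∈ (Ioc (bb k0) (bb K)).filter (fun p : ℕ => p.Prime ∧ p % 3 = 1),
        ((2 * ((Icc 1 N).filter (fun i => p ≡ (τ i).2 [MOD (τ i).1])).card : ℕ) : ℝ) / p) := by
    refine le_trans (Nat.cast_le.mpr (card_filter_le_imp _ _ ?_)) hs
    rintro u _ hu p hp ⟨i, hi, hd⟩
    obtain ⟨h1, h2, h3, h4⟩ := hPm p hp
    rw [mem_filter] at hi
    exact hu i hi.1 p h1 (by omega) h4 hi.2 hd
  refine hcard.trans ?_
  have hexp : Real.exp (- ∑ p ∈ (Ioc (bb k0) (bb K)).filter (fun p : ℕ => p.Prime ∧ p % 3 = 1),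
        ((2 * ((Icc 1 N).filter (fun i => p ≡ (τ i).2 [MOD (τ i).1])).card : ℕ) : ℝ) / p) ≤
      Real.exp C' * 2 ^ (κ * k0) / 2 ^ (κ * K) := by
    have h1 : Real.exp (- ∑ p ∈ (Ioc (bb k0) (bb K)).filter (fun p : ℕ => p.Prime ∧ p % 3 = 1),
        ((2 * ((Icc 1 N).filter (fun i => p ≡ (τ i).2 [MOD (τ i).1])).card : ℕ) : ℝ) / p) ≤
        Real.exp (C' + (κ * k0 : ℕ) * Real.log 2 - (κ * K : ℕ) * Real.log 2) := by
      apply Real.exp_le_exp.mpr
      rw [Nat.cast_mul, Nat.cast_mul]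
      linarith
    refine h1.trans (le_of_eq ?_)
    rw [Real.exp_sub, Real.exp_add, Real.exp_nat_mul, Real.exp_nat_mul,
      Real.exp_log (by norm_num : (0:ℝ) < 2)]
  calc C0 * J * Real.exp _ ≤ C0 * J * (Real.exp C' * 2 ^ (κ * k0) / 2 ^ (κ * K)) :=
        mul_le_mul_of_nonneg_left hexp (by positivity)
    _ = _ := by ring

end Pool.Agent.H48.AP
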