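import Pool.Agent.H48.AP.Alg
import Pool.Agent.H48.AP.Fan1

/-! An odd vertex `(a, b)` and the vertex `(x, 1)`: one of two classes of primes is missing. -/

set_option autoImplicit false

namespace Pool.Agent.H48.AP

open Pool.Agent.H41.Per (PM)

variable {g : ℕ → ℤ} {m : ℤ}

/-- the edge lemma for a prime `p` much smaller than `a` -/
lemma edge_small (hg : PM g) (hm : 0 < m) {r K ε : ℤ}
    (hc : ∀ k : ℤ, K ≤ k → m ∣ k - r → g (3 * k ^ 2 + 3 * k + 1).natAbs = ε)
    {a b p : ℤ} (ha : 0 < a) (hb : 0 < b) (hcop : IsCoprime a (3 * m * b)) (hp : 0 < p)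
    (hdF : p ∣ F m a b) (hdm : 3 * m ^ 2 * b ∣ p - (a - 3 * m * b * r))
    (h1 : 2 * p ≤ a) (h2 : 6 * m * b * (|K| + 1) ≤ a) : H g m a b = 1 := by
  have hmb : 0 < m * b := by positivity
  have hK1 : K * (3 * m * b) ≤ |K| * (3 * m * b) :=
    mul_le_mul_of_nonneg_right (le_abs_self K) (by positivity)
  have hK2 : 3 * m * b * |K| + 3 * m * b ≤ a - 3 * m * b * (|K| + 1) := by nlinarith
  have hK0 : 0 ≤ |K| := abs_nonneg K
  have h3 : 0 ≤ m * b * |K| := by positivity
  refine edge hg hm hc ha hb hcop hp hdF hdm ?_ ?_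
  · nlinarith
  · have h4 : K * (3 * m * b) + a + 3 * m * b ≤ 2 * a := by nlinarith
    have h5 : (K * (3 * m * b) + a + 3 * m * b) * p ≤ 2 * a * p :=
      mul_le_mul_of_nonneg_right h4 hp.le
    have h6 : 2 * a * p ≤ a * a := by nlinarith
    have h7 : a * a ≤ F m a b := by
      unfold F
      have : 0 ≤ m * a * b := by positivity
      nlinarith [sq_nonneg (m * b)]
    linarith

/-- the type of an odd vertex relative to `(x, 1)` -/
lemma odd_type (hg : PM g) (hm : 0 < m) {r K ε : ℤ}
    (hc : ∀ k : ℤ, K ≤ k → m ∣ k - r → g (3 * k ^ 2 + 3 * k + 1).natAbs = ε)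
    {a b x B z : ℤ} (ha : 0 < a) (hb : 0 < b) (hV : Vx m a b) (ho : H g m a b = -1)
    (hx : 3 * m ∣ x - 1) (hx0 : 0 < x) (hxa : a < b * x) (hB : b * x - a ≤ B)
    (hz1 : 2 * z ≤ x) (hz2 : 6 * m * (|K| + 1) ≤ x)
    (hz3 : 2 * z * B ≤ a * x) (hz4 : 6 * m * B * (|K| + 1) * B ≤ a * x) :
    ∃ q s : ℤ, 0 < q ∧ q ≤ 3 * m ^ 2 * B ∧ 3 ∣ q ∧ 3 ∣ s - 1 ∧ IsCoprime s q ∧
      ∀ p : ℕ, p.Prime → B < p → (p : ℤ) ≤ z → q ∣ p - s → ¬ (p : ℤ) ∣ F m x 1 := by
  have hBpos : 0 < B := by linarith
  have hm2 : 0 < m ^ 2 := by positivity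
  have hx3 : x % 3 = 1 := by
    have : (3 : ℤ) ∣ x - 1 := (Dvd.intro _ rfl : (3 : ℤ) ∣ 3 * m).trans hx
    omega
  have hxc : IsCoprime x (3 * m) := by
    obtain ⟨k, hk⟩ := hx
    exact ⟨1, -k, by linear_combination hk⟩
  have hxm : IsCoprime x m := IsCoprime.of_mul_right_right hxc
  have hVx : Vx m x 1 := ⟨isCoprime_one_right, hxm, hx3⟩
  rcases H_val hg (hVx.F_pos hm).ne' with h1 | h1
  swap
  · -- `(x, 1)` is odd
    refine ⟨3 * m ^ 2, x - 3 * m * r, by positivity, by nlinarith, Dvd.intro _ rfl, ?_, ?_, ?_⟩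
    · have : (3 : ℤ) ∣ x - 1 := by omega
      obtain ⟨k, hk⟩ := this
      exact ⟨k - m * r, by linear_combination hk⟩
    · have h3 : IsCoprime (x - 3 * m * r) (3 * m) := by
        have e : x - 3 * m * r = x + (3 * m) * (-r) := by ring
        rw [e]
        exact IsCoprime.add_mul_left_left hxc _
      have e : 3 * m ^ 2 = (3 * m) * m := by ring
      rw [e]
      exact h3.mul_right (IsCoprime.of_mul_right_right h3)
    · intro p hp hBp hpz hq hd
      have hp0 : (0 : ℤ) < p := by exact_mod_cast hp.pos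
      have := edge_small hg hm hc hx0 one_pos (by rw [mul_one]; exact hxc) hp0 hd
        (by rw [mul_one, mul_one]; exact hq) (by linarith) (by rw [mul_one]; exact hz2)
      rw [this] at h1
      norm_num at h1
  · -- `(x, 1)` is even
    obtain ⟨c, a', b', hc0, hb', hA, hB', hV', hH⟩ := pair_vertex hg hm hV hVx
      (by linarith : 0 < b * x - a * 1)
    rw [ho, h1, mul_one] at hH
    have hcB : c ≤ B := by nlinarith
    have hb'B : b' ≤ B := by nlinarith
    have hmb : 0 < m * b := by positivity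
    have hma : 0 < m * a := by positivity
    have hAx : a * x ≤ c * a' := by
      rw [← hA]
      nlinarith [mul_pos hm hmb]
    have hax : 0 < a * x := mul_pos ha hx0
    have ha' : 0 < a' := by
      have : 0 < c * a' := lt_of_lt_of_le hax hAx
      exact (mul_pos_iff_of_pos_left hc0).1 this
    have hBa : a * x ≤ B * a' := hAx.trans (mul_le_mul_of_nonneg_right hcB ha'.le)
    have h2z : 2 * z ≤ a' := by
      have : B * (2 * z) ≤ B * a' := by linarith
      exact le_of_mul_le_mul_left this hBpos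
    have h6 : 6 * m * B * (|K| + 1) ≤ a' := by
      have : B * (6 * m * B * (|K| + 1)) ≤ B * a' := by linarith
      exact le_of_mul_le_mul_left this hBpos
    have h6' : 6 * m * b' * (|K| + 1) ≤ a' := by
      refine le_trans ?_ h6
      have hK0 : 0 ≤ |K| := abs_nonneg K
      have : 0 ≤ m * (|K| + 1) := by positivity
      nlinarith
    have hcop' : IsCoprime a' (3 * m * b') := by
      have h3 : IsCoprime a' 3 := by
        have := hV'.2.2
        exact ⟨1, -(a' / 3), by omega⟩
      exact (h3.mul_right hV'.2.1).mul_right hV'.1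
    refine ⟨3 * m ^ 2 * b', a' - 3 * m * b' * r, by positivity, ?_, ?_, ?_, ?_, ?_⟩
    · exact mul_le_mul_of_nonneg_left hb'B (by positivity)
    · exact ⟨m ^ 2 * b', by ring⟩
    · have := hV'.2.2
      have h3 : (3 : ℤ) ∣ a' - 1 := by omega
      obtain ⟨k, hk⟩ := h3
      exact ⟨k - m * b' * r, by linear_combination hk⟩
    · have h3 : IsCoprime (a' - 3 * m * b' * r) (3 * m * b') := by
        have e : a' - 3 * m * b' * r = a' + (3 * m * b') * (-r) := by ring
        rw [e]
        exact IsCoprime.add_mul_left_left hcop' _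
      have h4 : IsCoprime (a' - 3 * m * b' * r) m := by
        have : IsCoprime (a' - 3 * m * b' * r) (m * (3 * b')) := by
          rw [show m * (3 * b') = 3 * m * b' by ring]
          exact h3
        exact IsCoprime.of_mul_right_left this
      have e3 : 3 * m ^ 2 * b' = (3 * m * b') * m := by ring
      rw [e3]
      exact h3.mul_right h4
    · intro p hp hBp hpz hq hd
      have hp0 : (0 : ℤ) < p := by exact_mod_cast hp.pos
      have hpI : Prime (p : ℤ) := Nat.prime_iff_prime_int.1 hp
      have hd2 : (p : ℤ) ∣ F m a' b' := by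
        have e : F m (c * a') (c * b') = F m a b * F m x 1 := by
          rw [← hA, ← hB']
          exact F_mul m a b x 1
        have h5 : (p : ℤ) ∣ c ^ 2 * F m a' b' := by
          rw [← F_smul, e]
          exact hd.mul_left _
        rcases hpI.dvd_or_dvd h5 with h6 | h6
        · have h7 := hpI.dvd_of_dvd_pow h6
          have := Int.le_of_dvd hc0 h7
          linarith
        · exact h6
      have := edge_small hg hm hc ha' hb' hcop' hp0 hd2 hq (by linarith) h6'
      rw [this] at hH
      norm_num at hH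

end Pool.Agent.H48.AP
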