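import Pool.Agent.H48.AP.Defs
import Pool.Agent.H41.Per.Char
import Pool.Agent.H41.Per.Lio

/-!
If `H g m = 1` on all vertices, then `g(n) = 1` for every norm `n` prime to `3m` which is a square
modulo `3m`; hence `g` is a Dirichlet character at the primes `p ≡ 1 (mod 3)`, `p ∤ m`, and `g` is
not the Liouville function.
-/

set_option autoImplicit false

namespace Pool.Agent.H48.AP

open Pool.Agent.H41.Per

variable {g : ℕ → ℤ}

/-- `H = 1` on all vertices. -/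
def AllEven (g : ℕ → ℤ) (m : ℤ) : Prop :=
  ∀ x y : ℤ, IsCoprime x y → IsCoprime x m → ¬ (3 : ℤ) ∣ x → H g m x y = 1

/-- Not necessarily coprime `(a, b)`, with norm prime to `3m` and `m ∣ b`. -/
lemma fin_triv (hg : PM g) {m : ℤ} (hm0 : m ≠ 0) (h : AllEven g m) {a b : ℤ}
    (hN : IsCoprime (nmZ a b) (3 * m)) (hmb : m ∣ b) : sv g ((a : ℚ), (b : ℚ)) = 1 := by
  have h3M : (3 : ℤ) ∣ 3 * m := ⟨m, rfl⟩
  have hab0 : ¬ (a = 0 ∧ b = 0) := by
    rintro ⟨rfl, rfl⟩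
    exact nmZ_ne_zero h3M hN (by simp [nmZ])
  have hd0 : (Int.gcd a b : ℤ) ≠ 0 := by
    intro h0
    have : Int.gcd a b = 0 := by exact_mod_cast h0
    rw [Int.gcd_eq_zero_iff] at this
    exact hab0 this
  obtain ⟨a', ha'⟩ := Int.gcd_dvd_left a b
  obtain ⟨b', hb'⟩ := Int.gcd_dvd_right a b
  have hgcd : (Int.gcd a b : ℤ) = Int.gcdA a b * a + Int.gcdB a b * b := by
    rw [Int.gcd_eq_gcd_ab]; ring
  set d : ℤ := (Int.gcd a b : ℤ) with hd
  have hcop : IsCoprime a' b' := by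
    refine ⟨Int.gcdA a b, Int.gcdB a b, ?_⟩
    have : d * (Int.gcdA a b * a' + Int.gcdB a b * b') = d * 1 := by
      rw [mul_one]
      calc d * (Int.gcdA a b * a' + Int.gcdB a b * b')
          = Int.gcdA a b * (d * a') + Int.gcdB a b * (d * b') := by ring
        _ = Int.gcdA a b * a + Int.gcdB a b * b := by rw [← ha', ← hb']
        _ = d := hgcd.symm
    exact mul_left_cancel₀ hd0 this
  have hNd : nmZ a b = d * (d * nmZ a' b') := by
    simp only [nmZ]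
    rw [ha', hb']; ring
  rw [hNd] at hN
  have hd3m : IsCoprime d (3 * m) := IsCoprime.of_mul_left_left hN
  have hN' : IsCoprime (nmZ a' b') (3 * m) :=
    IsCoprime.of_mul_left_right (IsCoprime.of_mul_left_right hN)
  have hmb' : m ∣ b' := by
    rw [hb'] at hmb
    exact (IsCoprime.of_mul_right_right hd3m).symm.dvd_of_dvd_mul_left hmb
  have h3 : ¬ (3 : ℤ) ∣ a' := by
    rintro ⟨c, hc⟩
    have h1 : (3 : ℤ) ∣ nmZ a' b' :=
      ⟨3 * c ^ 2 + a' * b' + b' ^ 2, by simp only [nmZ]; rw [hc]; ring⟩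
    have h2 := hN'.isUnit_of_dvd' h1 (Dvd.intro m rfl)
    rw [Int.isUnit_iff] at h2
    omega
  obtain ⟨b'', hb''⟩ := hmb'
  have hcop' : IsCoprime a' b'' := by
    rw [hb''] at hcop
    exact IsCoprime.of_mul_right_right hcop
  have hcopm : IsCoprime a' m := by
    rw [hb''] at hcop
    exact IsCoprime.of_mul_right_left hcop
  have h4 := h a' b'' hcop' hcopm h3
  have hF : F m a' b'' = nmZ a' b' := by
    simp only [F, nmZ]
    rw [hb'']; ring
  unfold H at h4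
  rw [hF] at h4
  have h5 : sv g ((a' : ℚ), (b' : ℚ)) = 1 := by
    unfold sv
    rw [nm_cast, gQ_int hg (nmZ_ne_zero h3M hN')]
    exact h4
  have hd0' : (d : ℚ) ≠ 0 := by exact_mod_cast hd0
  have h6 := sv_smul hg hd0' (iv_ne_zero hcop)
  simp only at h6
  rw [h5] at h6
  rw [← h6, ha', hb']
  push_cast
  rfl

lemma fin_square_aux (hg : PM g) {m : ℤ} (hm0 : m ≠ 0) (hm : AllEven g m) {c d r : ℤ}
    (hcop : IsCoprime (nmZ c d) (3 * m)) (hn : 3 * m ∣ nmZ c d - r ^ 2) (h3 : (3 : ℤ) ∣ r - c) :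
    g (nmZ c d).natAbs = 1 := by
  have h3M : (3 : ℤ) ∣ 3 * m := ⟨m, rfl⟩
  obtain ⟨u, v, huv⟩ := exists_theta (mul_ne_zero three_ne_zero hm0) hcop hn h3
  set w1 := (r + c) * u + 3 * (c + d) * v with hw1
  set w2 := d * u + (r - c) * v with hw2
  -- conjugate of `w`
  set b1 := w1 + 3 * w2 with hb1
  set b2 := -w2 with hb2
  have hbN : nmZ b1 b2 = nmZ w1 w2 := by simp only [nmZ, hb1, hb2]; ring
  have hbcop : IsCoprime (nmZ b1 b2) (3 * m) := by rw [hbN]; exact huv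
  -- `y = x w̄ w̄`
  set s1 := b1 * b1 - 3 * b2 * b2 with hs1
  set s2 := b1 * b2 + b2 * b1 + 3 * b2 * b2 with hs2
  set y1 := c * s1 - 3 * d * s2 with hy1
  set y2 := c * s2 + d * s1 + 3 * d * s2 with hy2
  have hyN : nmZ y1 y2 = nmZ c d * nmZ b1 b2 ^ 2 := by
    simp only [nmZ, hy1, hy2, hs1, hs2]; ring
  have hycop : IsCoprime (nmZ y1 y2) (3 * m) := by
    rw [hyN]; exact IsCoprime.mul_left hcop hbcop.pow_left
  have hmy : m ∣ y2 := by
    obtain ⟨e, he⟩ := hn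
    refine ⟨3 * e * (u * b2 + v * b1 + 3 * v * b2), ?_⟩
    have h1 : y2 = (nmZ c d - r ^ 2) * (u * b2 + v * b1 + 3 * v * b2) := by
      simp only [nmZ, hy2, hs1, hs2, hb1, hb2, hw1, hw2]; ring
    rw [h1, he]; ring
  have hy : sv g ((y1 : ℚ), (y2 : ℚ)) = 1 := fin_triv hg hm0 hm hycop hmy
  have hx0 := vec_ne_zero h3M hcop
  have hb0 := vec_ne_zero h3M hbcop
  have hv : ((y1 : ℚ), (y2 : ℚ)) =
      vmul ((c : ℚ), (d : ℚ)) (vmul ((b1 : ℚ), (b2 : ℚ)) ((b1 : ℚ), (b2 : ℚ))) := by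
    simp only [vmul, hy1, hy2, hs1, hs2]
    push_cast
    rfl
  rw [hv, sv_mul hg hx0 (vmul_ne_zero hb0 hb0), sv_mul hg hb0 hb0, sv_self hg hb0, mul_one] at hy
  unfold sv at hy
  rw [nm_cast, gQ_int hg (nmZ_ne_zero h3M hcop)] at hy
  exact hy

theorem fin_square (hg : PM g) {m : ℤ} (hm0 : m ≠ 0) (hm : AllEven g m) {c d r : ℤ}
    (hcop : IsCoprime (nmZ c d) (3 * m)) (hn : 3 * m ∣ nmZ c d - r ^ 2) :
    g (nmZ c d).natAbs = 1 := by
  have h1 : (3 : ℤ) ∣ (r - c) * (r + c) := by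
    obtain ⟨e, he⟩ := hn
    simp only [nmZ] at he
    exact ⟨c * d + d ^ 2 - m * e, by linear_combination -he⟩
  rcases Int.prime_three.dvd_mul.1 h1 with h | h
  · exact fin_square_aux hg hm0 hm hcop hn h
  · refine fin_square_aux (r := -r) hg hm0 hm hcop (by simpa using hn) ?_
    obtain ⟨e, he⟩ := h
    exact ⟨-e, by linarith⟩

/-- Rigidity modulo `3M`. -/
theorem fin_rigid (hg : PM g) {M : ℕ} (hM : 0 < M) (h : AllEven g (M : ℤ)) :
    Rigid g (3 * M) := by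
  rintro n ⟨a, b, hn⟩ hcop ⟨r, hr⟩
  have hm0 : (M : ℤ) ≠ 0 := by exact_mod_cast hM.ne'
  have hN : nmZ (a - b) b = n := by rw [hn]; simp only [nmZ]; ring
  have hc : IsCoprime (nmZ (a - b) b) (3 * (M : ℤ)) := by
    rw [hN]
    have := Nat.isCoprime_iff_coprime.2 hcop
    push_cast at this
    exact this
  have := fin_square hg hm0 h (r := r) hc (by rw [hN]; push_cast at hr; exact hr)
  rwa [hN, Int.natAbs_natCast] at this

theorem char_of_rigid' (hg : PM g) {N : ℕ} (hN : N ≠ 0) (h3N : 3 ∣ N) (hR : Rigid g N) :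
    ∃ χ : DirichletCharacter ℤ N, ∀ p, p.Prime → p % 3 = 1 → ¬ p ∣ N → g p = χ p := by
  classical
  have : NeZero N := ⟨hN⟩
  choose P hP using fun c : (ZMod N)ˣ => exists_prime_class h3N c
  have hPp : ∀ c, (P c).Prime := fun c => (hP c).1
  have hP1 : ∀ c, P c % 3 = 1 := fun c => (hP c).2.1
  have hPc : ∀ c, ∃ ε : ℤ, (ε = 1 ∨ ε = -1) ∧ (P c : ZMod N) = ε * c := fun c => (hP c).2.2
  have hcop : ∀ c, Nat.Coprime (P c) N := by
    intro c
    obtain ⟨ε, hε, h⟩ := hPc c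
    exact coprime_of_class hε h
  let φ0 : (ZMod N)ˣ → ℤˣ := fun c => if g (P c) = 1 then 1 else -1
  have hφ0 : ∀ c, ((φ0 c : ℤˣ) : ℤ) = g (P c) := by
    intro c
    simp only [φ0]
    split_ifs with h
    · rw [h]; rfl
    · rcases hg.val (P c) (hPp c).ne_zero with h1 | h1
      · exact absurd h1 h
      · rw [h1]; rfl
  have hmul : ∀ a b, φ0 (a * b) = φ0 a * φ0 b := by
    intro a b
    apply Units.ext
    rw [Units.val_mul, hφ0, hφ0, hφ0]
    obtain ⟨ε₁, hε₁, h1⟩ := hPc a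
    obtain ⟨ε₂, hε₂, h2⟩ := hPc b
    obtain ⟨ε₃, hε₃, h3⟩ := hPc (a * b)
    have hn : g (P a * P b * P (a * b)) = 1 := by
      refine rigid_apply h3N hR (ε := ε₁ * ε₂ * ε₃) (r := (((a * b : (ZMod N)ˣ) : ZMod N).val : ℤ))
        ?_ ?_ ?_ ?_ ?_
      · push_cast
        exact ((isNm_prime (hPp a) (hP1 a)).mul (isNm_prime (hPp b) (hP1 b))).mul
          (isNm_prime (hPp _) (hP1 _))
      · exact Nat.Coprime.mul_left (Nat.Coprime.mul_left (hcop a) (hcop b)) (hcop _)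
      · simp [Nat.mul_mod, hP1]
      · rcases hε₁ with rfl | rfl <;> rcases hε₂ with rfl | rfl <;> rcases hε₃ with rfl | rfl <;>
          norm_num
      · push_cast
        rw [h1, h2, h3, ZMod.natCast_zmod_val]
        push_cast
        ring
    rw [hg.mul _ _ (mul_ne_zero (hPp a).ne_zero (hPp b).ne_zero) (hPp _).ne_zero,
      hg.mul _ _ (hPp a).ne_zero (hPp b).ne_zero] at hn
    rcases hg.val (P a) (hPp a).ne_zero with e1 | e1 <;>
      rcases hg.val (P b) (hPp b).ne_zero with e2 | e2 <;>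
      rcases hg.val (P (a * b)) (hPp _).ne_zero with e3 | e3 <;>
      rw [e1, e2, e3] at hn ⊢ <;> revert hn <;> decide
  let φ : (ZMod N)ˣ →* ℤˣ := MonoidHom.mk' φ0 hmul
  refine ⟨MulChar.ofUnitHom φ, ?_⟩
  intro p hp hp3 hpd
  have hpN : Nat.Coprime p N := hp.coprime_iff_not_dvd.2 hpd
  have h1 : (p : ZMod N) = ((ZMod.unitOfCoprime p hpN : (ZMod N)ˣ) : ZMod N) := by
    rw [ZMod.coe_unitOfCoprime]
  obtain ⟨u, hu⟩ : ∃ u, u = ZMod.unitOfCoprime p hpN := ⟨_, rfl⟩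
  rw [← hu] at h1
  rw [h1, MulChar.ofUnitHom_coe]
  change g p = ((φ0 u : ℤˣ) : ℤ)
  rw [hφ0]
  obtain ⟨ε, hε, h2⟩ := hPc u
  have hn : g (p * P u) = 1 := by
    refine rigid_apply h3N hR (ε := ε) (r := (p : ℤ)) ?_ ?_ ?_ hε ?_
    · push_cast
      exact (isNm_prime hp hp3).mul (isNm_prime (hPp u) (hP1 u))
    · exact Nat.Coprime.mul_left hpN (hcop u)
    · simp [Nat.mul_mod, hP1, hp3]
    · push_cast
      rw [h2, h1]
      ring
  rw [hg.mul _ _ hp.ne_zero (hPp u).ne_zero] at hn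
  rcases hg.val p hp.ne_zero with e1 | e1 <;>
    rcases hg.val (P u) (hPp u).ne_zero with e2 | e2 <;>
    rw [e1, e2] at hn ⊢ <;> revert hn <;> decide

/-- `g` is a Dirichlet character at the primes `p ≡ 1 (mod 3)`, `p ∤ m` -/
theorem char_of_even (hg : PM g) {M : ℕ} (hM : 0 < M)
    (h : ∀ x y : ℤ, IsCoprime x y → IsCoprime x (M : ℤ) → ¬ (3 : ℤ) ∣ x → H g (M : ℤ) x y = 1) :
    ∃ χ : DirichletCharacter ℤ (3 * M), ∀ p : ℕ, p.Prime → p % 3 = 1 → ¬ p ∣ M → g p = χ p := by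
  obtain ⟨χ, hχ⟩ := char_of_rigid' hg (N := 3 * M) (by omega) (dvd_mul_right 3 M)
    (fin_rigid hg hM h)
  refine ⟨χ, fun p hp h3 hpM => hχ p hp h3 fun hd => ?_⟩
  rcases hp.dvd_mul.1 hd with h1 | h1
  · have := (Nat.prime_dvd_prime_iff_eq hp Nat.prime_three).1 h1
    omega
  · exact hpM h1

/-- for the Liouville function this is impossible -/
theorem lio_contra {M : ℕ} (hM : 0 < M)
    (h : ∀ x y : ℤ, IsCoprime x y → IsCoprime x (M : ℤ) → ¬ (3 : ℤ) ∣ x →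
      H Pool.Agent.H41.Per.lio (M : ℤ) x y = 1) : False := by
  have hq : (3 * M : ℕ) ≠ 0 := by omega
  obtain ⟨p, -, hp, hpa⟩ := Nat.forall_exists_prime_gt_and_zmodEq 0 hq
    (isCoprime_one_left : IsCoprime (1 : ℤ) _)
  have h1 : ((3 * M : ℕ) : ℤ) ∣ p - 1 := Int.modEq_iff_dvd.1 hpa.symm
  have h3 : p % 3 = 1 := by
    obtain ⟨e, he⟩ := h1
    push_cast at he
    have h2 : (p : ℤ) = 1 + 3 * (M * e) := by linarith
    omega
  have hcop : Nat.Coprime p (3 * M) := by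
    have : IsCoprime (p : ℤ) ((3 * M : ℕ) : ℤ) := by
      obtain ⟨e, he⟩ := h1
      exact ⟨1, -e, by linarith⟩
    exact Nat.isCoprime_iff_coprime.1 this
  have h2 := fin_rigid lio_pm hM h p (isNm_prime hp h3) hcop ⟨1, by simpa using h1⟩
  rw [lio_prime hp] at h2
  norm_num at h2

end Pool.Agent.H48.AP
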