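import Pool.Agent.H48.AP.Fan2

/-! Part A: if `g (3k²+3k+1)` is constant for large `k ≡ r (mod m)` then the odd vertices of every
row are sparse. -/

set_option autoImplicit false

namespace Pool.Agent.H48.AP

open Finset
open Pool.Agent.H41.Per (PM)
open Pool.Agent.H95.Gol (bb bb_pos two_le_bb bb_mono)

variable {g : ℕ → ℤ} {m : ℤ}

/-- `∑ 1 / (Q i)` is unbounded -/
lemma harmonic_large (Q : ℕ) (hQ : 0 < Q) (κ : ℕ) :
    ∃ N : ℕ, (κ : ℝ) ≤ ∑ i ∈ Icc 1 N, 1 / ((Q : ℝ) * i) := by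
  have h := Real.tendsto_sum_range_one_div_nat_succ_atTop
  rw [Filter.tendsto_atTop_atTop] at h
  obtain ⟨N, hN⟩ := h (Q * κ)
  refine ⟨N, ?_⟩
  have h1 := hN N le_rfl
  have h2 : ∑ i ∈ Icc 1 N, 1 / ((Q : ℝ) * i) = (1 / (Q : ℝ)) * ∑ i ∈ range N, 1 / ((i : ℝ) + 1) := by
    have e : Icc 1 N = Ico (0 + 1) (N + 1) := by
      ext i; simp only [mem_Icc, mem_Ico]; omega
    rw [e, ← Finset.sum_Ico_add' (fun i : ℕ => 1 / ((Q : ℝ) * i)) 0 N 1, mul_sum,
      ← Finset.range_eq_Ico]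
    refine sum_congr rfl fun i _ => ?_
    push_cast
    rw [one_div_mul_one_div]
  rw [h2]
  have hQ' : (0 : ℝ) < Q := by exact_mod_cast hQ
  rw [one_div_mul_eq_div, le_div_iff₀ hQ']
  linarith

/-- the type coded by a function into a finite type -/
def tcode (N R : ℕ) (τ : Fin (N + 1) → Fin (R + 1) × Fin (R + 1)) (i : ℕ) : ℕ × ℕ :=
  if h : i < N + 1 then (((τ ⟨i, h⟩).1 : ℕ), ((τ ⟨i, h⟩).2 : ℕ)) else (1, 1)

open Classical in
/-- all types at once -/
theorem fan_union (M : ℕ) (hM : 0 < M) (N κ Q Z : ℕ)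
    (hN : (κ : ℝ) ≤ ∑ i ∈ Icc 1 N, 1 / ((Q : ℝ) * i)) :
    ∃ (A : ℕ) (C : ℝ), 0 < C ∧ ∀ K J : ℕ, (bb K) ^ A ≤ J →
      (((range J).filter (fun u : ℕ => ∀ i ∈ Icc 1 N, ∃ q s : ℕ, 0 < q ∧ q ≤ Q * i ∧ 3 ∣ q ∧
        s % 3 = 1 ∧ s < q ∧ s.Coprime q ∧ ∀ p : ℕ, p.Prime → Z < p → p ≤ bb K →
        p ≡ s [MOD q] → ¬ (p : ℤ) ∣ F M (1 + 3 * M * (u + i)) 1)).card : ℝ) ≤
      C * J / 2 ^ (κ * K) := by
  obtain ⟨A, hA⟩ := fan_sieve M hM N κ Q Z hN
  have h1 : ∀ τ : Fin (N + 1) → Fin (Q * N + 1) × Fin (Q * N + 1), ∃ C : ℝ, 0 < C ∧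
      (TV N Q (tcode N (Q * N) τ) → ∀ K J : ℕ, (bb K) ^ A ≤ J →
      (((range J).filter (fun u : ℕ => ∀ i ∈ Icc 1 N, ∀ p : ℕ, p.Prime → Z < p → p ≤ bb K →
        p ≡ (tcode N (Q * N) τ i).2 [MOD (tcode N (Q * N) τ i).1] →
          ¬ (p : ℤ) ∣ F M (1 + 3 * M * (u + i)) 1)).card : ℝ) ≤ C * J / 2 ^ (κ * K)) := by
    intro τ
    by_cases hτ : TV N Q (tcode N (Q * N) τ)
    · obtain ⟨C, hC, h⟩ := hA _ hτ
      exact ⟨C, hC, fun _ => h⟩
    · exact ⟨1, one_pos, fun h => absurd h hτ⟩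
  choose Cτ hCτ hcnt using h1
  refine ⟨A, ∑ τ, Cτ τ, ?_, ?_⟩
  · have : Nonempty (Fin (N + 1) → Fin (Q * N + 1) × Fin (Q * N + 1)) := ⟨fun _ => (0, 0)⟩
    exact sum_pos (fun τ _ => hCτ τ) univ_nonempty
  intro K J hJ
  set Sτ : (Fin (N + 1) → Fin (Q * N + 1) × Fin (Q * N + 1)) → Finset ℕ := fun τ =>
    (range J).filter (fun u : ℕ => ∀ i ∈ Icc 1 N, ∀ p : ℕ, p.Prime → Z < p → p ≤ bb K →
        p ≡ (tcode N (Q * N) τ i).2 [MOD (tcode N (Q * N) τ i).1] →
          ¬ (p : ℤ) ∣ F M (1 + 3 * M * (u + i)) 1) with hSτ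
  have hsub : ((range J).filter (fun u : ℕ => ∀ i ∈ Icc 1 N, ∃ q s : ℕ, 0 < q ∧ q ≤ Q * i ∧ 3 ∣ q ∧
        s % 3 = 1 ∧ s < q ∧ s.Coprime q ∧ ∀ p : ℕ, p.Prime → Z < p → p ≤ bb K →
        p ≡ s [MOD q] → ¬ (p : ℤ) ∣ F M (1 + 3 * M * (u + i)) 1)) ⊆
      (univ.filter (fun τ => TV N Q (tcode N (Q * N) τ))).biUnion Sτ := by
    intro u hu
    rw [mem_filter] at hu
    obtain ⟨huJ, hu⟩ := hu
    choose! q s h using hu
    have hle : ∀ i ∈ Icc 1 N, q i < Q * N + 1 ∧ s i < Q * N + 1 := by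
      intro i hi
      obtain ⟨h1, h2, h3, h4, h5, h6, h7⟩ := h i hi
      have : Q * i ≤ Q * N := Nat.mul_le_mul_left _ (mem_Icc.mp hi).2
      omega
    set τ : Fin (N + 1) → Fin (Q * N + 1) × Fin (Q * N + 1) := fun i =>
      if hi : (i : ℕ) ∈ Icc 1 N then (⟨q i, (hle i hi).1⟩, ⟨s i, (hle i hi).2⟩) else (0, 0) with hτ
    have hval : ∀ i ∈ Icc 1 N, tcode N (Q * N) τ i = (q i, s i) := by
      intro i hi
      have h1 : i < N + 1 := by have := mem_Icc.mp hi; omega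
      unfold tcode
      rw [dif_pos h1]
      simp only [hτ]
      rw [dif_pos hi]
    rw [mem_biUnion]
    refine ⟨τ, ?_, ?_⟩
    · rw [mem_filter]
      refine ⟨mem_univ _, ?_⟩
      intro i hi
      obtain ⟨h1, h2, h3, h4, h5, h6, h7⟩ := h i hi
      rw [hval i hi]
      exact ⟨h1, h2, h3, h4, h6⟩
    · rw [hSτ, mem_filter]
      refine ⟨huJ, ?_⟩
      intro i hi
      obtain ⟨h1, h2, h3, h4, h5, h6, h7⟩ := h i hi
      rw [hval i hi]
      exact h7
  calc _ ≤ (((univ.filter (fun τ => TV N Q (tcode N (Q * N) τ))).biUnion Sτ).card : ℝ) :=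
        Nat.cast_le.mpr (card_le_card hsub)
    _ ≤ ∑ τ ∈ univ.filter (fun τ => TV N Q (tcode N (Q * N) τ)), ((Sτ τ).card : ℝ) := by
        exact_mod_cast card_biUnion_le
    _ ≤ ∑ τ ∈ univ.filter (fun τ => TV N Q (tcode N (Q * N) τ)), Cτ τ * J / 2 ^ (κ * K) := by
        refine sum_le_sum fun τ hτ => ?_
        rw [mem_filter] at hτ
        exact hcnt τ hτ.2 K J hJ
    _ ≤ ∑ τ, Cτ τ * J / 2 ^ (κ * K) := by
        refine sum_le_sum_of_subset_of_nonneg (subset_univ _) fun τ _ _ => ?_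
        have := (hCτ τ).le
        positivity
    _ = _ := by rw [← sum_div, ← sum_mul]

/-- `j ^ κ ≤ C √(2^j)` -/
lemma pow_le_sqrt (κ : ℕ) : ∃ C : ℝ, 0 < C ∧ ∀ j : ℕ, ((j : ℝ) ^ κ) ^ 2 ≤ C ^ 2 * 2 ^ j := by
  have h := (tendsto_pow_const_div_const_pow_of_one_lt (2 * κ) (r := (2 : ℝ)) (by norm_num)).bddAbove_range
  obtain ⟨B, hB⟩ := h
  refine ⟨max B 1, by positivity, ?_⟩
  intro j
  have h1 : (j : ℝ) ^ (2 * κ) / 2 ^ j ≤ B := hB ⟨j, rfl⟩
  have h2 : (j : ℝ) ^ (2 * κ) / 2 ^ j ≤ max B 1 := h1.trans (le_max_left _ _)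
  rw [div_le_iff₀ (by positivity)] at h2
  rw [← pow_mul, mul_comm κ 2]
  refine h2.trans (mul_le_mul_of_nonneg_right ?_ (by positivity))
  have h3 : 1 ≤ max B 1 := le_max_right _ _
  nlinarith

theorem sparse_of_const (hg : PM g) (hm : 0 < m) {r : ℤ} (hc : ConstOn g m r) : Sparse g m := by
  classical
  obtain ⟨ε, K0, hc⟩ := hc
  obtain ⟨M, rfl⟩ : ∃ M : ℕ, m = M := ⟨m.toNat, by omega⟩
  have hM : 0 < M := by exact_mod_cast hm
  intro b hb κ
  set Q : ℕ := 12 * M ^ 3 * b with hQ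
  have hQ0 : 0 < Q := by positivity
  obtain ⟨N, hN⟩ := harmonic_large Q hQ0 κ
  set Bm : ℕ := 4 * M * b * (N + 1) with hBm
  obtain ⟨A, C1, hC1, hfan⟩ := fan_union M hM N κ Q Bm hN
  obtain ⟨C3, hC3, hsqrt⟩ := pow_le_sqrt κ
  set A' : ℕ := A + 2 with hA'
  set k : ℕ := K0.natAbs with hk
  have hkabs : |K0| = (k : ℤ) := by rw [hk]; exact Int.abs_eq_natAbs K0
  set R : ℕ := 2 * b + 6 * M * b * (k + 1) + 2 * Bm + 6 * M * Bm * (k + 1) * Bm with hR
  refine ⟨R * C3 + 3 * M * b * C1 * (2 * A') ^ κ + A' ^ κ, by positivity, ?_⟩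
  intro j hj
  have hjR : (0 : ℝ) < (j : ℝ) ^ κ := by
    have : (0 : ℝ) < j := by exact_mod_cast hj
    positivity
  rw [le_div_iff₀ hjR]
  rcases lt_or_ge j A' with hjA | hjA
  · -- small `j`
    have h1 : (oddCount g M b (2 ^ j) : ℝ) ≤ 2 ^ j := by
      have : oddCount g M b (2 ^ j) ≤ 2 ^ j := by
        unfold oddCount
        exact (card_filter_le _ _).trans (by rw [Nat.card_Icc, Nat.add_sub_cancel])
      exact_mod_cast this
    have h2 : (j : ℝ) ^ κ ≤ (A' : ℝ) ^ κ :=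
      pow_le_pow_left₀ (Nat.cast_nonneg _) (by exact_mod_cast hjA.le) _
    calc (oddCount g M b (2 ^ j) : ℝ) * (j : ℝ) ^ κ ≤ 2 ^ j * (A' : ℝ) ^ κ :=
          mul_le_mul h1 h2 hjR.le (by positivity)
      _ ≤ _ := by
          have : 0 ≤ R * C3 + 3 * M * b * C1 * (2 * A' : ℝ) ^ κ := by positivity
          nlinarith [mul_nonneg this (by positivity : (0 : ℝ) ≤ 2 ^ j)]
  · set K : ℕ := Nat.log 2 (j / A') with hK
    have hA'0 : 0 < A' := by omega
    have hdiv0 : j / A' ≠ 0 := by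
      have := Nat.div_pos hjA hA'0
      omega
    have h1 : 2 ^ K * A' ≤ j := by
      have := Nat.pow_log_le_self 2 hdiv0
      calc 2 ^ K * A' ≤ (j / A') * A' := Nat.mul_le_mul_right _ this
        _ ≤ j := Nat.div_mul_le_self _ _
    have h2 : j < 2 * A' * 2 ^ K := by
      have h3 := Nat.lt_pow_succ_log_self (b := 2) (by norm_num) (j / A')
      rw [← hK, pow_succ] at h3
      have h4 := Nat.lt_mul_div_succ j hA'0
      have h5 : A' * (j / A' + 1) ≤ A' * (2 ^ K * 2) := Nat.mul_le_mul_left _ (by omega)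
      calc j < A' * (j / A' + 1) := h4
        _ ≤ A' * (2 ^ K * 2) := h5
        _ = _ := by ring
    have hbbA' : (bb K) ^ A' ≤ 2 ^ j := by
      unfold Pool.Agent.H95.Gol.bb
      rw [← pow_mul]
      exact Nat.pow_le_pow_right (by norm_num) h1
    have hbbA : (bb K) ^ A ≤ 2 ^ j :=
      (Nat.pow_le_pow_right (bb_pos K) (by omega)).trans hbbA'
    have hbb2 : (bb K) ^ 2 ≤ 2 ^ j :=
      (Nat.pow_le_pow_right (bb_pos K) (by omega)).trans hbbA'
    -- the set of `u`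
    set U : Finset ℕ := (range (2 ^ j)).filter (fun u : ℕ => ∀ i ∈ Icc 1 N, ∃ q s : ℕ, 0 < q ∧
        q ≤ Q * i ∧ 3 ∣ q ∧ s % 3 = 1 ∧ s < q ∧ s.Coprime q ∧ ∀ p : ℕ, p.Prime → Bm < p →
        p ≤ bb K → p ≡ s [MOD q] → ¬ (p : ℤ) ∣ F M (1 + 3 * M * (u + i)) 1) with hU
    have hUcard : (U.card : ℝ) ≤ C1 * 2 ^ j / 2 ^ (κ * K) := by
      have := hfan K (2 ^ j) hbbA
      push_cast at this
      convert this using 3
    -- the odd vertices
    set O : Finset ℕ := (Icc 1 (2 ^ j)).filter (fun a : ℕ => Vx M a b ∧ H g M a b = -1) with hO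
    have hOc : oddCount g M b (2 ^ j) = O.card := by
      unfold oddCount
      rw [hO]
    set L : ℕ := 3 * M * b with hL
    have hL0 : 0 < L := by positivity
    have hmem : ∀ a ∈ O, R * bb K ≤ a → a / L ∈ U := by
      intro a ha haR
      rw [hO, mem_filter, mem_Icc] at ha
      obtain ⟨⟨ha1, ha2⟩, hV, ho⟩ := ha
      have hbb1 : 1 ≤ bb K := bb_pos K
      have haR' : R ≤ a := le_trans (by nlinarith) haR
      rw [hU, mem_filter, mem_range]
      refine ⟨?_, ?_⟩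
      · have h3 : a / L < a := Nat.div_lt_self (by omega) (by nlinarith)
        omega
      intro i hi
      rw [mem_Icc] at hi
      set u : ℕ := a / L with hu
      have hu1 : L * u ≤ a := Nat.mul_div_le a L
      have hu2 : a < L * (u + 1) := Nat.lt_mul_div_succ a hL0
      -- `x`
      set x : ℕ := 1 + 3 * M * (u + i) with hx
      have hbx : b * x = b + L * (u + i) := by rw [hx, hL]; ring
      have hxa : a < b * x := by
        rw [hbx]
        have : L * (u + 1) ≤ L * (u + i) := Nat.mul_le_mul_left _ (by omega)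
        omega
      set B : ℕ := 4 * M * b * i with hB
      have hBle : B ≤ Bm := by
        rw [hB, hBm]
        exact Nat.mul_le_mul_left _ (by omega)
      have hB2 : b * x ≤ a + B := by
        rw [hbx, mul_add]
        have h3 : b + L * i ≤ B := by
          rw [hB, hL]
          have : b ≤ M * b * i := by
            calc b = 1 * b * 1 := by ring
              _ ≤ M * b * i := Nat.mul_le_mul (Nat.mul_le_mul_right _ hM) hi.1
          nlinarith
        omega
      have hRz : 2 * b * bb K ≤ a ∧ 6 * M * b * (k + 1) ≤ a ∧ 2 * Bm * bb K ≤ a ∧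
          6 * M * Bm * (k + 1) * Bm ≤ a := by
        refine ⟨?_, ?_, ?_, ?_⟩
        · refine le_trans (Nat.mul_le_mul_right _ ?_) haR
          rw [hR]; omega
        · refine le_trans ?_ haR'
          rw [hR]; omega
        · refine le_trans (Nat.mul_le_mul_right _ ?_) haR
          rw [hR]; omega
        · refine le_trans ?_ haR'
          rw [hR]; omega
      obtain ⟨hz1, hz2, hz3, hz4⟩ := hRz
      have hx1 : 1 ≤ x := by omega
      have hbpos : (0 : ℤ) < b := by exact_mod_cast hb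
      have hc1 : 2 * bb K ≤ x := by
        have : b * (2 * bb K) ≤ b * x := by nlinarith
        exact Nat.le_of_mul_le_mul_left this hb
      have hc2 : 6 * M * (k + 1) ≤ x := by
        have : b * (6 * M * (k + 1)) ≤ b * x := by nlinarith
        exact Nat.le_of_mul_le_mul_left this hb
      have hc3 : 2 * bb K * B ≤ a * x := by
        calc 2 * bb K * B ≤ 2 * bb K * Bm := Nat.mul_le_mul_left _ hBle
          _ = 2 * Bm * bb K := by ring
          _ ≤ a * 1 := by omega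
          _ ≤ a * x := Nat.mul_le_mul_left _ hx1
      have hc4 : 6 * M * B * (k + 1) * B ≤ a * x := by
        calc 6 * M * B * (k + 1) * B ≤ 6 * M * Bm * (k + 1) * Bm := by gcongr
          _ ≤ a * 1 := by omega
          _ ≤ a * x := Nat.mul_le_mul_left _ hx1
      obtain ⟨q, s, hq0, hqle, hq3, hs3, hsq, hp⟩ := odd_type (a := (a : ℤ)) (b := (b : ℤ))
        (x := (x : ℤ)) (B := (B : ℤ)) (z := (bb K : ℤ)) hg hm hc (by exact_mod_cast ha1) hbpos hV ho
        (by rw [hx]; push_cast; exact ⟨(u : ℤ) + i, by ring⟩) (by exact_mod_cast hx1)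
        (by exact_mod_cast hxa) (by
          have : ((b * x : ℕ) : ℤ) ≤ ((a + B : ℕ) : ℤ) := by exact_mod_cast hB2
          push_cast at this
          linarith) (by exact_mod_cast hc1) (by rw [hkabs]; exact_mod_cast hc2)
        (by exact_mod_cast hc3) (by rw [hkabs]; exact_mod_cast hc4)
      have hsm0 : 0 ≤ s % q := Int.emod_nonneg _ hq0.ne'
      have hsm1 : s % q < q := Int.emod_lt_of_pos _ hq0
      obtain ⟨q', rfl⟩ : ∃ q' : ℕ, q = q' := ⟨q.toNat, by omega⟩
      obtain ⟨s', hs'⟩ : ∃ s' : ℕ, s % (q' : ℤ) = s' := ⟨(s % q').toNat, by omega⟩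
      have hqs : (q' : ℤ) ∣ s - s' := by
        rw [← hs']
        exact Int.dvd_self_sub_emod
      refine ⟨q', s', by exact_mod_cast hq0, ?_, by exact_mod_cast hq3, ?_, by omega, ?_, ?_⟩
      · have h3 : (q' : ℤ) ≤ ((3 * M ^ 2 * B : ℕ) : ℤ) := by push_cast; exact hqle
        have h4 : q' ≤ 3 * M ^ 2 * B := by exact_mod_cast h3
        refine h4.trans (le_of_eq ?_)
        rw [hB, hQ]; ring
      · have h3 := hq3.trans hqs
        omega
      · rw [← Nat.isCoprime_iff_coprime]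
        obtain ⟨e, he⟩ := hqs
        have : (s' : ℤ) = s + q' * (-e) := by linarith
        rw [this]
        exact IsCoprime.add_mul_left_left hsq _
      · intro p hpp hpB hpz hps hd
        refine hp p hpp ?_ (by exact_mod_cast hpz) ?_ ?_
        · have : B < p := by omega
          exact_mod_cast this
        · have h3 : (q' : ℤ) ∣ (p : ℤ) - s' := by
            have := (Nat.modEq_iff_dvd.mp hps.symm)
            exact this
          have h4 := h3.sub hqs
          have e : (p : ℤ) - s' - (s - s') = p - s := by ring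
          rwa [e] at h4
        · rw [hx]
          push_cast
          exact hd
    -- counting
    have hcardO : (O.card : ℝ) ≤ R * bb K + L * U.card := by
      have h3 : O ⊆ Icc 1 (R * bb K) ∪ O.filter (fun a => R * bb K ≤ a) := by
        intro a ha
        rw [mem_union, mem_filter, mem_Icc]
        have := (mem_Icc.mp (mem_filter.mp ha).1).1
        by_cases h : R * bb K ≤ a
        · right; exact ⟨ha, h⟩
        · left; omega
      have h4 : (O.filter (fun a => R * bb K ≤ a)).card ≤ L * U.card := by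
        have h5 : ((O.filter (fun a => R * bb K ≤ a)).image (fun a => a / L)) ⊆ U := by
          intro u hu
          rw [mem_image] at hu
          obtain ⟨a, ha, rfl⟩ := hu
          rw [mem_filter] at ha
          exact hmem a ha.1 ha.2
        refine (card_le_mul_card_image (f := fun a => a / L) _ L ?_).trans
          (Nat.mul_le_mul_left _ (card_le_card h5))
        intro u _
        have h6 : (O.filter (fun a => R * bb K ≤ a)).filter (fun a => a / L = u) ⊆
            Ico (L * u) (L * u + L) := by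
          intro a ha
          rw [mem_filter] at ha
          rw [mem_Ico]
          have h7 := Nat.mul_div_le a L
          have h8 := Nat.lt_mul_div_succ a hL0
          rw [ha.2] at h7 h8
          have : L * (u + 1) = L * u + L := by ring
          omega
        refine (card_le_card h6).trans ?_
        rw [Nat.card_Ico]; omega
      have h5 := (card_le_card h3).trans (card_union_le _ _)
      rw [Nat.card_Icc] at h5
      have h6 : O.card ≤ R * bb K + L * U.card := by omega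
      exact_mod_cast h6
    rw [hOc]
    have hbbr : (bb K : ℝ) * (j : ℝ) ^ κ ≤ C3 * 2 ^ j := by
      have h3 : ((bb K : ℝ)) ^ 2 ≤ 2 ^ j := by exact_mod_cast hbb2
      have h4 := hsqrt j
      apply le_of_sq_le_sq _ (by positivity)
      calc ((bb K : ℝ) * (j : ℝ) ^ κ) ^ 2 = (bb K : ℝ) ^ 2 * ((j : ℝ) ^ κ) ^ 2 := by ring
        _ ≤ 2 ^ j * (C3 ^ 2 * 2 ^ j) := mul_le_mul h3 h4 (by positivity) (by positivity)
        _ = (C3 * 2 ^ j) ^ 2 := by ring
    have hjK : (j : ℝ) ^ κ ≤ (2 * A') ^ κ * 2 ^ (κ * K) := by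
      have h3 : (j : ℝ) ≤ 2 * A' * 2 ^ K := by exact_mod_cast h2.le
      calc (j : ℝ) ^ κ ≤ (2 * A' * 2 ^ K) ^ κ := pow_le_pow_left₀ (Nat.cast_nonneg _) h3 _
        _ = (2 * A') ^ κ * 2 ^ (κ * K) := by rw [mul_pow, ← pow_mul, mul_comm κ K]
    have hUj : (U.card : ℝ) * (j : ℝ) ^ κ ≤ C1 * 2 ^ j * (2 * A') ^ κ := by
      have h3 : (0 : ℝ) < 2 ^ (κ * K) := by positivity
      calc (U.card : ℝ) * (j : ℝ) ^ κ ≤ (C1 * 2 ^ j / 2 ^ (κ * K)) * ((2 * A') ^ κ * 2 ^ (κ * K)) :=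
            mul_le_mul hUcard hjK hjR.le (by positivity)
        _ = C1 * 2 ^ j * (2 * A') ^ κ := by field_simp
    have hLr : (L : ℝ) = 3 * M * b := by rw [hL]; push_cast; ring
    calc (O.card : ℝ) * (j : ℝ) ^ κ ≤ (R * bb K + L * U.card) * (j : ℝ) ^ κ :=
          mul_le_mul_of_nonneg_right hcardO hjR.le
      _ = R * (bb K * (j : ℝ) ^ κ) + L * (U.card * (j : ℝ) ^ κ) := by ring
      _ ≤ R * (C3 * 2 ^ j) + L * (C1 * 2 ^ j * (2 * A') ^ κ) :=
          add_le_add (mul_le_mul_of_nonneg_left hbbr (Nat.cast_nonneg _))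
            (mul_le_mul_of_nonneg_left hUj (Nat.cast_nonneg _))
      _ ≤ _ := by
          rw [hLr]
          have : (0 : ℝ) ≤ A' ^ κ * 2 ^ j := by positivity
          nlinarith

end Pool.Agent.H48.AP
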