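import Pool.Agent.H48.AP.Alg

/-!
From vertices near the real axis to all vertices: multiply by squares `z ^ 2`.
-/

set_option autoImplicit false

namespace Pool.Agent.H48.AP

open Pool.Agent.H41.Per (PM)
open Filter Topology

variable {g : ℕ → ℤ} {m : ℤ}

/-- first coordinate of `w z²` -/
def spA {R : Type} [CommRing R] (m x y u v : R) : R :=
  x * (u ^ 2 - 3 * m ^ 2 * v ^ 2) - 3 * m ^ 2 * y * (2 * u * v + 3 * m * v ^ 2)

/-- second coordinate of `w z²` -/
def spB {R : Type} [CommRing R] (m x y u v : R) : R :=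
  x * (2 * u * v + 3 * m * v ^ 2) + y * (u ^ 2 - 3 * m ^ 2 * v ^ 2) +
    3 * m * y * (2 * u * v + 3 * m * v ^ 2)

/-- `θ = (3 + √-3)/2` -/
noncomputable def spT : ℂ := ⟨3 / 2, Real.sqrt 3 / 2⟩

lemma spT_sq : spT ^ 2 = 3 * spT - 3 := by
  have hs3 : Real.sqrt 3 * Real.sqrt 3 = 3 := Real.mul_self_sqrt (by norm_num)
  rw [sq]
  apply Complex.ext
  · simp only [spT, Complex.mul_re, Complex.sub_re, Complex.re_ofNat, Complex.im_ofNat]
    nlinarith
  · simp only [spT, Complex.mul_im, Complex.sub_im, Complex.re_ofNat, Complex.im_ofNat]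
    ring

lemma spT_re (a b : ℝ) : ((a : ℂ) + (b : ℂ) * spT).re = a + b * (3 / 2) := by
  simp [spT]

lemma spT_im (a b : ℝ) : ((a : ℂ) + (b : ℂ) * spT).im = b * (Real.sqrt 3 / 2) := by
  simp [spT]

lemma spT_inj {a b a' b' : ℝ} (h : (a : ℂ) + (b : ℂ) * spT = (a' : ℂ) + (b' : ℂ) * spT) :
    a = a' ∧ b = b' := by
  have hs0 : 0 < Real.sqrt 3 / 2 := by positivity
  have him := congrArg Complex.im h
  have hre := congrArg Complex.re h
  rw [spT_im, spT_im] at him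
  rw [spT_re, spT_re] at hre
  have hb : b = b' := mul_right_cancel₀ hs0.ne' him
  refine ⟨?_, hb⟩
  rw [hb] at hre
  linarith

lemma sp_real (m x y K : ℝ) (hm : 0 < m) (hxy : x ≠ 0) :
    ∃ s t : ℝ, spA m x y s t = K ∧ spB m x y s t = 1 := by
  have hs0 : 0 < Real.sqrt 3 / 2 := by positivity
  have hw : (x : ℂ) + ((y * m : ℝ) : ℂ) * spT ≠ 0 := by
    intro h0
    have h1 : (x : ℂ) + ((y * m : ℝ) : ℂ) * spT = ((0 : ℝ) : ℂ) + ((0 : ℝ) : ℂ) * spT := by
      rw [h0]; simp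
    exact hxy (spT_inj h1).1
  obtain ⟨z0, hz0⟩ := IsAlgClosed.exists_pow_nat_eq
    (((K : ℂ) + (m : ℂ) * spT) / ((x : ℂ) + ((y * m : ℝ) : ℂ) * spT)) (n := 2) (by norm_num)
  set t : ℝ := z0.im / (m * (Real.sqrt 3 / 2)) with ht
  set s : ℝ := z0.re - 3 / 2 * m * t with hs
  have hz : z0 = (s : ℂ) + ((t * m : ℝ) : ℂ) * spT := by
    have htm : t * m * (Real.sqrt 3 / 2) = z0.im := by
      rw [ht]; field_simp
    apply Complex.ext
    · rw [spT_re, hs]; ring
    · rw [spT_im, htm]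
  have hmain : ((x : ℂ) + ((y * m : ℝ) : ℂ) * spT) * ((s : ℂ) + ((t * m : ℝ) : ℂ) * spT) ^ 2 =
      (K : ℂ) + (m : ℂ) * spT := by
    rw [← hz, hz0, mul_div_cancel₀ _ hw]
  have hexp : ((x : ℂ) + ((y * m : ℝ) : ℂ) * spT) * ((s : ℂ) + ((t * m : ℝ) : ℂ) * spT) ^ 2 =
      ((spA m x y s t : ℝ) : ℂ) + ((spB m x y s t * m : ℝ) : ℂ) * spT := by
    unfold spA spB
    push_cast
    have h3 : spT ^ 3 = 6 * spT - 9 := by
      linear_combination (spT + 3) * spT_sq
    linear_combination (y * m * (t * m) ^ 2 : ℂ) * h3 +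
      ((x : ℂ) * (t * m) ^ 2 + 2 * y * m * s * (t * m)) * spT_sq
  rw [hexp] at hmain
  obtain ⟨h1, h2⟩ := spT_inj hmain
  refine ⟨s, t, h1, ?_⟩
  have : spB m x y s t * m = 1 * m := by rw [h2, one_mul]
  exact mul_right_cancel₀ hm.ne' this

lemma sp_floor (m : ℤ) (hm : 0 < m) (c s : ℝ) :
    Tendsto (fun n : ℕ => (c + 3 * m * (⌊(n : ℝ) * s⌋ : ℝ)) / (3 * m * n)) atTop (𝓝 s) := by
  have hm' : (0 : ℝ) < m := by exact_mod_cast hm
  have h1 : Tendsto (fun n : ℕ => (|c| / (3 * m) + 1) / (n : ℝ)) atTop (𝓝 0) :=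
    tendsto_const_div_atTop_nhds_zero_nat _
  rw [tendsto_iff_norm_sub_tendsto_zero]
  refine squeeze_zero' (Eventually.of_forall (fun n => norm_nonneg _)) ?_ h1
  filter_upwards [eventually_gt_atTop 0] with n hn
  have hn' : (0 : ℝ) < n := by exact_mod_cast hn
  have e : (c + 3 * m * (⌊(n : ℝ) * s⌋ : ℝ)) / (3 * m * n) - s =
      (c / (3 * m) - ((n : ℝ) * s - ⌊(n : ℝ) * s⌋)) / n := by
    field_simp
    ring
  rw [e, norm_div, Real.norm_eq_abs, Real.norm_eq_abs, abs_of_pos hn']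
  gcongr
  refine (abs_sub _ _).trans ?_
  rw [abs_div, abs_of_pos (by positivity : (0 : ℝ) < 3 * m)]
  gcongr
  have h2 := Int.floor_le ((n : ℝ) * s)
  have h3 := Int.lt_floor_add_one ((n : ℝ) * s)
  rw [abs_of_nonneg (by linarith)]
  linarith

lemma sp_int (hm : 0 < m) {x y C : ℤ} (hx : x ≠ 0) :
    ∃ u v : ℤ, IsCoprime u (3 * m) ∧ 0 < spB m x y u v ∧ C * spB m x y u v ≤ spA m x y u v := by
  obtain ⟨s, t, hA, hB⟩ := sp_real (m : ℝ) x y (C + 1) (by exact_mod_cast hm)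
    (by exact_mod_cast hx)
  have hm' : (0 : ℝ) < m := by exact_mod_cast hm
  have hu := sp_floor m hm 1 s
  have hv := sp_floor m hm 0 t
  have hpair := hu.prodMk_nhds hv
  have hcB : Continuous (fun q : ℝ × ℝ => spB (m : ℝ) x y q.1 q.2) := by
    unfold spB; fun_prop
  have hcA : Continuous (fun q : ℝ × ℝ => spA (m : ℝ) x y q.1 q.2 -
      (C : ℝ) * spB (m : ℝ) x y q.1 q.2) := by
    unfold spA spB; fun_prop
  have h1 := (hcB.tendsto (s, t)).comp hpair
  have h2 := (hcA.tendsto (s, t)).comp hpair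
  simp only [hA, hB] at h1 h2
  have e1 := h1.eventually (lt_mem_nhds (by norm_num : (0 : ℝ) < 1))
  have e2 := h2.eventually (lt_mem_nhds (by norm_num : (0 : ℝ) < (C : ℝ) + 1 - C * 1))
  obtain ⟨n, hn1, hn2, hn0⟩ := (e1.and (e2.and (eventually_gt_atTop 0))).exists
  simp only [Function.comp] at hn1 hn2
  have hn0' : (0 : ℝ) < n := by exact_mod_cast hn0
  have hq : (0 : ℝ) < 3 * m * n := by positivity
  set U : ℤ := 1 + 3 * m * ⌊(n : ℝ) * s⌋ with hU
  set V : ℤ := 3 * m * ⌊(n : ℝ) * t⌋ with hV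
  have hUr : (1 + 3 * (m : ℝ) * (⌊(n : ℝ) * s⌋ : ℝ)) = (U : ℝ) := by rw [hU]; push_cast; ring
  have hVr : (0 + 3 * (m : ℝ) * (⌊(n : ℝ) * t⌋ : ℝ)) = (V : ℝ) := by rw [hV]; push_cast; ring
  rw [hUr, hVr] at hn1 hn2
  have hsB : spB (m : ℝ) x y (U / (3 * m * n)) (V / (3 * m * n)) =
      ((spB m x y U V : ℤ) : ℝ) / (3 * m * n) ^ 2 := by
    unfold spB; push_cast; field_simp
  have hsA : spA (m : ℝ) x y (U / (3 * m * n)) (V / (3 * m * n)) =
      ((spA m x y U V : ℤ) : ℝ) / (3 * m * n) ^ 2 := by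
    unfold spA; push_cast; field_simp
  rw [hsB] at hn1
  rw [hsA, hsB, ← mul_div_assoc, ← sub_div] at hn2
  have h3 : (0 : ℝ) < ((spB m x y U V : ℤ) : ℝ) := by
    by_contra hcon
    push Not at hcon
    exact absurd hn1 (not_lt.2 (div_nonpos_of_nonpos_of_nonneg hcon (by positivity)))
  have h4 : (0 : ℝ) < ((spA m x y U V : ℤ) : ℝ) - C * ((spB m x y U V : ℤ) : ℝ) := by
    by_contra hcon
    push Not at hcon
    exact absurd hn2 (not_lt.2 (div_nonpos_of_nonpos_of_nonneg hcon (by positivity)))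
  refine ⟨U, V, ?_, by exact_mod_cast h3, ?_⟩
  · refine ⟨1, -⌊(n : ℝ) * s⌋, ?_⟩
    rw [hU]; ring
  · have h5 : (C : ℝ) * ((spB m x y U V : ℤ) : ℝ) ≤ ((spA m x y U V : ℤ) : ℝ) := by linarith
    exact_mod_cast h5

lemma sp_content {A B : ℤ} (hB : 0 < B) (hA3 : A % 3 = 1) (hAm : IsCoprime A m)
    (hp : ∀ p : ℕ, p.Prime → (p : ℤ) ∣ F m A B → p % 3 = 1) :
    ∃ c a b : ℤ, 0 < c ∧ 0 < b ∧ A = c * a ∧ B = c * b ∧ Vx m a b := by
  set c : ℕ := Int.gcd A B with hc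
  have hc0 : 0 < c := Int.gcd_pos_of_ne_zero_right _ hB.ne'
  obtain ⟨a, ha⟩ := Int.gcd_dvd_left A B
  obtain ⟨b, hb⟩ := Int.gcd_dvd_right A B
  rw [← hc] at ha hb
  have hcZ : (0 : ℤ) < c := by exact_mod_cast hc0
  have hb0 : 0 < b := by
    have : 0 < (c : ℤ) * b := by rw [← hb]; exact hB
    exact (mul_pos_iff_of_pos_left hcZ).1 this
  have hcop : IsCoprime a b := by
    rw [Int.isCoprime_iff_gcd_eq_one]
    have h1 : Int.gcd ((c : ℤ) * a) (c * b) = c * Int.gcd a b := by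
      rw [Int.gcd_mul_left]; simp
    rw [← ha, ← hb, ← hc] at h1
    exact Nat.eq_of_mul_eq_mul_left hc0 (by omega)
  have ham : IsCoprime a m := by
    rw [ha] at hAm; exact IsCoprime.of_mul_left_right hAm
  have hc3 : c % 3 = 1 := by
    apply mod_three_of_primes hc0
    intro p hpp hpc
    have hpc' : (p : ℤ) ∣ c := by exact_mod_cast hpc
    apply hp p hpp
    rw [ha, hb, F_smul]
    exact (hpc'.trans (dvd_pow_self _ two_ne_zero)).mul_right _
  have ha3 : a % 3 = 1 := by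
    have h1 : (c : ℤ) % 3 = 1 := by omega
    have h2 : ((c : ℤ) * a) % 3 = 1 := by rw [← ha]; exact hA3
    have h3 : a % 3 = 0 ∨ a % 3 = 1 ∨ a % 3 = 2 := by omega
    rw [Int.mul_emod, h1] at h2
    rcases h3 with h | h | h <;> rw [h] at h2 <;> omega
  exact ⟨c, a, b, hcZ, hb0, ha, hb, hcop, ham, ha3⟩

lemma even_all_one (hg : PM g) (hm : 0 < m)
    (h : ∃ C : ℤ, 0 < C ∧ ∀ a b : ℤ, 0 < b → C * b ≤ a → Vx m a b → H g m a b = 1)
    {x y : ℤ} (hV : Vx m x y) : H g m x y = 1 := by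
  obtain ⟨C, hC, hCH⟩ := h
  obtain ⟨U, V, hU, hB, hA⟩ := sp_int hm (x := x) (y := y) (C := C) hV.ne
  -- primitive `z`
  have hU0 : U ≠ 0 := by
    rintro rfl
    have h1 : IsUnit (3 * m) := isCoprime_zero_left.1 hU
    have h2 := Int.isUnit_iff.1 h1
    omega
  set e : ℕ := Int.gcd U V with he
  have he0 : 0 < e := Int.gcd_pos_of_ne_zero_left _ hU0
  have heZ : (0 : ℤ) < e := by exact_mod_cast he0
  obtain ⟨u, hu⟩ := Int.gcd_dvd_left U V
  obtain ⟨v, hv⟩ := Int.gcd_dvd_right U V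
  rw [← he] at hu hv
  have huv : IsCoprime u v := by
    rw [Int.isCoprime_iff_gcd_eq_one]
    have h1 : Int.gcd ((e : ℤ) * u) (e * v) = e * Int.gcd u v := by
      rw [Int.gcd_mul_left]; simp
    rw [← hu, ← hv, ← he] at h1
    exact Nat.eq_of_mul_eq_mul_left he0 (by omega)
  have hu3m : IsCoprime u (3 * m) := by
    rw [hu] at hU; exact IsCoprime.of_mul_left_right hU
  have hu3 : IsCoprime u 3 := IsCoprime.of_mul_right_left hu3m
  have hum : IsCoprime u m := IsCoprime.of_mul_right_right hu3m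
  have hu3' : ¬ (3 : ℤ) ∣ u := by
    intro hd
    have := Int.isUnit_iff.1 (hu3.isUnit_of_dvd' hd dvd_rfl)
    omega
  have eB : spB m x y U V = (e : ℤ) ^ 2 * spB m x y u v := by
    rw [hu, hv]; unfold spB; ring
  have eA : spA m x y U V = (e : ℤ) ^ 2 * spA m x y u v := by
    rw [hu, hv]; unfold spA; ring
  have he2 : (0 : ℤ) < (e : ℤ) ^ 2 := by positivity
  rw [eB] at hB hA
  rw [eA] at hA
  have hB' : 0 < spB m x y u v := (mul_pos_iff_of_pos_left he2).1 hB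
  have hA' : C * spB m x y u v ≤ spA m x y u v := by
    have : (e : ℤ) ^ 2 * (C * spB m x y u v) ≤ (e : ℤ) ^ 2 * spA m x y u v := by linarith
    exact le_of_mul_le_mul_left this he2
  -- the product
  have hFz : F m (u ^ 2 - 3 * m ^ 2 * v ^ 2) (2 * u * v + 3 * m * v ^ 2) = F m u v * F m u v := by
    unfold F; ring
  have hFp : F m (spA m x y u v) (spB m x y u v) = F m x y * (F m u v * F m u v) := by
    unfold F spA spB; ring
  have hFxy := hV.F_pos hm
  have hu0 : u ≠ 0 := fun h0 => hu3' (by rw [h0]; exact dvd_zero _)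
  have hFuv : 0 < F m u v := F_pos hm (Or.inl hu0)
  have hHp : H g m (spA m x y u v) (spB m x y u v) = H g m x y := by
    unfold H
    rw [hFp, g_mul hg hFxy.ne' (mul_pos hFuv hFuv).ne', g_mul hg hFuv.ne' hFuv.ne']
    have := H_self hg hFuv.ne'
    unfold H at this
    rw [this, mul_one]
  have hprime : ∀ p : ℕ, p.Prime → (p : ℤ) ∣ F m (spA m x y u v) (spB m x y u v) → p % 3 = 1 := by
    intro p hp hd
    have hpI : Prime (p : ℤ) := Nat.prime_iff_prime_int.1 hp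
    rw [hFp] at hd
    rcases hpI.dvd_or_dvd hd with h1 | h1
    · exact prime_mod_three hp hV.1 hV.2.1 (fun h3 => by have := hV.2.2; omega) h1
    · rcases hpI.dvd_or_dvd h1 with h2 | h2
      · exact prime_mod_three hp huv hum hu3' h2
      · exact prime_mod_three hp huv hum hu3' h2
  have hA3 : spA m x y u v % 3 = 1 := by
    have h1 : u ^ 2 % 3 = 1 := by
      have : u % 3 = 1 ∨ u % 3 = 2 := by omega
      rcases this with h | h <;> rw [pow_two, Int.mul_emod, h] <;> norm_num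
    have h2 : (x * u ^ 2) % 3 = 1 := by rw [Int.mul_emod, hV.2.2, h1]; norm_num
    have e1 : spA m x y u v = x * u ^ 2 +
        3 * (- (x * m ^ 2 * v ^ 2) - m ^ 2 * y * (2 * u * v + 3 * m * v ^ 2)) := by
      unfold spA; ring
    rw [e1]; omega
  have hAm : IsCoprime (spA m x y u v) m := by
    have h1 : IsCoprime (x * u ^ 2) m := hV.2.1.mul_left (hum.pow_left)
    have e1 : spA m x y u v = x * u ^ 2 +
        m * (- (3 * x * m * v ^ 2) - 3 * m * y * (2 * u * v + 3 * m * v ^ 2)) := by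
      unfold spA; ring
    rw [e1]
    exact IsCoprime.add_mul_left_left h1 _
  obtain ⟨c, a, b, hc, hb, hca, hcb, hVab⟩ := sp_content hB' hA3 hAm hprime
  have hFab := hVab.F_pos hm
  rw [← hHp, hca, hcb, H_smul hg hc.ne' hFab.ne']
  apply hCH a b hb _ hVab
  rw [hca, hcb] at hA'
  have : c * (C * b) ≤ c * a := by linarith
  exact le_of_mul_le_mul_left this hc

theorem even_all (hg : PM g) (hm : 0 < m)
    (h : ∃ C : ℤ, 0 < C ∧ ∀ a b : ℤ, 0 < b → C * b ≤ a → Vx m a b → H g m a b = 1)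
    {x y : ℤ} (hxy : IsCoprime x y) (hxm : IsCoprime x m) (h3 : ¬ (3 : ℤ) ∣ x) :
    H g m x y = 1 := by
  have hx : x % 3 = 1 ∨ (-x) % 3 = 1 := by omega
  rcases hx with h1 | h1
  · exact even_all_one hg hm h ⟨hxy, hxm, h1⟩
  · rw [← H_neg]
    exact even_all_one hg hm h ⟨hxy.neg_left.neg_right, hxm.neg_left, h1⟩

end Pool.Agent.H48.AP
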