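import Pool.Agent.H48.AP.PartB
import Pool.Agent.H48.AP.SparseThm
import Pool.Agent.H48.AP.Spread
import Pool.Agent.H48.AP.Fin
import Pool.Agent.H41.Per.Lio
import Pool.Agent.H41.Per.Char

/-! The theorem on every residue class. -/

set_option autoImplicit false

namespace Pool.Agent.H48.AP

open Pool.Agent.H41.Per (PM lio lio_pm fz prime_dvd_fz)

variable {g : ℕ → ℤ}

/-- constant on one residue class implies even vertices everywhere -/
theorem all_even_of_const (hg : PM g) {M : ℕ} (hM : 0 < M) {r : ℤ} (hc : ConstOn g M r) {x y : ℤ}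
    (h1 : IsCoprime x y) (h2 : IsCoprime x (M : ℤ)) (h3 : ¬ (3 : ℤ) ∣ x) : H g (M : ℤ) x y = 1 := by
  have hm : (0 : ℤ) < M := by exact_mod_cast hM
  exact all_even_of_sparse hg hm (sparse_of_const hg hm hc) h1 h2 h3

lemma natAbs_f (k : ℕ) : (3 * (k : ℤ) ^ 2 + 3 * k + 1).natAbs = 3 * k ^ 2 + 3 * k + 1 := by
  have : (3 * (k : ℤ) ^ 2 + 3 * k + 1) = ((3 * k ^ 2 + 3 * k + 1 : ℕ) : ℤ) := by push_cast; ring
  rw [this, Int.natAbs_natCast]

lemma constOn_of_nat {M r K : ℕ} {ε : ℤ} (hr : r < M)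
    (h : ∀ k : ℕ, K ≤ k → k % M = r → g (3 * k ^ 2 + 3 * k + 1) = ε) : ConstOn g M r := by
  refine ⟨ε, K, ?_⟩
  intro k hk hd
  obtain ⟨n, rfl⟩ : ∃ n : ℕ, k = n := ⟨k.toNat, by omega⟩
  rw [natAbs_f]
  refine h n (by omega) ?_
  have h1 : (n : ℤ) % M = (r : ℤ) % M :=
    Int.emod_eq_emod_iff_emod_sub_eq_zero.2 (Int.emod_eq_zero_of_dvd hd)
  have h2 : n % M = r % M := by exact_mod_cast h1
  rw [h2, Nat.mod_eq_of_lt hr]

/-- constant on one residue class implies a character -/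
theorem char_of_class (hg : PM g) {M r K : ℕ} {ε : ℤ} (hr : r < M)
    (h : ∀ k : ℕ, K ≤ k → k % M = r → g (3 * k ^ 2 + 3 * k + 1) = ε) :
    ∃ χ : DirichletCharacter ℤ (3 * M), ∀ p : ℕ, p.Prime → p % 3 = 1 → ¬ p ∣ M → g p = χ p :=
  char_of_even hg (by omega) fun x y h1 h2 h3 =>
    all_even_of_const hg (by omega) (r := (r : ℤ)) (constOn_of_nat hr h) h1 h2 h3

/-- both parities on every residue class -/
theorem both_signs {m r : ℕ} (hr : r < m) :
    {k : ℕ | k % m = r ∧ Even (ArithmeticFunction.cardFactors (3 * k ^ 2 + 3 * k + 1))}.Infinite ∧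
    {k : ℕ | k % m = r ∧ Odd (ArithmeticFunction.cardFactors (3 * k ^ 2 + 3 * k + 1))}.Infinite := by
  have key : ∀ (K : ℕ) (ε : ℤ),
      (∀ k : ℕ, K ≤ k → k % m = r → lio (3 * k ^ 2 + 3 * k + 1) = ε) → False := by
    intro K ε h
    exact lio_contra (M := m) (by omega) fun x y h1 h2 h3 =>
      all_even_of_const lio_pm (by omega) (r := (r : ℤ)) (constOn_of_nat hr h) h1 h2 h3
  constructor
  · intro hfin
    obtain ⟨B, hB⟩ := hfin.bddAbove
    refine key (B + 1) (-1) fun k hk hkr => ?_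
    unfold lio
    apply Odd.neg_one_pow
    by_contra hne
    have : k ≤ B := hB ⟨hkr, Nat.not_odd_iff_even.1 hne⟩
    omega
  · intro hfin
    obtain ⟨B, hB⟩ := hfin.bddAbove
    refine key (B + 1) 1 fun k hk hkr => ?_
    unfold lio
    apply Even.neg_one_pow
    by_contra hne
    have : k ≤ B := hB ⟨hkr, Nat.not_even_iff_odd.1 hne⟩
    omega

/-- `g` and `χ` agree on integers all of whose prime factors are good -/
lemma g_eq_char (hg : PM g) {M : ℕ} (χ : DirichletCharacter ℤ M) (n : ℕ) :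
    n ≠ 0 → (∀ p : ℕ, p.Prime → p ∣ n → g p = χ p) → g n = χ n := by
  induction n using Nat.strong_induction_on with
  | _ n ih =>
    intro hn h
    rcases Nat.lt_or_ge 1 n with h1 | h1
    · obtain ⟨p, hp, a, rfl⟩ := Nat.exists_prime_and_dvd (by omega : n ≠ 1)
      have ha : a ≠ 0 := fun h0 => hn (by rw [h0, mul_zero])
      have hlt : a < p * a := by
        have := hp.two_le
        nlinarith [Nat.pos_of_ne_zero ha]
      rw [hg.mul p a hp.ne_zero ha, h p hp (dvd_mul_right p a),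
        ih a hlt ha (fun q hq hqa => h q hq (hqa.mul_left p))]
      push_cast
      rw [map_mul]
    · have : n = 1 := by omega
      subst this
      rw [PM.one hg]
      simp

/-- the converse: a character gives constancy on a residue class -/
theorem class_of_char (hg : PM g) {M : ℕ} (hM : 0 < M) (χ : DirichletCharacter ℤ M)
    (hfin : {p : ℕ | p.Prime ∧ p % 3 = 1 ∧ g p ≠ χ p}.Finite) :
    ∃ m : ℕ, 0 < m ∧ ∀ k : ℕ, k % m = 0 → g (3 * k ^ 2 + 3 * k + 1) = 1 := by
  classical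
  refine ⟨M * ∏ p ∈ hfin.toFinset, p, ?_, ?_⟩
  · refine Nat.mul_pos hM (Finset.prod_pos fun p hp => ?_)
    rw [Set.Finite.mem_toFinset] at hp
    exact hp.1.pos
  intro k hk
  have hdk : M * ∏ p ∈ hfin.toFinset, p ∣ k := Nat.dvd_of_mod_eq_zero hk
  obtain ⟨c, hc⟩ := (dvd_mul_right M _).trans hdk
  have h1 : g (3 * k ^ 2 + 3 * k + 1) = χ ((3 * k ^ 2 + 3 * k + 1 : ℕ) : ZMod M) := by
    refine g_eq_char hg χ _ (by omega) ?_
    intro p hp hpd
    by_contra hne
    have h3 : p % 3 = 1 := by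
      refine prime_dvd_fz hp (k := (k : ℤ)) ?_
      have : fz (k : ℤ) = ((3 * k ^ 2 + 3 * k + 1 : ℕ) : ℤ) := by
        unfold fz; push_cast; ring
      rw [this]
      exact_mod_cast hpd
    have hmem : p ∈ hfin.toFinset := by
      rw [Set.Finite.mem_toFinset]
      exact ⟨hp, h3, hne⟩
    have hpk : p ∣ k := ((Finset.dvd_prod_of_mem _ hmem).trans (dvd_mul_left _ M)).trans hdk
    have h4 : p ∣ 3 * k ^ 2 + 3 * k := by
      have : 3 * k ^ 2 + 3 * k = k * (3 * k + 3) := by ring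
      rw [this]
      exact hpk.mul_right _
    have := (Nat.dvd_add_right h4).1 hpd
    exact hp.one_lt.ne' (Nat.dvd_one.1 this)
  rw [h1, hc]
  push_cast
  simp

end Pool.Agent.H48.AP
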