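import Pool.Agent.H48.AP.Defs

/-!
A product `w w̄' = a + m δ θ` and the norm `n` of `w` determine the pair `(w, w')` up to `2δ+1`
possibilities: `n` divides `δ det(w₁, w₂)`, and `|det(w₁, w₂)| ≤ n`.
-/

set_option autoImplicit false

namespace Pool.Agent.H48.AP

open Finset

variable {g : ℕ → ℤ} {m : ℤ}

/-- the determinant of two vectors of norm `n` in the cone is at most `n` in absolute value -/
lemma uniq_det {m n x y x' y' : ℤ} (hm : 0 < m) (hy : 0 < y) (hx : 2 * m * y ≤ x)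
    (hy' : 0 < y') (hx' : 2 * m * y' ≤ x') (hn : F m x y = n) (hn' : F m x' y' = n) :
    -n ≤ y * x' - x * y' ∧ y * x' - x * y' ≤ n := by
  have hmy : 0 < m * y := mul_pos hm hy
  have hmy' : 0 < m * y' := mul_pos hm hy'
  have hx0 : 0 < x := by linarith
  have hx0' : 0 < x' := by linarith
  have hyx : y ≤ x := by nlinarith
  have hyx' : y' ≤ x' := by nlinarith
  have h1 : x ^ 2 ≤ n := by
    rw [← hn]; unfold F
    have := mul_pos hmy hx0
    nlinarith [sq_nonneg (m * y)]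
  have h2 : x' ^ 2 ≤ n := by
    rw [← hn']; unfold F
    have := mul_pos hmy' hx0'
    nlinarith [sq_nonneg (m * y')]
  have h3 : x * x' ≤ n := by nlinarith [sq_nonneg (x - x')]
  have h4 : y * x' ≤ x * x' := mul_le_mul_of_nonneg_right hyx hx0'.le
  have h5 : x * y' ≤ x * x' := mul_le_mul_of_nonneg_left hyx' hx0.le
  have h6 : 0 < y * x' := mul_pos hy hx0'
  have h7 : 0 < x * y' := mul_pos hx0 hy'
  constructor <;> linarith

/-- two vectors of the cone with the same norm and the same determinant with a third one agree -/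
lemma uniq_inj {m n x y x' y' u v : ℤ} (hm : 0 < m) (hu : 0 < u) (hv : 0 < v) (hx : 0 < x)
    (hy : 0 < y) (hx' : 0 < x') (hy' : 0 < y') (hn : F m x y = n) (hn' : F m x' y' = n)
    (h : v * x - u * y = v * x' - u * y') : x = x' ∧ y = y' := by
  have key : ∀ a b c d : ℤ, 0 < a → 0 < b → 0 < c → 0 < d → a < c → b < d →
      F m a b < F m c d := by
    intro a b c d ha hb hc hd hac hbd
    unfold F
    have h1 : a ^ 2 < c ^ 2 := by nlinarith
    have h2 : a * b < c * d := by nlinarith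
    have h3 : b ^ 2 < d ^ 2 := by nlinarith
    have h4 : 3 * m * (a * b) < 3 * m * (c * d) := mul_lt_mul_of_pos_left h2 (by linarith)
    have h5 : 3 * m ^ 2 * b ^ 2 < 3 * m ^ 2 * d ^ 2 := mul_lt_mul_of_pos_left h3 (by positivity)
    nlinarith
  have h' : v * (x - x') = u * (y - y') := by linear_combination h
  rcases lt_trichotomy x x' with hlt | heq | hgt
  · exfalso
    have h1 : v * (x - x') < 0 := mul_neg_of_pos_of_neg hv (by linarith)
    rw [h'] at h1
    have h2 : y - y' < 0 := by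
      by_contra hcon
      push Not at hcon
      have := mul_nonneg hu.le hcon
      linarith
    have := key x y x' y' hx hy hx' hy' hlt (by linarith)
    omega
  · refine ⟨heq, ?_⟩
    rw [heq, sub_self, mul_zero] at h'
    have := (mul_eq_zero.1 h'.symm).resolve_left hu.ne'
    omega
  · exfalso
    have h1 : 0 < v * (x - x') := mul_pos hv (by linarith)
    rw [h'] at h1
    have h2 : 0 < y - y' := by
      by_contra hcon
      push Not at hcon
      have := mul_nonpos_of_nonneg_of_nonpos hu.le hcon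
      linarith
    have := key x' y' x y hx' hy' hx hy hgt (by linarith)
    omega

/-- a product `w w̄' = a + mδθ` and the norm of `w` determine the pair `(w, w')` up to `2δ+1`
possibilities (in the cone `x ≥ 2 m y > 0`) -/
theorem uniq (hm : 0 < m) (δ a n : ℤ) (hδ : 0 < δ) (S : Finset ((ℤ × ℤ) × (ℤ × ℤ)))
    (hS : ∀ s ∈ S, 0 < s.1.2 ∧ 2 * m * s.1.2 ≤ s.1.1 ∧ 0 < s.2.2 ∧ 2 * m * s.2.2 ≤ s.2.1 ∧
      Vx m s.1.1 s.1.2 ∧ Vx m s.2.1 s.2.2 ∧
      F m s.1.1 s.1.2 = n ∧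
      s.1.1 * s.2.1 + 3 * m * s.1.1 * s.2.2 + 3 * m ^ 2 * s.1.2 * s.2.2 = a ∧
      s.1.2 * s.2.1 - s.1.1 * s.2.2 = δ) :
    (S.card : ℤ) ≤ 2 * δ + 1 := by
  classical
  rcases S.eq_empty_or_nonempty with hE | ⟨s₀, hs₀⟩
  · rw [hE, Finset.card_empty]
    push_cast
    linarith
  obtain ⟨hy0, hx0, hy0', hx0', -, -, hn0, ha0, hd0⟩ := hS s₀ hs₀
  have hmy0 : 0 < m * s₀.1.2 := mul_pos hm hy0
  have hx0p : 0 < s₀.1.1 := by linarith
  have hn : 0 < n := by
    rw [← hn0]; unfold F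
    have := mul_pos hmy0 hx0p
    nlinarith [sq_nonneg (m * s₀.1.2), sq_pos_of_pos hx0p]
  -- `w'` in terms of `w`
  have hY : ∀ s ∈ S, n * s.2.2 = a * s.1.2 - δ * s.1.1 := by
    intro s hs
    obtain ⟨-, -, -, -, -, -, h1, h2, h3⟩ := hS s hs
    rw [← h1, ← h2, ← h3]; unfold F; ring
  have hX : ∀ s ∈ S, n * s.2.1 = (a + 3 * m * δ) * s.1.1 + 3 * m ^ 2 * δ * s.1.2 := by
    intro s hs
    obtain ⟨-, -, -, -, -, -, h1, h2, h3⟩ := hS s hs
    rw [← h1, ← h2, ← h3]; unfold F; ring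
  -- divisibility
  have hdvd : ∀ s ∈ S, n ∣ δ * (s₀.1.2 * s.1.1 - s₀.1.1 * s.1.2) := by
    intro s hs
    refine ⟨s₀.2.2 * s.1.2 - s.2.2 * s₀.1.2, ?_⟩
    linear_combination (-s.1.2) * hY s₀ hs₀ + s₀.1.2 * hY s hs
  set φ : (ℤ × ℤ) × (ℤ × ℤ) → ℤ := fun s => δ * (s₀.1.2 * s.1.1 - s₀.1.1 * s.1.2) / n with hφ
  have hφn : ∀ s ∈ S, n * φ s = δ * (s₀.1.2 * s.1.1 - s₀.1.1 * s.1.2) :=
    fun s hs => Int.mul_ediv_cancel' (hdvd s hs)
  have hmaps : ∀ s ∈ S, φ s ∈ Finset.Icc (-δ) δ := by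
    intro s hs
    obtain ⟨hy, hx, -, -, -, -, h1, -, -⟩ := hS s hs
    obtain ⟨hl, hu⟩ := uniq_det hm hy0 hx0 hy hx hn0 h1
    rw [Finset.mem_Icc]
    have h2 := hφn s hs
    constructor
    · have h3 : n * (-δ) ≤ n * φ s := by rw [h2]; nlinarith
      exact le_of_mul_le_mul_left h3 hn
    · have h3 : n * φ s ≤ n * δ := by rw [h2]; nlinarith
      exact le_of_mul_le_mul_left h3 hn
  have hinj : ∀ s ∈ S, ∀ t ∈ S, φ s = φ t → s = t := by
    intro s hs t ht hst
    obtain ⟨hy, hx, -, -, -, -, h1, -, -⟩ := hS s hs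
    obtain ⟨hy', hx', -, -, -, -, h1', -, -⟩ := hS t ht
    have e1 := hφn s hs
    have e2 := hφn t ht
    rw [hst, e2] at e1
    have e3 := mul_left_cancel₀ hδ.ne' e1
    have p1 : 0 < s.1.1 := by nlinarith [mul_pos hm hy]
    have p2 : 0 < t.1.1 := by nlinarith [mul_pos hm hy']
    obtain ⟨h3, h4⟩ := uniq_inj hm hx0p hy0 p1 hy p2 hy' h1 h1' e3.symm
    have h5 : n * s.2.2 = n * t.2.2 := by rw [hY s hs, hY t ht, h3, h4]
    have h6 : n * s.2.1 = n * t.2.1 := by rw [hX s hs, hX t ht, h3, h4]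
    have h7 := mul_left_cancel₀ hn.ne' h5
    have h8 := mul_left_cancel₀ hn.ne' h6
    exact Prod.ext (Prod.ext h3 h4) (Prod.ext h8 h7)
  have hcard : S.card ≤ (Finset.Icc (-δ) δ).card :=
    Finset.card_le_card_of_injOn φ hmaps fun s hs t ht h => hinj s hs t ht h
  rw [Int.card_Icc] at hcard
  omega

end Pool.Agent.H48.AP
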