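import Pool.Agent.H48.AP.Tau
import Pool.Agent.H48.AP.Uniq

/-!
Pairs of vertices of bounded determinant with different signs have few directions.
-/

set_option autoImplicit false

namespace Pool.Agent.H48.AP

open Pool.Agent.H41.Per (PM)
open Finset
open scoped Classical

variable {g : ℕ → ℤ} {m : ℤ}

/-- the pairs with a given product -/
lemma fibre_card (hm : 0 < m) (δ a : ℤ) (hδ : 0 < δ) (T : ℕ) (S : Finset ((ℤ × ℤ) × (ℤ × ℤ)))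
    (hS : ∀ s ∈ S, 0 < s.1.2 ∧ 2 * m * s.1.2 ≤ s.1.1 ∧ 0 < s.2.2 ∧ 2 * m * s.2.2 ≤ s.2.1 ∧
      Vx m s.1.1 s.1.2 ∧ Vx m s.2.1 s.2.2 ∧
      (F m s.1.1 s.1.2).natAbs.divisors.card ≤ T ∧ (F m s.2.1 s.2.2).natAbs.divisors.card ≤ T ∧
      s.1.1 * s.2.1 + 3 * m * s.1.1 * s.2.2 + 3 * m ^ 2 * s.1.2 * s.2.2 = a ∧
      s.1.2 * s.2.1 - s.1.1 * s.2.2 = δ) :
    S.card ≤ (2 * δ + 1).toNat * T ^ 2 := by
  rcases S.eq_empty_or_nonempty with h | ⟨s₀, hs₀⟩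
  · rw [h]; simp
  -- the norms
  set N : ℕ := (F m a δ).natAbs with hN
  have hprod : ∀ s ∈ S, F m a δ = F m s.1.1 s.1.2 * F m s.2.1 s.2.2 := by
    intro s hs
    obtain ⟨_, _, _, _, _, _, _, _, h1, h2⟩ := hS s hs
    rw [← F_mul, h1, h2]
  have hN0 : N ≠ 0 := by
    rw [hN, Int.natAbs_ne_zero]
    exact (F_pos hm (Or.inr hδ.ne')).ne'
  have hNd : N.divisors.card ≤ T ^ 2 := by
    obtain ⟨_, _, _, _, _, _, t1, t2, _, _⟩ := hS s₀ hs₀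
    have h1 : N = (F m s₀.1.1 s₀.1.2).natAbs * (F m s₀.2.1 s₀.2.2).natAbs := by
      rw [hN, hprod s₀ hs₀, Int.natAbs_mul]
    rw [h1, Nat.divisors_mul, pow_two]
    exact (Finset.card_mul_le).trans (Nat.mul_le_mul t1 t2)
  have himg : S.image (fun s => F m s.1.1 s.1.2) ⊆ N.divisors.image (fun d : ℕ => (d : ℤ)) := by
    intro n hn
    obtain ⟨s, hs, rfl⟩ := mem_image.1 hn
    refine mem_image.2 ⟨(F m s.1.1 s.1.2).natAbs, ?_, ?_⟩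
    · rw [Nat.mem_divisors]
      refine ⟨?_, hN0⟩
      rw [hN, hprod s hs, Int.natAbs_mul]
      exact dvd_mul_right _ _
    · exact Int.natAbs_of_nonneg (F_nonneg _ _ _)
  have hcard : (S.image (fun s => F m s.1.1 s.1.2)).card ≤ T ^ 2 :=
    (card_le_card himg).trans (card_image_le.trans hNd)
  refine (Finset.card_le_mul_card_image (f := fun s : (ℤ × ℤ) × (ℤ × ℤ) => F m s.1.1 s.1.2) S
    (2 * δ + 1).toNat ?_).trans (Nat.mul_le_mul_left _ hcard)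
  intro n _
  have h := uniq hm δ a n hδ (S.filter (fun s => F m s.1.1 s.1.2 = n)) ?_
  · zify
    rw [Int.toNat_of_nonneg (by linarith)]
    exact h
  · intro s hs
    obtain ⟨hs1, hs2⟩ := mem_filter.1 hs
    obtain ⟨b1, b2, b3, b4, b5, b6, _, _, b9, b10⟩ := hS s hs1
    exact ⟨b1, b2, b3, b4, b5, b6, hs2, b9, b10⟩

/-- the number of odd pairs of bounded determinant in which both norms have few divisors -/
lemma odd_pairs (hg : PM g) (hm : 0 < m) (hS : Sparse g m) (L : ℕ) (Bd : ℕ) (κ : ℕ) :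
    ∃ C : ℝ, 0 < C ∧ ∀ j : ℕ, 1 ≤ j → ∀ (T : ℕ) (S : Finset ((ℤ × ℤ) × (ℤ × ℤ))),
      (∀ s ∈ S, 0 < s.1.2 ∧ s.1.2 ≤ 2 ^ j ∧ 2 * m * s.1.2 ≤ s.1.1 ∧ s.1.1 ≤ L * s.1.2 ∧
        0 < s.2.2 ∧ s.2.2 ≤ 2 ^ j ∧ 2 * m * s.2.2 ≤ s.2.1 ∧ s.2.1 ≤ L * s.2.2 ∧
        Vx m s.1.1 s.1.2 ∧ Vx m s.2.1 s.2.2 ∧
        (F m s.1.1 s.1.2).natAbs.divisors.card ≤ T ∧ (F m s.2.1 s.2.2).natAbs.divisors.card ≤ T ∧
        0 < s.1.2 * s.2.1 - s.1.1 * s.2.2 ∧ s.1.2 * s.2.1 - s.1.1 * s.2.2 ≤ Bd ∧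
        H g m s.1.1 s.1.2 ≠ H g m s.2.1 s.2.2) →
      (S.card : ℝ) ≤ C * 4 ^ j * (T : ℝ) ^ 2 / (j : ℝ) ^ κ := by
  -- constants for the rows
  have hrow : ∀ b : ℕ, ∃ C : ℝ, 0 < C ∧ (0 < b → ∀ j : ℕ, 1 ≤ j →
      (oddCount g m b (2 ^ j) : ℝ) ≤ C * 2 ^ j / (j : ℝ) ^ κ) := by
    intro b
    rcases Nat.eq_zero_or_pos b with h | h
    · exact ⟨1, one_pos, fun h' => absurd h' (by omega)⟩
    · obtain ⟨C, hC, h'⟩ := hS b h κ
      exact ⟨C, hC, fun _ => h'⟩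
  choose Cb hCb0 hCb using hrow
  set j₀ : ℕ := ((L : ℤ) ^ 2 + 3 * m * L + 3 * m ^ 2).toNat with hj₀
  have hL2 : (L : ℤ) ^ 2 + 3 * m * L + 3 * m ^ 2 ≤ 2 ^ j₀ := by
    have h1 : (0 : ℤ) ≤ (L : ℤ) ^ 2 + 3 * m * L + 3 * m ^ 2 := by positivity
    have h2 : (j₀ : ℤ) = (L : ℤ) ^ 2 + 3 * m * L + 3 * m ^ 2 := Int.toNat_of_nonneg h1
    have h3 : j₀ < 2 ^ j₀ := Nat.lt_two_pow_self
    rw [← h2]
    exact_mod_cast h3.le
  set Cm : ℝ := ∑ b ∈ Icc 1 Bd, Cb b with hCm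
  have hCm0 : 0 ≤ Cm := sum_nonneg fun b _ => (hCb0 b).le
  refine ⟨Bd * Cm * 2 ^ j₀ * (2 * (Bd : ℝ) ^ 2 + 1) + 1, by positivity, ?_⟩
  intro j hj T S hSS
  have hj0 : (0 : ℝ) < (j : ℝ) := by exact_mod_cast hj
  -- the index set
  set I : Finset (Σ _ : ℕ × ℕ, ℕ) := ((Icc 1 Bd) ×ˢ (Icc 1 Bd)).sigma
    (fun p => (Icc 1 (2 ^ (2 * j + j₀))).filter
      (fun a : ℕ => Vx m a (p.2 : ℕ) ∧ H g m a (p.2 : ℕ) = -1)) with hI
  have hIcard : (I.card : ℝ) ≤ Bd * Cm * 2 ^ j₀ * 4 ^ j / (j : ℝ) ^ κ := by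
    have h1 : (I.card : ℝ) = ∑ c ∈ Icc 1 Bd, ∑ b ∈ Icc 1 Bd,
        (oddCount g m b (2 ^ (2 * j + j₀)) : ℝ) := by
      rw [hI, card_sigma, sum_product]
      push_cast
      rfl
    rw [h1, sum_const, Nat.card_Icc, nsmul_eq_mul, Nat.add_sub_cancel]
    have h2 : ∑ b ∈ Icc 1 Bd, (oddCount g m b (2 ^ (2 * j + j₀)) : ℝ) ≤
        Cm * (2 ^ j₀ * 4 ^ j / (j : ℝ) ^ κ) := by
      rw [hCm, sum_mul]
      refine sum_le_sum fun b hb => ?_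
      refine (hCb b (by have := (mem_Icc.1 hb).1; omega) (2 * j + j₀) (by omega)).trans ?_
      have h3 : (2 : ℝ) ^ (2 * j + j₀) = 2 ^ j₀ * 4 ^ j := by
        rw [pow_add, pow_mul]; norm_num; ring
      rw [h3, mul_div_assoc]
      refine mul_le_mul_of_nonneg_left ?_ (hCb0 b).le
      refine div_le_div_of_nonneg_left (by positivity) (by positivity) ?_
      refine pow_le_pow_left₀ hj0.le ?_ κ
      push_cast
      have : (0 : ℝ) ≤ (j₀ : ℝ) := by positivity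
      linarith
    calc (Bd : ℝ) * ∑ b ∈ Icc 1 Bd, (oddCount g m b (2 ^ (2 * j + j₀)) : ℝ)
        ≤ Bd * (Cm * (2 ^ j₀ * 4 ^ j / (j : ℝ) ^ κ)) :=
          mul_le_mul_of_nonneg_left h2 (by positivity)
      _ = _ := by ring
  -- covering by the fibres
  set Φ : (Σ _ : ℕ × ℕ, ℕ) → Finset ((ℤ × ℤ) × (ℤ × ℤ)) := fun i => S.filter (fun s =>
    s.1.1 * s.2.1 + 3 * m * s.1.1 * s.2.2 + 3 * m ^ 2 * s.1.2 * s.2.2 =
      (i.1.1 : ℤ) * (i.2 : ℤ) ∧ s.1.2 * s.2.1 - s.1.1 * s.2.2 = (i.1.1 : ℤ) * (i.1.2 : ℤ)) with hΦ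
  have hcov : S ⊆ I.biUnion Φ := by
    intro s hs
    obtain ⟨e1, e2, e3, e4, e5, e6, e7, e8, e9, e10, e11, e12, e13, e14, e15⟩ := hSS s hs
    obtain ⟨c, a, b, hc, hb, hca, hcb, hV, hH⟩ := pair_vertex hg hm e9 e10 e13
    have hx : 0 < s.1.1 := lt_of_lt_of_le (by positivity) e3
    have hx' : 0 < s.2.1 := lt_of_lt_of_le (by positivity) e7
    have hA : 0 < c * a := by rw [← hca]; positivity
    have ha : 0 < a := (mul_pos_iff_of_pos_left hc).1 hA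
    have haA : a ≤ c * a := by nlinarith
    have hbB : b ≤ c * b := by nlinarith
    have hcB : c ≤ c * b := by nlinarith
    have hAle : c * a ≤ 2 ^ (2 * j + j₀) := by
      rw [← hca]
      have h1 : s.1.1 * s.2.1 ≤ (L * s.1.2) * (L * s.2.2) :=
        mul_le_mul e4 e8 hx'.le (by positivity)
      have h2 : s.1.1 * s.2.2 ≤ (L * s.1.2) * s.2.2 := mul_le_mul_of_nonneg_right e4 e5.le
      have h3 : s.1.2 * s.2.2 ≤ 2 ^ j * 2 ^ j := mul_le_mul e2 e6 e5.le (by positivity)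
      have h4 : s.1.1 * s.2.1 + 3 * m * s.1.1 * s.2.2 + 3 * m ^ 2 * s.1.2 * s.2.2 ≤
          ((L : ℤ) ^ 2 + 3 * m * L + 3 * m ^ 2) * (s.1.2 * s.2.2) := by
        have h5 : 3 * m * (s.1.1 * s.2.2) ≤ 3 * m * ((L * s.1.2) * s.2.2) :=
          mul_le_mul_of_nonneg_left h2 (by positivity)
        linarith
      have h6 : ((L : ℤ) ^ 2 + 3 * m * L + 3 * m ^ 2) * (s.1.2 * s.2.2) ≤
          2 ^ j₀ * (2 ^ j * 2 ^ j) :=
        mul_le_mul hL2 h3 (by positivity) (by positivity)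
      calc _ ≤ _ := h4
        _ ≤ _ := h6
        _ = 2 ^ (2 * j + j₀) := by rw [pow_add, two_mul, pow_add]; ring
    have hHv : H g m a b = -1 := by
      rw [hH]
      rcases H_val hg (e9.F_pos hm).ne' with h | h <;>
      rcases H_val hg (e10.F_pos hm).ne' with h' | h' <;>
      rw [h, h'] at e15 ⊢ <;> simp at e15 ⊢
    lift c to ℕ using hc.le
    lift a to ℕ using ha.le
    lift b to ℕ using hb.le
    refine mem_biUnion.2 ⟨⟨(c, b), a⟩, ?_, ?_⟩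
    · rw [hI, mem_sigma, mem_product, mem_filter, mem_Icc, mem_Icc, mem_Icc]
      refine ⟨⟨⟨by exact_mod_cast hc, ?_⟩, ⟨by exact_mod_cast hb, ?_⟩⟩,
        ⟨by exact_mod_cast ha, ?_⟩, hV, hHv⟩
      · have : (c : ℤ) ≤ Bd := hcB.trans (hcb ▸ e14)
        exact_mod_cast this
      · have : (b : ℤ) ≤ Bd := hbB.trans (hcb ▸ e14)
        exact_mod_cast this
      · have : (a : ℤ) ≤ 2 ^ (2 * j + j₀) := haA.trans hAle
        exact_mod_cast this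
    · exact mem_filter.2 ⟨hs, hca, hcb⟩
  have hfib : ∀ i ∈ I, (Φ i).card ≤ (2 * Bd ^ 2 + 1) * T ^ 2 := by
    intro i hi
    rw [hI, mem_sigma, mem_product, mem_Icc, mem_Icc] at hi
    obtain ⟨⟨⟨hc1, hc2⟩, hb1, hb2⟩, _⟩ := hi
    have hδ : (0 : ℤ) < (i.1.1 : ℤ) * (i.1.2 : ℤ) := by positivity
    refine (fibre_card hm ((i.1.1 : ℤ) * (i.1.2 : ℤ)) ((i.1.1 : ℤ) * (i.2 : ℤ)) hδ T (Φ i)
      ?_).trans (Nat.mul_le_mul_right _ ?_)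
    · intro s hs
      obtain ⟨hs1, hs2, hs3⟩ := mem_filter.1 hs
      obtain ⟨e1, e2, e3, e4, e5, e6, e7, e8, e9, e10, e11, e12, e13, e14, e15⟩ := hSS s hs1
      exact ⟨e1, e3, e5, e7, e9, e10, e11, e12, hs2, hs3⟩
    · have h1 : i.1.1 * i.1.2 ≤ Bd * Bd := Nat.mul_le_mul hc2 hb2
      have h2 : (2 * ((i.1.1 : ℤ) * (i.1.2 : ℤ)) + 1).toNat = 2 * (i.1.1 * i.1.2) + 1 := by
        have : (2 * ((i.1.1 : ℤ) * (i.1.2 : ℤ)) + 1) = ((2 * (i.1.1 * i.1.2) + 1 : ℕ) : ℤ) := by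
          push_cast; ring
        rw [this, Int.toNat_natCast]
      rw [h2, pow_two]; omega
  have hcard : S.card ≤ I.card * ((2 * Bd ^ 2 + 1) * T ^ 2) :=
    (card_le_card hcov).trans (card_biUnion_le_card_mul _ _ _ hfib)
  have hcardR : (S.card : ℝ) ≤ (I.card : ℝ) * ((2 * (Bd : ℝ) ^ 2 + 1) * (T : ℝ) ^ 2) := by
    exact_mod_cast hcard
  refine hcardR.trans ?_
  have h0 : (0 : ℝ) ≤ 4 ^ j * (T : ℝ) ^ 2 / (j : ℝ) ^ κ := by positivity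
  calc (I.card : ℝ) * ((2 * (Bd : ℝ) ^ 2 + 1) * (T : ℝ) ^ 2)
      ≤ (Bd * Cm * 2 ^ j₀ * 4 ^ j / (j : ℝ) ^ κ) * ((2 * (Bd : ℝ) ^ 2 + 1) * (T : ℝ) ^ 2) :=
        mul_le_mul_of_nonneg_right hIcard (by positivity)
    _ = (Bd * Cm * 2 ^ j₀ * (2 * (Bd : ℝ) ^ 2 + 1)) * (4 ^ j * (T : ℝ) ^ 2 / (j : ℝ) ^ κ) := by
        ring
    _ ≤ (Bd * Cm * 2 ^ j₀ * (2 * (Bd : ℝ) ^ 2 + 1) + 1) *
          (4 ^ j * (T : ℝ) ^ 2 / (j : ℝ) ^ κ) := by nlinarith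
    _ = _ := by ring

/-- Pairs of vertices of bounded determinant with different signs have few directions. -/
theorem bad_dirs (hg : PM g) (hm : 0 < m) (hS : Sparse g m) (L : ℕ) (Bd : ℤ) (κ : ℕ) :
    ∃ C : ℝ, 0 < C ∧ ∀ j : ℕ, 1 ≤ j → ∃ D : Finset ℝ, (D.card : ℝ) ≤ C * 4 ^ j / (j : ℝ) ^ κ ∧
      ∀ x y x' y' : ℤ, 0 < y → y ≤ 2 ^ j → 2 * m * y ≤ x → x ≤ L * y → 0 < y' → y' ≤ 2 ^ j →
        2 * m * y' ≤ x' → x' ≤ L * y' → Vx m x y → Vx m x' y' → |y * x' - x * y'| ≤ Bd →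
        H g m x y ≠ H g m x' y' → ((x : ℝ) / y ∈ D ∨ (x' : ℝ) / y' ∈ D) := by
  obtain ⟨C₁, hC₁, h₁⟩ := tau_count (m := m) hm L
  obtain ⟨C₂, hC₂, h₂⟩ := odd_pairs hg hm hS L Bd.toNat (3 * κ + 4)
  refine ⟨C₁ + C₂, by positivity, ?_⟩
  intro j hj
  have hj0 : (0 : ℝ) < (j : ℝ) := by exact_mod_cast hj
  set T : ℕ := j ^ (κ + 2) with hT
  have hTpos : 0 < T := by positivity
  set box : Finset (ℤ × ℤ) := (Icc (1 : ℤ) (L * 2 ^ j)) ×ˢ (Icc (1 : ℤ) (2 ^ j)) with hbox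
  set S₁ := box.filter (fun w : ℤ × ℤ =>
      Vx m w.1 w.2 ∧ T < (F m w.1 w.2).natAbs.divisors.card) with hS₁
  set S₂ : Finset ((ℤ × ℤ) × (ℤ × ℤ)) := (box ×ˢ box).filter (fun s =>
        0 < s.1.2 ∧ s.1.2 ≤ 2 ^ j ∧ 2 * m * s.1.2 ≤ s.1.1 ∧ s.1.1 ≤ L * s.1.2 ∧
        0 < s.2.2 ∧ s.2.2 ≤ 2 ^ j ∧ 2 * m * s.2.2 ≤ s.2.1 ∧ s.2.1 ≤ L * s.2.2 ∧
        Vx m s.1.1 s.1.2 ∧ Vx m s.2.1 s.2.2 ∧
        (F m s.1.1 s.1.2).natAbs.divisors.card ≤ T ∧ (F m s.2.1 s.2.2).natAbs.divisors.card ≤ T ∧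
        0 < s.1.2 * s.2.1 - s.1.1 * s.2.2 ∧
        s.1.2 * s.2.1 - s.1.1 * s.2.2 ≤ (Bd.toNat : ℤ) ∧
        H g m s.1.1 s.1.2 ≠ H g m s.2.1 s.2.2) with hS₂
  have hmem : ∀ x y : ℤ, 0 < y → y ≤ 2 ^ j → 2 * m * y ≤ x → x ≤ L * y → (x, y) ∈ box := by
    intro x y hy hy2 hx hx2
    have h1 : 0 < x := lt_of_lt_of_le (by positivity) hx
    have h2 : (L : ℤ) * y ≤ L * 2 ^ j := mul_le_mul_of_nonneg_left hy2 (by positivity)
    rw [hbox, mem_product, mem_Icc, mem_Icc]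
    exact ⟨⟨h1, hx2.trans h2⟩, hy, hy2⟩
  refine ⟨S₁.image (fun w : ℤ × ℤ => (w.1 : ℝ) / w.2) ∪
    S₂.image (fun s : (ℤ × ℤ) × (ℤ × ℤ) => (s.1.1 : ℝ) / s.1.2), ?_, ?_⟩
  · have e1 : (S₁.card : ℝ) ≤ C₁ * 4 ^ j / (j : ℝ) ^ κ := by
      refine (h₁ j hj T hTpos).trans (le_of_eq ?_)
      rw [hT]
      push_cast
      rw [pow_add]
      field_simp
    have e2 : (S₂.card : ℝ) ≤ C₂ * 4 ^ j / (j : ℝ) ^ κ := by
      refine (h₂ j hj T S₂ (fun s hs => (mem_filter.1 hs).2)).trans (le_of_eq ?_)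
      rw [hT]
      push_cast
      have : (j : ℝ) ^ (3 * κ + 4) = ((j : ℝ) ^ (κ + 2)) ^ 2 * (j : ℝ) ^ κ := by ring
      rw [this]
      field_simp
    have e3 := card_union_le (S₁.image (fun w : ℤ × ℤ => (w.1 : ℝ) / w.2))
      (S₂.image (fun s : (ℤ × ℤ) × (ℤ × ℤ) => (s.1.1 : ℝ) / s.1.2))
    have e4 := e3.trans (Nat.add_le_add card_image_le card_image_le)
    have e5 : (((S₁.image (fun w : ℤ × ℤ => (w.1 : ℝ) / w.2) ∪
      S₂.image (fun s : (ℤ × ℤ) × (ℤ × ℤ) => (s.1.1 : ℝ) / s.1.2)).card : ℕ) : ℝ) ≤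
        (S₁.card : ℝ) + S₂.card := by exact_mod_cast e4
    calc _ ≤ _ := e5
      _ ≤ C₁ * 4 ^ j / (j : ℝ) ^ κ + C₂ * 4 ^ j / (j : ℝ) ^ κ := add_le_add e1 e2
      _ = _ := by ring
  · intro x y x' y' hy hy2 hx hx2 hy' hy2' hx' hx2' hV hV' hdet hne
    have hmem1 := hmem x y hy hy2 hx hx2
    have hmem2 := hmem x' y' hy' hy2' hx' hx2'
    by_cases t1 : T < (F m x y).natAbs.divisors.card
    · left
      refine mem_union_left _ (mem_image.2 ⟨(x, y), ?_, rfl⟩)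
      exact mem_filter.2 ⟨hmem1, hV, t1⟩
    by_cases t2 : T < (F m x' y').natAbs.divisors.card
    · right
      refine mem_union_left _ (mem_image.2 ⟨(x', y'), ?_, rfl⟩)
      exact mem_filter.2 ⟨hmem2, hV', t2⟩
    push Not at t1 t2
    have hBd : (Bd.toNat : ℤ) = Bd := Int.toNat_of_nonneg ((abs_nonneg _).trans hdet)
    obtain ⟨d1, d2⟩ := abs_le.1 hdet
    rcases lt_trichotomy (y * x' - x * y') 0 with hneg | hzero | hpos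
    · right
      refine mem_union_right _ (mem_image.2 ⟨((x', y'), (x, y)), ?_, rfl⟩)
      refine mem_filter.2 ⟨mem_product.2 ⟨hmem2, hmem1⟩, hy', hy2', hx', hx2', hy, hy2, hx, hx2,
        hV', hV, t2, t1, ?_, ?_, hne.symm⟩
      · show 0 < y' * x - x' * y
        linarith
      · show y' * x - x' * y ≤ (Bd.toNat : ℤ)
        rw [hBd]; linarith
    · exfalso
      apply hne
      have h1 : y * x' = x * y' := by linarith
      have h2 : y ∣ y' := hV.1.symm.dvd_of_dvd_mul_left (Dvd.intro x' h1)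
      have h3 : y' ∣ y := hV'.1.symm.dvd_of_dvd_mul_right (Dvd.intro_left x h1.symm)
      have h4 : y = y' := Int.dvd_antisymm hy.le hy'.le h2 h3
      subst h4
      have h5 : x = x' := by
        have : y * x' = y * x := by linarith
        exact (mul_left_cancel₀ hy.ne' this).symm
      rw [h5]
    · left
      refine mem_union_right _ (mem_image.2 ⟨((x, y), (x', y')), ?_, rfl⟩)
      refine mem_filter.2 ⟨mem_product.2 ⟨hmem1, hmem2⟩, hy, hy2, hx, hx2, hy', hy2', hx', hx2',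
        hV, hV', t1, t2, hpos, ?_, hne⟩
      show y * x' - x * y' ≤ (Bd.toNat : ℤ)
      rw [hBd]; exact d2

end Pool.Agent.H48.AP
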