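import Pool.Agent.H48.AP.Contra
import Pool.Agent.H48.AP.Pairs
import Pool.Agent.H48.AP.Spread

/-!
Part B: `Sparse g m` implies that `H g m` is `1` on all vertices.
-/

set_option autoImplicit false

namespace Pool.Agent.H48.AP

open Pool.Agent.H41.Per (PM)

variable {g : ℕ → ℤ} {m : ℤ}

theorem badDirs_of_sparse (hg : PM g) (hm : 0 < m) (hS : Sparse g m) : BadDirs g m :=
  fun L Bd κ => bad_dirs hg hm hS L Bd κ

/-- Part B -/
theorem all_even_of_sparse (hg : PM g) (hm : 0 < m) (hS : Sparse g m) {x y : ℤ}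
    (hxy : IsCoprime x y) (hxm : IsCoprime x m) (h3 : ¬ (3 : ℤ) ∣ x) : H g m x y = 1 :=
  even_all hg hm (even_near_of_badDirs hg hm (badDirs_of_sparse hg hm hS)) hxy hxm h3

end Pool.Agent.H48.AP
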