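import Pool.Agent.H48.AP.Alg
import Pool.Agent.H48.AP.Chain

/-!
A vertex in each Farey interval: `r = α u + β v` with bounded coprime `α, β ≥ 0` depending only
on the residues of `xu, xv` modulo `3m`.
-/

set_option autoImplicit false

namespace Pool.Agent.H48.AP

open Pool.Agent.H41.Per (PM)

variable {m : ℤ}

lemma exists_coprime_lift (N α b : ℕ) (hα : 0 < α) (h : ∀ p : ℕ, p.Prime → p ∣ N → p ∣ α →
    ¬ p ∣ b) : ∃ t : ℕ, Nat.Coprime α (b + N * t) := by
  classical
  refine ⟨∏ p ∈ α.primeFactors.filter (fun p => ¬ p ∣ b), p, ?_⟩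
  set t := ∏ p ∈ α.primeFactors.filter (fun p => ¬ p ∣ b), p with ht
  by_contra hne
  rw [Nat.Prime.not_coprime_iff_dvd] at hne
  obtain ⟨p, hp, hpα, hpb⟩ := hne
  by_cases hb : p ∣ b
  · have h1 : p ∣ N * t := (Nat.dvd_add_right hb).1 hpb
    rcases hp.dvd_mul.1 h1 with h2 | h2
    · exact h p hp h2 hpα hb
    · rw [ht, hp.prime.dvd_finsetProd_iff] at h2
      obtain ⟨q, hq, hpq⟩ := h2
      rw [Finset.mem_filter, Nat.mem_primeFactors] at hq
      have h3 := (Nat.prime_dvd_prime_iff_eq hp hq.1.1).1 hpq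
      rw [← h3] at hq
      exact hq.2 hb
  · have h1 : p ∣ t := by
      rw [ht]
      apply Finset.dvd_prod_of_mem
      rw [Finset.mem_filter, Nat.mem_primeFactors]
      exact ⟨⟨hp, hpα, hα.ne'⟩, hb⟩
    apply hb
    exact (Nat.dvd_add_left (h1.mul_left N)).1 hpb

lemma exists_coef (N : ℕ) [NeZero N] (i j : ZMod N) (h : ∃ a b : ZMod N, a * i + b * j = 1) :
    ∃ α β : ℕ, Nat.Coprime α β ∧ (α : ZMod N) * i + (β : ZMod N) * j = 1 := by
  obtain ⟨a, b, hab⟩ := h
  have hN : 0 < N := Nat.pos_of_ne_zero (NeZero.ne N)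
  set α : ℕ := a.val + N with hα
  have hα0 : 0 < α := by omega
  have hαa : (α : ZMod N) = a := by rw [hα]; simp
  have hbb : ((b.val : ℕ) : ZMod N) = b := by simp
  obtain ⟨t, ht⟩ := exists_coprime_lift N α b.val hα0 (by
    intro p hp hpN hpα hpb
    -- modulo `p`
    have : Fact p.Prime := ⟨hp⟩
    have f := ZMod.castHom hpN (ZMod p)
    have e1 : (ZMod.castHom hpN (ZMod p)) a = 0 := by
      rw [← hαa, map_natCast]
      exact (ZMod.natCast_eq_zero_iff _ _).2 hpα
    have e2 : (ZMod.castHom hpN (ZMod p)) b = 0 := by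
      rw [← hbb, map_natCast]
      exact (ZMod.natCast_eq_zero_iff _ _).2 hpb
    have e3 := congrArg (ZMod.castHom hpN (ZMod p)) hab
    rw [map_add, map_mul, map_mul, e1, e2, zero_mul, zero_mul, add_zero, map_one] at e3
    exact zero_ne_one e3)
  refine ⟨α, b.val + N * t, ht, ?_⟩
  push_cast
  rw [hαa, hbb]
  simpa using hab

open Classical in
/-- the coefficients -/
noncomputable def coef (N : ℕ) (i j : ZMod N) : ℕ × ℕ :=
  if h : ∃ α β : ℕ, Nat.Coprime α β ∧ (α : ZMod N) * i + (β : ZMod N) * j = 1 then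
    (h.choose, h.choose_spec.choose) else (1, 0)

lemma coef_coprime (N : ℕ) (i j : ZMod N) : Nat.Coprime (coef N i j).1 (coef N i j).2 := by
  unfold coef
  split_ifs with h
  · exact h.choose_spec.choose_spec.1
  · simp

lemma coef_spec (N : ℕ) [NeZero N] (i j : ZMod N) (h : ∃ a b : ZMod N, a * i + b * j = 1) :
    ((coef N i j).1 : ZMod N) * i + ((coef N i j).2 : ZMod N) * j = 1 := by
  have h' := exists_coef N i j h
  unfold coef
  rw [dif_pos h']
  exact h'.choose_spec.choose_spec.2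

/-- bound for the coefficients -/
noncomputable def cB (N : ℕ) [NeZero N] : ℕ :=
  ∑ i : ZMod N, ∑ j : ZMod N, ((coef N i j).1 + (coef N i j).2)

lemma coef_le (N : ℕ) [NeZero N] (i j : ZMod N) :
    (coef N i j).1 + (coef N i j).2 ≤ cB N := by
  unfold cB
  calc (coef N i j).1 + (coef N i j).2 ≤ ∑ j : ZMod N, ((coef N i j).1 + (coef N i j).2) :=
        Finset.single_le_sum (f := fun j => (coef N i j).1 + (coef N i j).2)
          (fun _ _ => Nat.zero_le _) (Finset.mem_univ j)
    _ ≤ _ := Finset.single_le_sum (f := fun i => ∑ j : ZMod N, ((coef N i j).1 + (coef N i j).2))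
          (fun _ _ => Nat.zero_le _) (Finset.mem_univ i)

/-- the modulus `3m` as a natural number -/
def md (m : ℤ) : ℕ := (3 * m).natAbs

/-- coefficients of the vertex in the interval `J` -/
noncomputable def ca (m : ℤ) (J : Node) : ℕ := (coef (md m) (J.xu : ZMod (md m)) J.xv).1

/-- coefficients of the vertex in the interval `J` -/
noncomputable def cb (m : ℤ) (J : Node) : ℕ := (coef (md m) (J.xu : ZMod (md m)) J.xv).2

/-- the vertex in the interval `J`, first coordinate -/
noncomputable def rx (m : ℤ) (J : Node) : ℤ := ca m J * J.xu + cb m J * J.xv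

/-- the vertex in the interval `J`, second coordinate -/
noncomputable def ry (m : ℤ) (J : Node) : ℤ := ca m J * J.yu + cb m J * J.yv

/-- bound for the coefficients -/
noncomputable def Bm (m : ℤ) : ℕ := if h : md m = 0 then 1 else @cB (md m) ⟨h⟩

lemma md_ne {m : ℤ} (hm : 0 < m) : md m ≠ 0 := by unfold md; omega

lemma coef_le_Bm (hm : 0 < m) (J : Node) : ca m J + cb m J ≤ Bm m := by
  unfold ca cb Bm
  rw [dif_neg (md_ne hm)]
  exact @coef_le (md m) ⟨md_ne hm⟩ _ _

lemma coef_pos (m : ℤ) (J : Node) : 1 ≤ ca m J + cb m J := by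
  by_contra h
  have h1 : ca m J = 0 ∧ cb m J = 0 := by omega
  have := coef_coprime (md m) (J.xu : ZMod (md m)) J.xv
  unfold ca cb at h1
  rw [h1.1, h1.2] at this
  simp at this

lemma Bm_pos (hm : 0 < m) : 1 ≤ Bm m :=
  (coef_pos m ⟨0, 1, 1, 1⟩).trans (coef_le_Bm hm _)

variable {a0 : ℤ} {J : Node}

lemma r_one (hm : 0 < m) (h : J.Ok a0) : (3 * m) ∣ rx m J - 1 := by
  have : NeZero (md m) := ⟨md_ne hm⟩
  have hmd : ((md m : ℕ) : ℤ) = 3 * m := by
    unfold md; rw [Int.natCast_natAbs, abs_of_pos (by positivity)]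
  have h1 := coef_spec (md m) (J.xu : ZMod (md m)) J.xv ⟨-(J.yv : ZMod (md m)), J.yu, by
    have e : ((J.xv * J.yu - J.xu * J.yv : ℤ) : ZMod (md m)) = 1 := by rw [h.det]; simp
    push_cast at e
    linear_combination e⟩
  rw [← hmd, ← ZMod.intCast_zmod_eq_zero_iff_dvd]
  unfold rx ca cb
  push_cast
  linear_combination h1

lemma r_vx (hm : 0 < m) (h : J.Ok a0) : Vx m (rx m J) (ry m J) := by
  obtain ⟨s, hs⟩ := r_one hm h
  refine ⟨?_, ?_, ?_⟩
  · have h1 : IsCoprime (ca m J : ℤ) (cb m J : ℤ) :=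
      Nat.isCoprime_iff_coprime.2 (coef_coprime _ _ _)
    obtain ⟨p, q, hpq⟩ := h1
    refine ⟨-(p * J.yv) + q * J.yu, p * J.xv - q * J.xu, ?_⟩
    unfold rx ry
    have hdet := h.det
    linear_combination hpq + (p * ca m J + q * cb m J) * hdet
  · exact ⟨1, -(3 * s), by linear_combination hs⟩
  · have : rx m J = 1 + 3 * (m * s) := by linear_combination hs
    omega

lemma ry_pos (h : J.Ok a0) : 1 ≤ ry m J := by
  have h1 := coef_pos m J
  have hu := h.hu
  have hv := h.hv
  unfold ry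
  have e1 : (ca m J : ℤ) ≤ ca m J * J.yu := by nlinarith [Int.natCast_nonneg (ca m J)]
  have e2 : (cb m J : ℤ) ≤ cb m J * J.yv := by nlinarith [Int.natCast_nonneg (cb m J)]
  have e3 : (1 : ℤ) ≤ ca m J + cb m J := by exact_mod_cast h1
  linarith

lemma ry_le (hm : 0 < m) (h : J.Ok a0) : ry m J ≤ Bm m * J.sz := by
  have h1 := coef_le_Bm hm J
  have hu := h.hu
  have hv := h.hv
  unfold ry Node.sz
  have e1 : (ca m J : ℤ) ≤ Bm m := by exact_mod_cast (by omega : ca m J ≤ Bm m)
  have e2 : (cb m J : ℤ) ≤ Bm m := by exact_mod_cast (by omega : cb m J ≤ Bm m)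
  nlinarith

lemma r_lo (h : J.Ok a0) : a0 * ry m J ≤ rx m J := by
  have h1 := h.lo
  have h2 := h.lo'
  unfold rx ry
  have e1 : (ca m J : ℤ) * (a0 * J.yu) ≤ ca m J * J.xu :=
    mul_le_mul_of_nonneg_left h1 (Int.natCast_nonneg _)
  have e2 : (cb m J : ℤ) * (a0 * J.yv) ≤ cb m J * J.xv :=
    mul_le_mul_of_nonneg_left h2 (Int.natCast_nonneg _)
  nlinarith

lemma r_hi (h : J.Ok a0) : rx m J ≤ (a0 + 1) * ry m J := by
  have h1 := h.hi
  have h2 := h.hi'
  unfold rx ry
  have e1 : (ca m J : ℤ) * J.xu ≤ ca m J * ((a0 + 1) * J.yu) :=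
    mul_le_mul_of_nonneg_left h1 (Int.natCast_nonneg _)
  have e2 : (cb m J : ℤ) * J.xv ≤ cb m J * ((a0 + 1) * J.yv) :=
    mul_le_mul_of_nonneg_left h2 (Int.natCast_nonneg _)
  nlinarith

/-- the vertex is close to every point of the interval -/
lemma r_near (h : J.Ok a0) {X : ℝ} (hX : J.Mem X) :
    |X - (rx m J : ℝ) / ry m J| ≤ 1 / ((J.yu : ℝ) * J.yv) := by
  have hy : (0 : ℝ) < ry m J := by
    have := ry_pos (m := m) h
    exact_mod_cast (by omega : 0 < ry m J)
  have hdet := h.det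
  refine Node.dist_le h hX.1 hX.2.le ?_ ?_
  · rw [div_mul_eq_mul_div, le_div_iff₀ hy]
    have : J.xu * ry m J ≤ rx m J * J.yu := by
      have e : rx m J * J.yu - J.xu * ry m J = cb m J * (J.xv * J.yu - J.xu * J.yv) := by
        unfold rx ry; ring
      rw [hdet, mul_one] at e
      have := Int.natCast_nonneg (cb m J)
      linarith
    exact_mod_cast this
  · rw [div_mul_eq_mul_div, div_le_iff₀ hy]
    have : rx m J * J.yv ≤ J.xv * ry m J := by
      have e : J.xv * ry m J - rx m J * J.yv = ca m J * (J.xv * J.yu - J.xu * J.yv) := by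
        unfold rx ry; ring
      rw [hdet, mul_one] at e
      have := Int.natCast_nonneg (ca m J)
      linarith
    exact_mod_cast this

/-- the determinant of consecutive vertices is bounded -/
lemma r_det (hm : 0 < m) (h : J.Ok a0) {J' : Node} (h' : J' = J.left ∨ J' = J.right) :
    |ry m J * rx m J' - rx m J * ry m J'| ≤ 4 * (Bm m : ℤ) ^ 2 := by
  have hdet := h.det
  have b1 := coef_le_Bm hm J
  have b2 := coef_le_Bm hm J'
  have c1 : (0 : ℤ) ≤ ca m J := Int.natCast_nonneg _
  have c2 : (0 : ℤ) ≤ cb m J := Int.natCast_nonneg _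
  have c3 : (0 : ℤ) ≤ ca m J' := Int.natCast_nonneg _
  have c4 : (0 : ℤ) ≤ cb m J' := Int.natCast_nonneg _
  have d1 : (ca m J : ℤ) + cb m J ≤ Bm m := by exact_mod_cast b1
  have d2 : (ca m J' : ℤ) + cb m J' ≤ Bm m := by exact_mod_cast b2
  have hJ' : J' = J.left ∨ J' = J.right := h'
  rcases h' with e | e
  · have e1 : ry m J * rx m J' - rx m J * ry m J' =
        (ca m J * cb m J' - cb m J * (ca m J' + cb m J')) *
          (J.xv * J.yu - J.xu * J.yv) := by
      have hx : rx m J' = ca m J' * J.xu + cb m J' * (J.xu + J.xv) := by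
        conv_lhs => unfold rx
        rw [show J'.xu = J.xu by rw [e]; rfl, show J'.xv = J.xu + J.xv by rw [e]; rfl]
      have hy : ry m J' = ca m J' * J.yu + cb m J' * (J.yu + J.yv) := by
        conv_lhs => unfold ry
        rw [show J'.yu = J.yu by rw [e]; rfl, show J'.yv = J.yu + J.yv by rw [e]; rfl]
      rw [hx, hy]
      unfold rx ry
      ring
    rw [e1, hdet, mul_one, abs_le]
    constructor <;> nlinarith
  · have e1 : ry m J * rx m J' - rx m J * ry m J' =
        (ca m J * (ca m J' + cb m J') - cb m J * ca m J') *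
          (J.xv * J.yu - J.xu * J.yv) := by
      have hx : rx m J' = ca m J' * (J.xu + J.xv) + cb m J' * J.xv := by
        conv_lhs => unfold rx
        rw [show J'.xu = J.xu + J.xv by rw [e]; rfl, show J'.xv = J.xv by rw [e]; rfl]
      have hy : ry m J' = ca m J' * (J.yu + J.yv) + cb m J' * J.yv := by
        conv_lhs => unfold ry
        rw [show J'.yu = J.yu + J.yv by rw [e]; rfl, show J'.yv = J.yv by rw [e]; rfl]
      rw [hx, hy]
      unfold rx ry
      ring
    rw [e1, hdet, mul_one, abs_le]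
    constructor <;> nlinarith

end Pool.Agent.H48.AP
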