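import Pool.Agent.H48.AP.Alg

/-!
Few vertices have many divisors: first moment of the number of divisors of `F m x y` in a box.
-/

set_option autoImplicit false

namespace Pool.Agent.H48.AP

open Pool.Agent.H41.Per (PM)
open Finset
open scoped Classical

variable {g : ℕ → ℤ} {m : ℤ}

/-- at most `τ(d)` solutions in an interval of length `d` -/
lemma tau_interval (hm : 0 < m) (d : ℕ) (hd : 0 < d) (y k : ℤ) :
    ((Ico k (k + d)).filter (fun x : ℤ => Vx m x y ∧ (d : ℤ) ∣ F m x y)).card ≤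
      d.divisors.card := by
  rcases ((Ico k (k + d)).filter (fun x : ℤ => Vx m x y ∧ (d : ℤ) ∣ F m x y)).eq_empty_or_nonempty
    with h0 | ⟨x0, hx0⟩
  · rw [h0]; simp
  rw [mem_filter] at hx0
  obtain ⟨hx0I, hV0, hd0⟩ := hx0
  -- primes dividing `d` do not divide `3 m² y²`
  have hpr : ∀ p : ℕ, p.Prime → p ∣ d → ¬ (p : ℤ) ∣ 3 * m ^ 2 * y ^ 2 := by
    intro p hp hpd h
    have hpI : Prime (p : ℤ) := Nat.prime_iff_prime_int.1 hp
    have h1 : (p : ℤ) ∣ F m x0 y := (Int.natCast_dvd_natCast.2 hpd).trans hd0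
    have hmod := prime_mod_three hp hV0.1 hV0.2.1 (fun h3 => by have := hV0.2.2; omega) h1
    rcases hpI.dvd_or_dvd h with h2 | h2
    · rcases hpI.dvd_or_dvd h2 with h3 | h3
      · have h5 : p ∣ 3 := by exact_mod_cast h3
        have := (Nat.prime_dvd_prime_iff_eq hp Nat.prime_three).1 h5
        omega
      · have h4 := hpI.dvd_of_dvd_pow h3
        have h5 : (p : ℤ) ∣ x0 ^ 2 := by
          have e : x0 ^ 2 = F m x0 y - m * (3 * x0 * y + 3 * m * y ^ 2) := by unfold F; ring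
          rw [e]; exact dvd_sub h1 (h4.mul_right _)
        exact hpI.not_isUnit (hV0.2.1.isUnit_of_dvd' (hpI.dvd_of_dvd_pow h5) h4)
    · have h4 := hpI.dvd_of_dvd_pow h2
      have h5 : (p : ℤ) ∣ x0 ^ 2 := by
        have e : x0 ^ 2 = F m x0 y - y * (3 * m * x0 + 3 * m ^ 2 * y) := by unfold F; ring
        rw [e]; exact dvd_sub h1 (h4.mul_right _)
      exact hpI.not_isUnit (hV0.1.isUnit_of_dvd' (hpI.dvd_of_dvd_pow h5) h4)
  refine card_le_card_of_injOn (fun x : ℤ => Int.gcd (d : ℤ) (x - x0)) ?_ ?_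
  · intro x _
    rw [mem_coe, Nat.mem_divisors]
    refine ⟨?_, hd.ne'⟩
    have := Int.gcd_dvd_left (d : ℤ) (x - x0)
    exact_mod_cast this
  · intro x hx x' hx' he
    rw [mem_coe, mem_filter, mem_Ico] at hx hx'
    obtain ⟨⟨ha, hb⟩, hV, hdx⟩ := hx
    obtain ⟨⟨ha', hb'⟩, hV', hdx'⟩ := hx'
    simp only at he
    set e : ℕ := Int.gcd (d : ℤ) (x - x0) with hedef
    have he0 : 0 < e := Int.gcd_pos_of_ne_zero_left _ (by exact_mod_cast hd.ne')
    have hed : (e : ℤ) ∣ d := Int.gcd_dvd_left _ _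
    have hedN : e ∣ d := by exact_mod_cast hed
    obtain ⟨f, hf⟩ := hedN
    -- general fact
    have key : ∀ z : ℤ, Int.gcd (d : ℤ) (z - x0) = e → (d : ℤ) ∣ F m z y →
        (e : ℤ) ∣ z - x0 ∧ (f : ℤ) ∣ z + x0 + 3 * m * y := by
      intro z hz hdz
      have h1 : (e : ℤ) ∣ z - x0 := by rw [← hz]; exact Int.gcd_dvd_right _ _
      refine ⟨h1, ?_⟩
      obtain ⟨s, hs⟩ := h1
      have hcop : IsCoprime (f : ℤ) s := by
        rw [Int.isCoprime_iff_gcd_eq_one]
        have h2 : Int.gcd ((e : ℤ) * f) (e * s) = e * Int.gcd (f : ℤ) s := by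
          rw [Int.gcd_mul_left]; simp
        have h3 : ((e : ℤ) * f) = (d : ℤ) := by rw [hf]; push_cast; ring
        rw [h3, ← hs, hz] at h2
        exact Nat.eq_of_mul_eq_mul_left he0 (by omega)
      have h4 : (d : ℤ) ∣ (z - x0) * (z + x0 + 3 * m * y) := by
        have e1 : (z - x0) * (z + x0 + 3 * m * y) = F m z y - F m x0 y := by unfold F; ring
        rw [e1]; exact dvd_sub hdz hd0
      have h5 : (e : ℤ) * f ∣ e * (s * (z + x0 + 3 * m * y)) := by
        have h3 : ((e : ℤ) * f) = (d : ℤ) := by rw [hf]; push_cast; ring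
        rw [h3, ← mul_assoc, ← hs]; exact h4
      have h6 : (f : ℤ) ∣ s * (z + x0 + 3 * m * y) :=
        Int.dvd_of_mul_dvd_mul_left (by exact_mod_cast he0.ne') h5
      exact hcop.dvd_of_dvd_mul_left h6
    obtain ⟨k1, k2⟩ := key x rfl hdx
    obtain ⟨k1', k2'⟩ := key x' he.symm hdx'
    have c1 : (e : ℤ) ∣ x - x' := by
      have : x - x' = (x - x0) - (x' - x0) := by ring
      rw [this]; exact dvd_sub k1 k1'
    have c2 : (f : ℤ) ∣ x - x' := by
      have : x - x' = (x + x0 + 3 * m * y) - (x' + x0 + 3 * m * y) := by ring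
      rw [this]; exact dvd_sub k2 k2'
    have hef : IsCoprime (e : ℤ) f := by
      rw [Int.isCoprime_iff_gcd_eq_one, Int.gcd_natCast_natCast]
      by_contra hne
      obtain ⟨p, hp, hpe⟩ := Nat.exists_prime_and_dvd hne
      have hpe1 : p ∣ e := hpe.trans (Nat.gcd_dvd_left _ _)
      have hpf1 : p ∣ f := hpe.trans (Nat.gcd_dvd_right _ _)
      have hp1 : (p : ℤ) ∣ x - x0 := (Int.natCast_dvd_natCast.2 hpe1).trans k1
      have hp2 : (p : ℤ) ∣ x + x0 + 3 * m * y := (Int.natCast_dvd_natCast.2 hpf1).trans k2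
      have hpd : p ∣ d := by rw [hf]; exact hpe1.mul_right _
      apply hpr p hp hpd
      have h7 : (p : ℤ) ∣ 2 * x0 + 3 * m * y := by
        have : 2 * x0 + 3 * m * y = (x + x0 + 3 * m * y) - (x - x0) := by ring
        rw [this]; exact dvd_sub hp2 hp1
      have h8 : (p : ℤ) ∣ F m x0 y := (Int.natCast_dvd_natCast.2 hpd).trans hd0
      have e2 : 3 * m ^ 2 * y ^ 2 =
          4 * F m x0 y - (2 * x0 + 3 * m * y) * (2 * x0 + 3 * m * y) := by unfold F; ring
      rw [e2]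
      exact dvd_sub (h8.mul_left _) (h7.mul_right _)
    have hdd : (d : ℤ) ∣ x - x' := by
      have h3 : (d : ℤ) = (e : ℤ) * f := by rw [hf]; push_cast; ring
      rw [h3]; exact hef.mul_dvd c1 c2
    have : x - x' = 0 := by
      apply Int.eq_zero_of_abs_lt_dvd hdd
      rw [abs_lt]
      constructor <;> linarith
    linarith

lemma tau_row (hm : 0 < m) (d X : ℕ) (hd : 0 < d) (y : ℤ) :
    ((Icc (1 : ℤ) X).filter (fun x : ℤ => Vx m x y ∧ (d : ℤ) ∣ F m x y)).card ≤
      (X / d + 1) * d.divisors.card := by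
  have hsub : ((Icc (1 : ℤ) X).filter (fun x : ℤ => Vx m x y ∧ (d : ℤ) ∣ F m x y)) ⊆
      (range (X / d + 1)).biUnion (fun i => (Ico ((i * d : ℕ) : ℤ) (((i * d : ℕ) : ℤ) + d)).filter
        (fun x : ℤ => Vx m x y ∧ (d : ℤ) ∣ F m x y)) := by
    intro x hx
    rw [mem_filter, mem_Icc] at hx
    obtain ⟨⟨h1, h2⟩, h3⟩ := hx
    obtain ⟨n, rfl⟩ := Int.eq_ofNat_of_zero_le (by omega : 0 ≤ x)
    rw [mem_biUnion]
    refine ⟨n / d, ?_, ?_⟩
    · rw [mem_range, Nat.lt_succ_iff]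
      exact Nat.div_le_div_right (by exact_mod_cast h2)
    · rw [mem_filter, mem_Ico]
      refine ⟨⟨?_, ?_⟩, h3⟩
      · exact_mod_cast Nat.div_mul_le_self n d
      · have := Nat.lt_div_mul_add hd (a := n)
        exact_mod_cast this
  refine (card_le_card hsub).trans ?_
  refine (card_biUnion_le).trans ?_
  refine (sum_le_card_nsmul _ _ _ (fun i _ => tau_interval hm d hd y _)).trans ?_
  simp

lemma tau_half {n D : ℕ} (hn : 0 < n) (h : n ≤ D ^ 2) :
    n.divisors.card ≤ 2 * (n.divisors.filter (fun d => d ≤ D)).card := by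
  have h1 := card_filter_add_card_filter_not (s := n.divisors) (p := fun d => d ≤ D)
  have h2 : (n.divisors.filter (fun d => ¬ d ≤ D)).card ≤
      (n.divisors.filter (fun d => d ≤ D)).card := by
    refine card_le_card_of_injOn (fun d => n / d) ?_ ?_
    · intro d hd
      rw [mem_coe, mem_filter, Nat.mem_divisors] at hd
      obtain ⟨⟨⟨e, he⟩, _⟩, hD⟩ := hd
      rw [mem_coe, mem_filter, Nat.mem_divisors]
      have hd0 : 0 < d := by omega
      have hq : n / d = e := by rw [he]; exact Nat.mul_div_cancel_left _ hd0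
      simp only
      rw [hq]
      refine ⟨⟨⟨d, by rw [he]; ring⟩, hn.ne'⟩, ?_⟩
      by_contra hcon
      push Not at hcon hD
      nlinarith
    · intro d hd d' hd' hdd
      rw [mem_coe, mem_filter, Nat.mem_divisors] at hd hd'
      simp only at hdd
      have e1 := Nat.div_mul_cancel hd.1.1
      have e2 := Nat.div_mul_cancel hd'.1.1
      rw [hdd] at e1
      have h0 : 0 < n / d' := Nat.div_pos (Nat.le_of_dvd hn hd'.1.1)
        (Nat.pos_of_dvd_of_pos hd'.1.1 hn)
      exact Nat.eq_of_mul_eq_mul_left h0 (by rw [e1, e2])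
  omega

lemma tau_sum (D : ℕ) : ∑ d ∈ Icc 1 D, (d.divisors.card : ℝ) / d ≤ (1 + Real.log D) ^ 2 := by
  have hH : ∑ d ∈ Icc 1 D, (1 : ℝ) / d ≤ 1 + Real.log D := by
    have := harmonic_le_one_add_log D
    rw [harmonic_eq_sum_Icc] at this
    push_cast at this
    simpa [one_div] using this
  have h0 : 0 ≤ ∑ d ∈ Icc 1 D, (1 : ℝ) / d := sum_nonneg (fun i _ => by positivity)
  calc ∑ d ∈ Icc 1 D, (d.divisors.card : ℝ) / d
      = ∑ d ∈ Icc 1 D, ∑ x ∈ d.divisorsAntidiagonal, (1 : ℝ) / (x.1 * x.2) := by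
        refine sum_congr rfl (fun d hd => ?_)
        have hd1 : 0 < d := by rw [mem_Icc] at hd; omega
        have : ∀ x ∈ d.divisorsAntidiagonal, (1 : ℝ) / (x.1 * x.2) = 1 / d := by
          intro x hx
          rw [Nat.mem_divisorsAntidiagonal] at hx
          rw [← hx.1]; push_cast; rfl
        rw [sum_congr rfl this, sum_const, nsmul_eq_mul]
        have hc : d.divisorsAntidiagonal.card = d.divisors.card := by
          rw [← Nat.map_div_right_divisors]; simp
        rw [hc]; ring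
    _ = ∑ z ∈ (Icc 1 D).sigma (fun d => d.divisorsAntidiagonal), (1 : ℝ) / (z.2.1 * z.2.2) := by
        rw [sum_sigma]
    _ ≤ ∑ z ∈ (Icc 1 D) ×ˢ (Icc 1 D), (1 : ℝ) / (z.1 * z.2) := by
        have hinj : Set.InjOn (fun z : (_ : ℕ) × (ℕ × ℕ) => z.2)
            (((Icc 1 D).sigma (fun d => d.divisorsAntidiagonal) : Finset _) : Set _) := by
          rintro ⟨a, b⟩ hz ⟨a', b'⟩ hz' he
          rw [mem_coe, mem_sigma, Nat.mem_divisorsAntidiagonal] at hz hz'
          simp only at he hz hz'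
          subst he
          have : a = a' := by rw [← hz.2.1, ← hz'.2.1]
          subst this
          rfl
        rw [← sum_image (f := fun w : ℕ × ℕ => (1 : ℝ) / (w.1 * w.2)) hinj]
        refine sum_le_sum_of_subset_of_nonneg ?_ (fun i _ _ => by positivity)
        intro w hw
        rw [mem_image] at hw
        obtain ⟨⟨a, b⟩, hz, rfl⟩ := hw
        rw [mem_sigma, Nat.mem_divisorsAntidiagonal, mem_Icc] at hz
        obtain ⟨⟨h1, h2⟩, h3, h4⟩ := hz
        simp only at h1 h2 h3 h4 ⊢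
        rw [mem_product, mem_Icc, mem_Icc]
        have hb1 : 0 < b.1 := by
          rcases Nat.eq_zero_or_pos b.1 with h | h
          · rw [h, zero_mul] at h3; omega
          · exact h
        have hb2 : 0 < b.2 := by
          rcases Nat.eq_zero_or_pos b.2 with h | h
          · rw [h, mul_zero] at h3; omega
          · exact h
        refine ⟨⟨hb1, ?_⟩, hb2, ?_⟩ <;> nlinarith
    _ = (∑ d ∈ Icc 1 D, (1 : ℝ) / d) ^ 2 := by
        rw [sum_product, sq, sum_mul_sum]
        refine sum_congr rfl (fun a _ => sum_congr rfl (fun b _ => ?_))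
        rw [one_div_mul_one_div]
    _ ≤ _ := by gcongr

/-- few vertices have many divisors (first moment in two dimensions) -/
theorem tau_count (hm : 0 < m) (L : ℕ) : ∃ C : ℝ, 0 < C ∧ ∀ j : ℕ, 1 ≤ j → ∀ T : ℕ, 0 < T →
    ((((Icc (1 : ℤ) (L * 2 ^ j)) ×ˢ (Icc (1 : ℤ) (2 ^ j))).filter (fun w : ℤ × ℤ =>
      Vx m w.1 w.2 ∧ T < (F m w.1 w.2).natAbs.divisors.card)).card : ℝ) ≤
      C * 4 ^ j * (j : ℝ) ^ 2 / T := by
  obtain ⟨M, hM⟩ := Int.eq_ofNat_of_zero_le hm.le
  have hM0 : 0 < M := by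
    rcases Nat.eq_zero_or_pos M with h | h
    · rw [h] at hM; simp at hM; omega
    · exact h
  set E : ℕ := L + 3 * M with hE
  have hE0 : 0 < E := by omega
  have hEr : (1 : ℝ) ≤ E := by exact_mod_cast hE0
  have hlogE : 0 ≤ Real.log E := Real.log_nonneg hEr
  refine ⟨2 * (L + E) * (2 + Real.log E) ^ 2, by positivity, ?_⟩
  intro j hj T hT
  set D : ℕ := E * 2 ^ j with hD
  set B := ((Icc (1 : ℤ) (L * 2 ^ j)) ×ˢ (Icc (1 : ℤ) (2 ^ j))).filter (fun w : ℤ × ℤ =>
      Vx m w.1 w.2) with hB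
  set B' := ((Icc (1 : ℤ) (L * 2 ^ j)) ×ˢ (Icc (1 : ℤ) (2 ^ j))).filter (fun w : ℤ × ℤ =>
      Vx m w.1 w.2 ∧ T < (F m w.1 w.2).natAbs.divisors.card) with hB'
  -- every value is at most `D ^ 2`
  have hFD : ∀ w ∈ B, (F m w.1 w.2).natAbs ≤ D ^ 2 := by
    intro w hw
    rw [hB, mem_filter, mem_product, mem_Icc, mem_Icc] at hw
    obtain ⟨⟨⟨h1, h2⟩, h3, h4⟩, _⟩ := hw
    have h5 : (((F m w.1 w.2).natAbs : ℕ) : ℤ) = F m w.1 w.2 := by
      rw [Int.natCast_natAbs, abs_of_nonneg (F_nonneg _ _ _)]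
    have h6 : F m w.1 w.2 ≤ (D : ℤ) ^ 2 := by
      have hDz : (D : ℤ) = (L + 3 * m) * 2 ^ j := by rw [hD, hE, hM]; push_cast; rfl
      have e1 : F m w.1 w.2 ≤ (w.1 + 3 * m * w.2) ^ 2 := by
        have : 0 ≤ 3 * m * w.1 * w.2 + 6 * m ^ 2 * w.2 ^ 2 := by positivity
        unfold F; nlinarith
      have e2 : w.1 + 3 * m * w.2 ≤ (D : ℤ) := by
        rw [hDz]
        have : 3 * m * w.2 ≤ 3 * m * 2 ^ j := by
          apply mul_le_mul_of_nonneg_left h4; positivity
        linarith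
      have e3 : 0 ≤ w.1 + 3 * m * w.2 := by positivity
      exact e1.trans (pow_le_pow_left₀ e3 e2 2)
    have : (((F m w.1 w.2).natAbs : ℕ) : ℤ) ≤ ((D ^ 2 : ℕ) : ℤ) := by
      rw [h5]; push_cast; exact h6
    exact_mod_cast this
  -- the first moment
  have hmom : ∑ w ∈ B, ((F m w.1 w.2).natAbs.divisors.card : ℝ) ≤
      2 * ∑ d ∈ Icc 1 D, ((B.filter (fun w => (d : ℤ) ∣ F m w.1 w.2)).card : ℝ) := by
    have h1 : ∀ w ∈ B, ((F m w.1 w.2).natAbs.divisors.card : ℝ) ≤
        2 * ∑ d ∈ Icc 1 D, (if (d : ℤ) ∣ F m w.1 w.2 then (1 : ℝ) else 0) := by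
      intro w hw
      have hV : Vx m w.1 w.2 := (mem_filter.1 hw).2
      have hpos : 0 < (F m w.1 w.2).natAbs := Int.natAbs_pos.2 (hV.F_pos hm).ne'
      have h2 := tau_half hpos (hFD w hw)
      have h3 : ((F m w.1 w.2).natAbs.divisors.filter (fun d => d ≤ D)).card ≤
          ((Icc 1 D).filter (fun d : ℕ => (d : ℤ) ∣ F m w.1 w.2)).card := by
        apply card_le_card
        intro d hd
        rw [mem_filter, Nat.mem_divisors] at hd
        rw [mem_filter, mem_Icc]
        exact ⟨⟨Nat.pos_of_dvd_of_pos hd.1.1 hpos, hd.2⟩, Int.natCast_dvd.2 hd.1.1⟩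
      rw [← sum_filter, sum_const, nsmul_eq_mul, mul_one]
      exact_mod_cast h2.trans (Nat.mul_le_mul_left 2 h3)
    refine (sum_le_sum h1).trans ?_
    rw [← mul_sum, sum_comm]
    gcongr with d hd
    rw [← sum_filter, sum_const, nsmul_eq_mul, mul_one]
  -- the number of vertices divisible by `d`
  have hN : ∀ d ∈ Icc 1 D, ((B.filter (fun w => (d : ℤ) ∣ F m w.1 w.2)).card : ℝ) ≤
      (L + E) * 4 ^ j * ((d.divisors.card : ℝ) / d) := by
    intro d hd
    rw [mem_Icc] at hd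
    have hd0 : (0 : ℝ) < d := by exact_mod_cast hd.1
    have h1 : (B.filter (fun w => (d : ℤ) ∣ F m w.1 w.2)).card ≤
        2 ^ j * ((L * 2 ^ j / d + 1) * d.divisors.card) := by
      have hsub : B.filter (fun w => (d : ℤ) ∣ F m w.1 w.2) ⊆
          (Icc (1 : ℤ) (2 ^ j)).biUnion (fun y =>
            (((Icc (1 : ℤ) ((L * 2 ^ j : ℕ) : ℤ)).filter
              (fun x : ℤ => Vx m x y ∧ (d : ℤ) ∣ F m x y))).image (fun x => (x, y))) := by
        intro w hw
        rw [mem_filter, hB, mem_filter, mem_product] at hw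
        obtain ⟨⟨⟨h2, h3⟩, h4⟩, h5⟩ := hw
        rw [mem_biUnion]
        refine ⟨w.2, h3, ?_⟩
        rw [mem_image]
        refine ⟨w.1, ?_, rfl⟩
        rw [mem_filter]
        refine ⟨?_, h4, h5⟩
        push_cast
        exact h2
      refine (card_le_card hsub).trans (card_biUnion_le.trans ?_)
      refine (sum_le_card_nsmul _ _ ((L * 2 ^ j / d + 1) * d.divisors.card) ?_).trans ?_
      · intro y _
        exact card_image_le.trans (tau_row hm d (L * 2 ^ j) hd.1 y)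
      · rw [smul_eq_mul, Int.card_Icc]
        apply Nat.mul_le_mul_right
        have : ((2 : ℤ) ^ j + 1 - 1) = ((2 ^ j : ℕ) : ℤ) := by push_cast; ring
        rw [this, Int.toNat_natCast]
    have h2 : (((L * 2 ^ j / d + 1 : ℕ)) : ℝ) ≤ (L + E) * 2 ^ j / d := by
      have h3 : ((L * 2 ^ j / d : ℕ) : ℝ) ≤ (L * 2 ^ j : ℕ) / (d : ℝ) := Nat.cast_div_le
      have h4 : (1 : ℝ) ≤ E * 2 ^ j / d := by
        rw [le_div_iff₀ hd0, one_mul]
        have := hd.2
        rw [hD] at this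
        exact_mod_cast this
      push_cast at h3 ⊢
      calc ((L * 2 ^ j / d : ℕ) : ℝ) + 1 ≤ (L * 2 ^ j : ℝ) / d + E * 2 ^ j / d := by
            linarith
        _ = _ := by ring
    calc ((B.filter (fun w => (d : ℤ) ∣ F m w.1 w.2)).card : ℝ)
        ≤ ((2 ^ j * ((L * 2 ^ j / d + 1) * d.divisors.card) : ℕ) : ℝ) := by exact_mod_cast h1
      _ = 2 ^ j * (((L * 2 ^ j / d + 1 : ℕ)) * (d.divisors.card : ℝ)) := by push_cast; ring
      _ ≤ 2 ^ j * (((L + E) * 2 ^ j / d) * (d.divisors.card : ℝ)) := by gcongr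
      _ = (L + E) * (2 ^ j * 2 ^ j) * ((d.divisors.card : ℝ) / d) := by ring
      _ = _ := by
        rw [← mul_pow]; norm_num
  have hsum : ∑ w ∈ B, ((F m w.1 w.2).natAbs.divisors.card : ℝ) ≤
      2 * (L + E) * (2 + Real.log E) ^ 2 * 4 ^ j * (j : ℝ) ^ 2 := by
    refine hmom.trans ?_
    have h1 : ∑ d ∈ Icc 1 D, ((B.filter (fun w => (d : ℤ) ∣ F m w.1 w.2)).card : ℝ) ≤
        (L + E) * 4 ^ j * (1 + Real.log D) ^ 2 := by
      refine (sum_le_sum hN).trans ?_
      rw [← mul_sum]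
      gcongr
      exact tau_sum D
    have hj1 : (1 : ℝ) ≤ j := by exact_mod_cast hj
    have h2 : 1 + Real.log D ≤ (2 + Real.log E) * j := by
      have hl : Real.log D = Real.log E + j * Real.log 2 := by
        rw [hD]; push_cast
        rw [Real.log_mul (by positivity) (by positivity), Real.log_pow]
      have hl2 : Real.log 2 ≤ 1 := by
        have := Real.log_two_lt_d9; linarith
      have hl2' : (j : ℝ) * Real.log 2 ≤ j := by nlinarith
      rw [hl]
      nlinarith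
    have h3 : 0 ≤ 1 + Real.log D := by
      have : (1 : ℝ) ≤ D := by
        have : 0 < D := by positivity
        exact_mod_cast this
      have := Real.log_nonneg this
      linarith
    calc 2 * ∑ d ∈ Icc 1 D, ((B.filter (fun w => (d : ℤ) ∣ F m w.1 w.2)).card : ℝ)
        ≤ 2 * ((L + E) * 4 ^ j * (1 + Real.log D) ^ 2) := by gcongr
      _ ≤ 2 * ((L + E) * 4 ^ j * ((2 + Real.log E) * j) ^ 2) := by gcongr
      _ = _ := by ring
  have hT' : (0 : ℝ) < T := by exact_mod_cast hT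
  rw [le_div_iff₀ hT']
  refine le_trans ?_ hsum
  have hsub : B' ⊆ B := by
    intro w hw
    rw [hB', mem_filter] at hw
    rw [hB, mem_filter]
    exact ⟨hw.1, hw.2.1⟩
  calc (B'.card : ℝ) * T = ∑ w ∈ B', (T : ℝ) := by rw [sum_const, nsmul_eq_mul]
    _ ≤ ∑ w ∈ B', ((F m w.1 w.2).natAbs.divisors.card : ℝ) := by
        refine sum_le_sum (fun w hw => ?_)
        rw [hB', mem_filter] at hw
        exact_mod_cast hw.2.2.le
    _ ≤ _ := sum_le_sum_of_subset_of_nonneg hsub (fun i _ _ => by positivity)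

end Pool.Agent.H48.AP
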